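import Pool.Agent.R959.LD2.ROWS

set_option autoImplicit false
set_option linter.unusedSectionVars false
set_option linter.unusedVariables false

/-!
# One phase, with explicit parameters
-/

open MeasureTheory ProbabilityTheory

namespace Pool.Agent.R959.LD2

open Pool.Agent.H320R2.LD Pool.Agent.H320R2.LD.PHASE

noncomputable section

/-- Schur test -/
theorem schur {V W : Type} [Fintype V] [Fintype W] (b : W → V → ℝ) (r c : ℝ) (hr : 0 ≤ r)
    (h1 : ∀ R, ∑ v, |b R v| ≤ r) (h2 : ∀ v, ∑ R, |b R v| ≤ c) (x : V → ℝ) :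
    ∑ R, (∑ v, |b R v| * |x v|) ^ 2 ≤ (r * c) * nsq x := by
  have r3 : ∀ R, (∑ v, |b R v| * |x v|) ^ 2 ≤ r * ∑ v, |b R v| * x v ^ 2 := by
    intro R
    have cs := Finset.sum_mul_sq_le_sq_mul_sq Finset.univ (fun v => Real.sqrt |b R v|)
      (fun v => Real.sqrt |b R v| * |x v|)
    have e1 : ∀ v, Real.sqrt |b R v| * (Real.sqrt |b R v| * |x v|) = |b R v| * |x v| := by
      intro v
      rw [← mul_assoc, Real.mul_self_sqrt (abs_nonneg _)]
    have e2 : ∀ v, Real.sqrt |b R v| ^ 2 = |b R v| := fun v => Real.sq_sqrt (abs_nonneg _)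
    have e3 : ∀ v, (Real.sqrt |b R v| * |x v|) ^ 2 = |b R v| * x v ^ 2 := by
      intro v
      rw [mul_pow, Real.sq_sqrt (abs_nonneg _), sq_abs]
    simp only [e1, e2, e3] at cs
    refine cs.trans ?_
    exact mul_le_mul_of_nonneg_right (h1 R)
      (Finset.sum_nonneg fun v _ => mul_nonneg (abs_nonneg _) (sq_nonneg _))
  calc ∑ R, (∑ v, |b R v| * |x v|) ^ 2
      ≤ ∑ R, r * ∑ v, |b R v| * x v ^ 2 := Finset.sum_le_sum fun R _ => r3 R
    _ = r * ∑ v, (∑ R, |b R v|) * x v ^ 2 := by
        rw [← Finset.mul_sum, Finset.sum_comm]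
        congr 1
        refine Finset.sum_congr rfl fun v _ => ?_
        rw [Finset.sum_mul]
    _ ≤ r * ∑ v, c * x v ^ 2 := by
        refine mul_le_mul_of_nonneg_left ?_ hr
        exact Finset.sum_le_sum fun v _ => mul_le_mul_of_nonneg_right (h2 v) (sq_nonneg _)
    _ = (r * c) * nsq x := by
        rw [← Finset.mul_sum, nsq, ← mul_assoc]

theorem bb_l1 {V W : Type} [Fintype V] (A : W → V → ℝ) (a : V → ℝ) (s : ℝ) (hs : 0 < s)
    (ha : ∀ v, |a v| ≤ 1) (R : W) (v : V) : |bb A a s R v| ≤ |A R v| / Real.sqrt s := by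
  unfold bb
  rw [abs_div, abs_mul, abs_of_nonneg (Real.sqrt_nonneg s), abs_of_nonneg (rho_nonneg ha v)]
  refine div_le_div_of_nonneg_right ?_ (Real.sqrt_nonneg s)
  exact mul_le_of_le_one_right (abs_nonneg _) (rho_le_one v)

open Classical in
/-- The assembly with explicit parameters. -/
theorem core_phase2 (hSOL : St_SOL) (hLOC : St_LOC) (hWLLL : St_WLLL) (hFAR : St_FAR)
    (hMEAN : St_MEAN) (hGEX : St_GEX) (hCONC : St_CONC) (hMOM : St_MOM)
    {V W J : Type} [Fintype V] [Fintype W] [Fintype J] (A : W → V → ℝ) (T : J → V → ℝ)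
    (L B τ : J → ℝ) (a : V → ℝ) (t s : ℝ)
    (hA : Adm2 t A) (hT : Ext t T L B τ) (ha : ∀ v, |a v| ≤ 1) (hPhi : ∀ R, Phi A a R ≤ s)
    (ht : 1000 ≤ t) (hs : 0 < s) (hs1 : s ≤ 1) (M K w0 α q qb ε c Ch : ℝ) (D m : ℕ)
    (hM : M = 400) (hK : 1 ≤ K) (hw0 : 0 < w0) (hw1 : w0 ≤ 1) (hw2 : w0 ≤ 1/1000)
    (hc : c = 1 / 10 ^ 12)
    (hq : 2 * (1 + 2 * M) ≤ q) (hqw : w0 ≤ q⁻¹) (hα : 0 < α) (hα1 : α ≤ 1) (hm : 1 ≤ m)
    (hD : (D : ℕ) = ⌊t ^ 4⌋₊)
    (hCT : 8 * α ^ 2 * q ^ 4 * (t ^ (9/5 : ℝ) / s) ≤ 1)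
    (hqb : 0 < qb) (hqb1 : qb ≤ 1) (hε : 0 < ε)
    (hpath : (2 * (D : ℝ) ^ 2) ^ (4 * m) * Real.exp (-(m : ℝ) * q ^ 2 / (4 * M ^ 2)) ≤ qb ^ 2)
    (hεq : ε + 2 * qb ≤ 1 / t ^ 3)
    (hCh : 0 < Ch) (hEH : ∀ (z : (V → ℝ) → (V → ℝ)),
      (∀ y, VI (bb A a s) (pf K w0) y (z y)) → ∀ R,
      Integrable (fun g => hf K w0 (eta (bb A a s) (z (M • g)) R)) (gam V) ∧
      ∫ g, hf K w0 (eta (bb A a s) (z (M • g)) R) ∂(gam V) ≤ Ch * (K⁻¹) ^ 4)
    (hKs : 16 * ((1 / s) * (Ch * (K⁻¹) ^ 4)) ≤ 1 / 1000)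
    (δ1 wm lt : ℝ)
    (hδ1 : δ1 = 2 * qb + 2 * Real.exp (-(ε ^ 2 * Real.exp (4 * α * m) / (16 * M ^ 2))))
    (hwm1 : 1 ≤ wm) (hlt1 : 1 ≤ lt) (hlt2 : 2 * lt ≤ t)
    (hp0 : Real.exp (-(c * (s * t))) + 2 * Real.exp (-((w0⁻¹) ^ 4 / M ^ 2))
      + D * δ1 ≤ Real.exp (-(2 * wm)))
    (hp3 : t ^ 4 * (nbd D m : ℝ) ^ 8 * δ1 ≤ Real.exp (-(2 * wm)) / 2)
    (hp2 : 2 * Real.exp (-(t / (16 * M ^ 2 * lt ^ 2))) ≤ Real.exp (-(2 * wm)) / 2)
    (hstar : 4 * t ^ 8 * (nbd D m : ℝ) ^ 17 * Real.exp (-wm) ≤ 1)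
    (hNb6 : 12 * M ^ 2 * t ^ 4 * lt ^ 2 ≤ (nbd D m : ℝ))
    (hNb7 : wm + 2 ≤ (nbd D m : ℝ) ^ 2)
    (z : (V → ℝ) → (V → ℝ)) (hz : ∀ y, VI (bb A a s) (pf K w0) y (z y)) :
    ∃ a' : V → ℝ, (∀ v, |a' v| ≤ 1) ∧ (∀ R, Phi A a' R ≤ 77/100 * s) ∧
      (∀ R, |∑ v, A R v * (a' v - a v)| ≤ (K + 3) * Real.sqrt s) ∧
      ∀ j, |∑ v, T j v * (a' v - a v)| ≤ B j / lt := by
  have hM0 : 0 < M := by rw [hM]; norm_num
  have ht0 : 0 < t := by linarith
  have ht1 : 1 ≤ t := by linarith
  obtain ⟨hA1, hA2, hA3, ⟨r, cc, hr0, hcc0, hrc, hAr, hAc⟩, hA4, hA5⟩ := hA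
  obtain ⟨hL, hB, hτ, hTτ, hTN, hTcol, hT1, hT2⟩ := hT
  set b := bb A a s with hb
  have hbrow : ∀ R, ∑ v, b R v ^ 2 ≤ 1 := fun R => bb_row ha hs R (hPhi R)
  have hbcol : ∀ v, ∑ R, b R v ^ 2 ≤ 1 / s := fun v => bb_col ha hs v (hA3 v)
  obtain ⟨hodd, hlip, hlipv, hlipR, -, -⟩ := hSOL V W b K w0 z hK hw0 hw1 hz
  have hzb : ∀ y v, |z y v| ≤ 1 := fun y v => (hz y).1 v
  -- supports
  obtain ⟨I, hI⟩ : ∃ I : W → V → Prop, ∀ R v, I R v ↔ A R v ≠ 0 := ⟨_, fun _ _ => Iff.rfl⟩
  have hbI : ∀ R v, b R v ≠ 0 → I R v := fun R v h => (hI R v).2 (bb_supp R v h)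
  have hAI : ∀ R v, ¬ I R v → A R v = 0 := fun R v h => by
    by_contra h0
    exact h ((hI R v).2 h0)
  have hfilt : ∀ R, (Finset.univ.filter (fun v => I R v)) = supp (A R) := by
    intro R
    ext v
    rw [Finset.mem_filter, mem_supp, hI]
    simp
  have hcardR : ∀ R, (Finset.univ.filter (fun v => I R v)).card ≤ D := by
    intro R
    rw [hD, hfilt]
    exact Nat.le_floor (hA4 R)
  have hcardV : ∀ v, (Finset.univ.filter (fun R => I R v)).card ≤ D := by
    intro v
    rw [hD]
    refine Nat.le_floor ?_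
    have : (Finset.univ.filter (fun R => I R v)) = supp (fun R => A R v) := by
      ext R
      rw [Finset.mem_filter, mem_supp, hI]
      simp
    rw [this]
    exact hA5 v
  have hncR : ∀ R, {v | I R v}.ncard ≤ D := by
    intro R
    rw [Set.ncard_eq_toFinset_card']
    convert hcardR R using 2
    ext v; simp
  have hncV : ∀ v, {R | I R v}.ncard ≤ D := by
    intro v
    rw [Set.ncard_eq_toFinset_card']
    convert hcardV v using 2
    ext R; simp
  have hDt4 : (D : ℝ) ≤ t ^ 4 := by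
    rw [hD]; exact Nat.floor_le (by positivity)
  have hss : 0 < Real.sqrt s := Real.sqrt_pos.2 hs
  have hOPb : ∀ x : V → ℝ, ∑ R, (∑ v, |b R v| * |x v|) ^ 2 ≤ (t ^ (9/5 : ℝ) / s) * nsq x := by
    intro x
    have h1 : ∀ R, ∑ v, |b R v| ≤ r / Real.sqrt s := by
      intro R
      calc ∑ v, |b R v| ≤ ∑ v, |A R v| / Real.sqrt s :=
            Finset.sum_le_sum fun v _ => bb_l1 A a s hs ha R v
        _ = (∑ v, |A R v|) / Real.sqrt s := by rw [Finset.sum_div]
        _ ≤ r / Real.sqrt s := div_le_div_of_nonneg_right (hAr R) hss.le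
    have h2 : ∀ v, ∑ R, |b R v| ≤ cc / Real.sqrt s := by
      intro v
      calc ∑ R, |b R v| ≤ ∑ R, |A R v| / Real.sqrt s :=
            Finset.sum_le_sum fun R _ => bb_l1 A a s hs ha R v
        _ = (∑ R, |A R v|) / Real.sqrt s := by rw [Finset.sum_div]
        _ ≤ cc / Real.sqrt s := div_le_div_of_nonneg_right (hAc v) hss.le
    refine (schur b (r / Real.sqrt s) (cc / Real.sqrt s) (by positivity) h1 h2 x).trans ?_
    refine mul_le_mul_of_nonneg_right ?_ (PHASE.nsq_nonneg x)
    have h3 : r / Real.sqrt s * (cc / Real.sqrt s) = r * cc / s := by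
      rw [div_mul_div_comm, Real.mul_self_sqrt hs.le]
    rw [h3]
    exact div_le_div_of_nonneg_right hrc hs.le
  -- locality
  set X : V → (V → ℝ) → ℝ := fun v => XX z M (ball I (4 * m) v) v with hX
  have hloc : ∀ v, (gam V).real {g | ε + 2 * qb < |X v g - z (M • g) v|} ≤ δ1 := by
    intro v
    rw [hδ1]
    exact hLOC V W b K w0 M α q qb ε (t ^ (9/5 : ℝ) / s) D m z I hK hw0 hw1 hz hbI
      hncR hncV hM0 hα hα1 hq hqw (by positivity) hOPb hCT hqb hqb1 hε hm hpath v
  have hδ0 : 0 ≤ δ1 := by rw [hδ1]; positivity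
  have hloc3 : ∀ v, (gam V).real {g | 1 / t ^ 3 < |X v g - z (M • g) v|} ≤ δ1 := by
    intro v
    refine le_trans (measureReal_mono ?_) (hloc v)
    intro g hg
    exact lt_of_le_of_lt hεq hg
  -- expected free mass
  have hfree : ∀ v, ∫ g, (1 - |z (M • g) v|) ∂(gam V) ≤ 6 / 1000 := by
    intro v
    have h1 := hMEAN V W b K w0 M (w0 / 2) z hK hw0 hw1 hbrow hz hM0 (by positivity) le_rfl
      (fun R => (hEH z hz R).1) v
    have h2 : ∑ R, b R v ^ 2 * ∫ g, hf K w0 (eta b (z (M • g)) R) ∂(gam V) ≤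
        (1 / s) * (Ch * (K⁻¹) ^ 4) := by
      calc ∑ R, b R v ^ 2 * ∫ g, hf K w0 (eta b (z (M • g)) R) ∂(gam V)
          ≤ ∑ R, b R v ^ 2 * (Ch * (K⁻¹) ^ 4) :=
            Finset.sum_le_sum fun R _ =>
              mul_le_mul_of_nonneg_left (hEH z hz R).2 (sq_nonneg _)
        _ = (∑ R, b R v ^ 2) * (Ch * (K⁻¹) ^ 4) := by rw [Finset.sum_mul]
        _ ≤ (1 / s) * (Ch * (K⁻¹) ^ 4) :=
            mul_le_mul_of_nonneg_right (hbcol v) (by positivity)
    have h3 : (1 : ℝ) / M = 1 / 400 := by rw [hM]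
    rw [h3] at h1
    linarith
  have hzc : ∀ v, Continuous (fun g => z (M • g) v) := fun v =>
    lip_continuous (zM_lip hM0 hlipv v)
  have hG : ∀ v, ∫ g, Gp (sg a v * z (M • g) v) ∂(gam V) ≤ 3 / 4 := by
    intro v
    refine hGEX V (fun g => z (M • g) v) (hzc v) (fun g => hzb _ _) ?_ (hfree v) (sg a v)
      (sg_cases a v)
    intro g
    have h1 : M • (-g) = -(M • g) := smul_neg _ _
    show z (M • (-g)) v = - z (M • g) v
    rw [h1, hodd]; rfl
  -- progress
  set F : W → (V → ℝ) → ℝ := fun R g => FF A a R (z (M • g)) with hF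
  have hEF : ∀ R, ∫ g, F R g ∂(gam V) ≤ 3 / 4 * s := by
    intro R
    have h1 : ∫ g, F R g ∂(gam V) = ∑ v, A R v ^ 2 * Real.sqrt (rho a v) *
        ∫ g, Gp (sg a v * z (M • g) v) ∂(gam V) := by
      rw [hF]
      unfold FF
      rw [integral_finsetSum]
      · refine Finset.sum_congr rfl fun v _ => ?_
        rw [integral_const_mul]
      · intro v _
        refine Integrable.const_mul ?_ _
        refine Integrable.of_bound (C := 2) ?_ ?_
        · exact (Gp_continuous.comp (continuous_const.mul (hzc v))).aestronglyMeasurable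
        · refine Filter.Eventually.of_forall fun g => ?_
          rw [Real.norm_eq_abs]
          refine Gp_bdd _ ?_
          rw [abs_mul, sg_abs, one_mul]; exact hzb _ _
    rw [h1]
    have h2 : ∑ v, A R v ^ 2 * Real.sqrt (rho a v) *
        ∫ g, Gp (sg a v * z (M • g) v) ∂(gam V) ≤
        ∑ v, A R v ^ 2 * Real.sqrt (rho a v) * (3 / 4) :=
      Finset.sum_le_sum fun v _ => mul_le_mul_of_nonneg_left (hG v) (by positivity)
    refine h2.trans ?_
    rw [← Finset.sum_mul]
    have h3 : ∑ v, A R v ^ 2 * Real.sqrt (rho a v) ≤ s := hPhi R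
    linarith
  have hFlip : ∀ R, Lip (10 * Real.sqrt (s / t) * M) (F R) := by
    intro R x y
    refine (FF_lip t ht0 ha hs hA1 R (hPhi R) (z (M • x)) (z (M • y))).trans ?_
    rw [mul_assoc (10 * Real.sqrt (s / t))]
    refine mul_le_mul_of_nonneg_left ?_ (by positivity)
    refine (hlip (M • y) (M • x)).trans ?_
    rw [← smul_sub, nrm_smul, abs_of_pos hM0]
  have hFP : ∀ R, (gam V).real {g | (∫ y, F R y ∂(gam V)) + s / 100 ≤ F R g}
      ≤ Real.exp (-(c * (s * t))) := by
    intro R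
    have hL' : 0 < 10 * Real.sqrt (s / t) * M := by positivity
    refine (hCONC V (F R) _ hL' (hFlip R) (s / 100) (by positivity)).trans ?_
    rw [Real.exp_le_exp]
    have h1 : (10 * Real.sqrt (s / t) * M) ^ 2 = 100 * (s / t) * 160000 := by
      rw [mul_pow, mul_pow, Real.sq_sqrt (by positivity), hM]; norm_num
    rw [h1, hc, neg_div, neg_le_neg_iff, le_div_iff₀ (by positivity)]
    have h2 : (1 / 10 ^ 12 * (s * t)) * (4 * (100 * (s / t) * 160000)) = 64 / 10 ^ 6 * s ^ 2 := by
      field_simp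
      ring
    rw [h2]
    nlinarith [sq_nonneg s]
  -- the main events
  have hfar := fun R => hFAR V W b K w0 M z hK hw0 hw1 hz hM0 R
  set E : W → Set (V → ℝ) := fun R => {g | 77/100 * s < FF A a R (fun v => X v g) ∨
    K + 3 < |eta b (fun v => X v g) R|} with hE
  have hXL : ∀ v, Lip M (X v) := fun v => XX_lip hM0 hlipv hzb _ v
  have hXc : ∀ v, Continuous (X v) := fun v => lip_continuous (hXL v)
  have hXb : ∀ v g, |X v g| ≤ 1 := fun v g => XX_abs hzb _ v g
  have hXodd : ∀ v x, X v (-x) = - X v x := fun v x => XX_odd hodd _ v x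
  have hXd0 : ∀ v, ∀ x y : V → ℝ, (∀ u ∈ ball I (4 * m) v, x u = y u) → X v x = X v y :=
    fun v x y h => XX_dep _ v x y h
  have hEm : ∀ R, MeasurableSet (E R) := by
    intro R
    have hER : E R = {g | 77/100 * s < FF A a R (fun v => X v g)} ∪
      {g | K + 3 < |eta b (fun v => X v g) R|} := rfl
    rw [hER]
    refine MeasurableSet.union ?_ ?_
    · refine measurableSet_lt measurable_const (Continuous.measurable ?_)
      unfold FF
      refine continuous_finsetSum _ fun v _ => ?_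
      exact continuous_const.mul (Gp_continuous.comp (continuous_const.mul (hXc v)))
    · refine measurableSet_lt measurable_const (Continuous.measurable ?_)
      refine Continuous.abs ?_
      unfold eta
      exact continuous_finsetSum _ fun v _ => continuous_const.mul (hXc v)
  have hXdep : ∀ (Y : Finset V) v, v ∈ Y → ∀ x y : V → ℝ,
      (∀ u ∈ sball I (4 * m) Y, x u = y u) → X v x = X v y := by
    intro Y v hv x y hxy
    exact hXd0 v x y fun u hu => hxy u ((mem_sball I _ Y u).mpr ⟨v, hv, hu⟩)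
  have hEdep : ∀ R, ∀ x y : V → ℝ, (∀ u ∈ sball I (4 * m) (supp (A R)), x u = y u) →
      (x ∈ E R → y ∈ E R) := by
    intro R x y hxy hx
    have h1 : FF A a R (fun v => X v x) = FF A a R (fun v => X v y) := by
      unfold FF
      refine Finset.sum_congr rfl fun v _ => ?_
      by_cases hv : I R v
      · show A R v ^ 2 * Real.sqrt (rho a v) * Gp (sg a v * X v x)
          = A R v ^ 2 * Real.sqrt (rho a v) * Gp (sg a v * X v y)
        rw [hXdep (supp (A R)) v ((mem_supp _ _).mpr ((hI R v).1 hv)) x y hxy]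
      · have : A R v = 0 := hAI R v hv
        rw [this]; simp
    have h2 : eta b (fun v => X v x) R = eta b (fun v => X v y) R := by
      unfold eta
      refine Finset.sum_congr rfl fun v _ => ?_
      by_cases hv : I R v
      · show b R v * X v x = b R v * X v y
        rw [hXdep (supp (A R)) v ((mem_supp _ _).mpr ((hI R v).1 hv)) x y hxy]
      · have : b R v = 0 := by
          by_contra h0
          exact hv (hbI R v h0)
        rw [this]; simp
    show 77/100 * s < FF A a R (fun v => X v y) ∨ K + 3 < |eta b (fun v => X v y) R|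
    rw [← h1, ← h2]
    exact hx
  have hEp : ∀ R, (gam V).real (E R) ≤ Real.exp (-(c * (s * t)))
      + 2 * Real.exp (-((w0⁻¹) ^ 4 / M ^ 2)) + D * δ1 := by
    intro R
    set S := Finset.univ.filter (fun v => I R v) with hS
    have hsub : E R ⊆ ({g | (∫ y, F R y ∂(gam V)) + s / 100 ≤ F R g} ∪
        {g | K + 2 ≤ |eta b (z (M • g)) R|}) ∪
        ⋃ v ∈ S, {g | ε + 2 * qb < |X v g - z (M • g) v|} := by
      intro g hg
      by_contra hng
      rw [Set.mem_union, Set.mem_union, not_or, not_or] at hng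
      obtain ⟨⟨h1, h2⟩, h3⟩ := hng
      have h1' : F R g < (∫ y, F R y ∂(gam V)) + s / 100 := not_le.1 h1
      have h2' : |eta b (z (M • g)) R| < K + 2 := not_le.1 h2
      have h3' : ∀ v, I R v → |X v g - z (M • g) v| ≤ 1 / t ^ 3 := by
        intro v hv
        by_contra h4
        apply h3
        rw [Set.mem_iUnion₂]
        refine ⟨v, by rw [hS, Finset.mem_filter]; exact ⟨Finset.mem_univ _, hv⟩, ?_⟩
        show ε + 2 * qb < |X v g - z (M • g) v|
        exact lt_of_le_of_lt hεq (not_le.1 h4)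
      -- first alternative
      have h5 : FF A a R (fun v => X v g) ≤ F R g + s / 100 := by
        have h6 : FF A a R (fun v => X v g) - F R g ≤
            ∑ v, A R v ^ 2 * Real.sqrt (rho a v) * (1 / 100) := by
          rw [hF]
          unfold FF
          rw [← Finset.sum_sub_distrib]
          refine Finset.sum_le_sum fun v _ => ?_
          rw [← mul_sub]
          by_cases hv : I R v
          · refine mul_le_mul_of_nonneg_left ?_ (by positivity)
            have h7 := (le_abs_self _).trans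
              (Gp_lip (sg a v * X v g) (sg a v * z (M • g) v))
            rw [← mul_sub, abs_mul, sg_abs, one_mul] at h7
            refine h7.trans ?_
            have h8 := h3' v hv
            have h9 : 1 / t ^ 3 ≤ 1 / 1000 := by
              refine one_div_le_one_div_of_le (by norm_num) ?_
              calc (1000 : ℝ) ≤ t := ht
                _ ≤ t ^ 3 := le_self_pow₀ ht1 (by norm_num)
            linarith
          · have : A R v = 0 := hAI R v hv
            rw [this]; simp
        rw [← Finset.sum_mul] at h6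
        have h10 : ∑ v, A R v ^ 2 * Real.sqrt (rho a v) ≤ s := hPhi R
        linarith
      have h11 : |eta b (fun v => X v g) R| ≤ |eta b (z (M • g)) R| + 1 := by
        have h12 : |eta b (fun v => X v g) R - eta b (z (M • g)) R| ≤ 1 := by
          unfold eta
          rw [← Finset.sum_sub_distrib]
          have h13 : ∑ v, (b R v * X v g - b R v * z (M • g) v) =
              ∑ v, b R v * (if I R v then (X v g - z (M • g) v) else 0) := by
            refine Finset.sum_congr rfl fun v _ => ?_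
            split_ifs with hv
            · ring
            · have : b R v = 0 := by
                by_contra h0
                exact hv (hbI R v h0)
              rw [this]; simp
          rw [h13]
          have h14 := abs_sum_mul_le (fun v => b R v)
            (fun v => if I R v then (X v g - z (M • g) v) else 0) 1 zero_le_one
            (by rw [one_pow]; exact hbrow R)
          refine h14.trans ?_
          rw [one_mul]
          unfold nrm nsq
          rw [Real.sqrt_le_one]
          calc ∑ v, (if I R v then (X v g - z (M • g) v) else 0) ^ 2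
              ≤ ∑ v, (if I R v then (1 / t ^ 3) ^ 2 else 0) := by
                refine Finset.sum_le_sum fun v _ => ?_
                split_ifs with hv
                · rw [← sq_abs]
                  exact pow_le_pow_left₀ (abs_nonneg _) (h3' v hv) 2
                · norm_num
            _ = (S.card : ℝ) * (1 / t ^ 3) ^ 2 := by
                rw [← Finset.sum_filter, Finset.sum_const, nsmul_eq_mul]
            _ ≤ t ^ 4 * (1 / t ^ 3) ^ 2 := by
                refine mul_le_mul_of_nonneg_right ?_ (by positivity)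
                have : (S.card : ℝ) ≤ D := by exact_mod_cast hcardR R
                linarith
            _ = 1 / t ^ 2 := by field_simp
            _ ≤ 1 := by
                rw [div_le_one (by positivity)]
                exact one_le_pow₀ ht1
        have h18 := abs_sub_abs_le_abs_sub (eta b (fun v => X v g) R) (eta b (z (M • g)) R)
        linarith
      rcases hg with hg | hg
      · have := hEF R
        have hg' : 77/100 * s < FF A a R (fun v => X v g) := hg
        linarith
      · have hg' : K + 3 < |eta b (fun v => X v g) R| := hg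
        linarith
    calc (gam V).real (E R) ≤ (gam V).real (({g | (∫ y, F R y ∂(gam V)) + s / 100 ≤ F R g} ∪
        {g | K + 2 ≤ |eta b (z (M • g)) R|}) ∪
        ⋃ v ∈ S, {g | ε + 2 * qb < |X v g - z (M • g) v|}) := measureReal_mono hsub
      _ ≤ (gam V).real ({g | (∫ y, F R y ∂(gam V)) + s / 100 ≤ F R g} ∪
        {g | K + 2 ≤ |eta b (z (M • g)) R|}) +
        (gam V).real (⋃ v ∈ S, {g | ε + 2 * qb < |X v g - z (M • g) v|}) :=
          measureReal_union_le _ _
      _ ≤ (Real.exp (-(c * (s * t))) + 2 * Real.exp (-((w0⁻¹) ^ 4 / M ^ 2))) + D * δ1 := by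
          refine add_le_add ?_ ?_
          · refine (measureReal_union_le _ _).trans ?_
            exact add_le_add (hFP R) (hfar R)
          · refine (measureReal_biUnion_finset_le _ _).trans ?_
            calc ∑ v ∈ S, (gam V).real {g | ε + 2 * qb < |X v g - z (M • g) v|}
                ≤ ∑ v ∈ S, δ1 := Finset.sum_le_sum fun v _ => hloc v
              _ = S.card * δ1 := by rw [Finset.sum_const, nsmul_eq_mul]
              _ ≤ D * δ1 := by
                  refine mul_le_mul_of_nonneg_right ?_ (by positivity)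
                  exact_mod_cast hcardR R
  -- the extra rows
  set Nb : ℝ := (nbd D m : ℝ) with hNb
  have hNb1 : 1 ≤ Nb := by
    rw [hNb]
    exact_mod_cast Nat.one_le_pow _ _ (by positivity)
  have hNb0 : 0 < Nb := by linarith
  set N : J → ℝ := fun j => ((supp (T j)).card : ℝ) with hN
  have hN0 : ∀ j, 0 ≤ N j := fun j => Nat.cast_nonneg _
  set wj : J → ℝ := fun j => if L j ≤ Nb ^ 8 then wm else max (Real.sqrt (L j)) (N j) / Nb ^ 2
    with hwj
  have hL0 : ∀ j, 0 < L j := fun j => lt_of_lt_of_le ht0 (hL j)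
  have hsqL : ∀ j, ¬ (L j ≤ Nb ^ 8) → Nb ^ 4 ≤ Real.sqrt (L j) := by
    intro j hj
    refine Real.le_sqrt_of_sq_le ?_
    calc (Nb ^ 4) ^ 2 = Nb ^ 8 := by ring
      _ ≤ L j := (not_le.1 hj).le
  have hwj1 : ∀ j, 1 ≤ wj j := by
    intro j
    simp only [hwj]
    split_ifs with hj
    · exact hwm1
    · rw [le_div_iff₀ (by positivity), one_mul]
      calc Nb ^ 2 ≤ Nb ^ 4 := pow_le_pow_right₀ hNb1 (by norm_num)
        _ ≤ Real.sqrt (L j) := hsqL j hj
        _ ≤ _ := le_max_left _ _
  have hwjL : ∀ j, L j * Real.exp (-(wj j)) ≤ Nb ^ 8 * Real.exp (-wm) := by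
    intro j
    by_cases hj : L j ≤ Nb ^ 8
    · have : wj j = wm := by simp only [hwj, if_pos hj]
      rw [this]
      exact mul_le_mul_of_nonneg_right hj (Real.exp_pos _).le
    · have : wj j = max (Real.sqrt (L j)) (N j) / Nb ^ 2 := by simp only [hwj, if_neg hj]
      refine weight_large (L j) Nb wm (wj j) hNb1 (by linarith) (not_le.1 hj).le ?_ hNb7
      rw [this]
      exact div_le_div_of_nonneg_right (le_max_left _ _) (by positivity)
  set G : J → Set (V → ℝ) := fun j => {g | B j / lt < |∑ v, (T j v * rho a v) * X v g|} with hGd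
  have hGm : ∀ j, MeasurableSet (G j) := by
    intro j
    refine measurableSet_lt measurable_const (Continuous.measurable ?_)
    exact (continuous_finsetSum _ fun v _ => continuous_const.mul (hXc v)).abs
  have hrr : ∀ v, 0 ≤ rho a v ∧ rho a v ≤ 1 := fun v => ⟨rho_nonneg ha v, rho_le_one v⟩
  have hGdep : ∀ j, ∀ x y : V → ℝ, (∀ u ∈ sball I (4 * m) (supp (T j)), x u = y u) →
      (x ∈ G j → y ∈ G j) := by
    intro j x y hxy hx
    have h1 : ∑ v, (T j v * rho a v) * X v x = ∑ v, (T j v * rho a v) * X v y := by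
      refine Finset.sum_congr rfl fun v _ => ?_
      by_cases hv : T j v = 0
      · rw [hv]; ring
      · rw [hXdep (supp (T j)) v ((mem_supp _ _).mpr hv) x y hxy]
    show B j / lt < |∑ v, (T j v * rho a v) * X v y|
    rw [← h1]
    exact hx
  have hGp : ∀ j, (gam V).real (G j) ≤ Real.exp (-(2 * wj j)) := by
    intro j
    by_cases hj : L j ≤ Nb ^ 8
    · have hw : wj j = wm := by simp only [hwj, if_pos hj]
      rw [hw]
      refine (rowA hCONC hMOM z M hM0 hlip hodd X (T j) (rho a) hrr (τ j) (hτ j) (hTτ j) (B j)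
        (L j) t lt δ1 (hB j) (hT1 j) (hT2 j) (hL j) ht hlt1 hlt2 hδ0 hloc3).trans ?_
      have h1 : N j * δ1 ≤ t ^ 4 * Nb ^ 8 * δ1 := by
        refine mul_le_mul_of_nonneg_right ?_ hδ0
        calc N j ≤ L j * t ^ 4 := hTN j
          _ ≤ Nb ^ 8 * t ^ 4 := mul_le_mul_of_nonneg_right hj (by positivity)
          _ = t ^ 4 * Nb ^ 8 := mul_comm _ _
      linarith
    · have hw : wj j = max (Real.sqrt (L j)) (N j) / Nb ^ 2 := by simp only [hwj, if_neg hj]
      have hw1 := hwj1 j
      rw [hw] at hw1 ⊢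
      refine rowB hCONC hMOM M hM0 X hXL hXodd (fun v => ball I (4 * m) v) hXd0 Nb ?_ (T j)
        (rho a) hrr (τ j) (hτ j) (hTτ j) (B j) (L j) t lt (hB j) (hT1 j) (hT2 j) (hL j) ht hlt1
        hNb6 hw1
      intro u
      have h1 := card_ball_rev hncR hncV (4 * m) u
      have h2 : (D ^ 2 + 1) ^ (4 * m) ≤ nbd D m := by
        unfold nbd
        exact Nat.pow_le_pow_right (by positivity) (by omega)
      rw [hNb]
      exact_mod_cast h1.trans h2
  -- the weighted local lemma
  set E' : W ⊕ J → Set (V → ℝ) := Sum.elim E G with hE'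
  set Xs : W ⊕ J → Finset V := Sum.elim (fun R => supp (A R)) (fun j => supp (T j)) with hXs
  set w : W ⊕ J → ℝ := Sum.elim (fun _ => wm) wj with hw
  have hew0 : 0 < Real.exp (-wm) := Real.exp_pos _
  set Γ : ℝ := 2 * t ^ 4 * Nb ^ 8 * Real.exp (-wm) with hΓ
  have hΓ0 : 0 ≤ Γ := by positivity
  have hNb8 : 1 ≤ Nb ^ 8 := one_le_pow₀ hNb1
  have hΓv : ∀ v, ∑ i ∈ Finset.univ.filter (fun i => v ∈ Xs i), Real.exp (-(w i)) ≤ Γ := by
    intro v
    rw [Finset.sum_filter, Fintype.sum_sum_type]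
    have h1 : ∑ R : W, (if v ∈ Xs (Sum.inl R) then Real.exp (-(w (Sum.inl R))) else 0) ≤
        t ^ 4 * Real.exp (-wm) := by
      have h2 : ∑ R : W, (if v ∈ Xs (Sum.inl R) then Real.exp (-(w (Sum.inl R))) else 0) =
          ∑ R : W, (if I R v then Real.exp (-wm) else 0) := by
        refine Finset.sum_congr rfl fun R _ => ?_
        have h3 : v ∈ Xs (Sum.inl R) ↔ I R v := by
          show v ∈ supp (A R) ↔ I R v
          rw [mem_supp, hI]
        have h4 : w (Sum.inl R) = wm := rfl
        rw [h4]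
        by_cases h5 : I R v
        · rw [if_pos (h3.2 h5), if_pos h5]
        · rw [if_neg (fun h => h5 (h3.1 h)), if_neg h5]
      rw [h2, ← Finset.sum_filter, Finset.sum_const, nsmul_eq_mul]
      refine mul_le_mul_of_nonneg_right ?_ hew0.le
      have h6 : (((Finset.univ.filter (fun R => I R v)).card : ℕ) : ℝ) ≤ D := by
        exact_mod_cast hcardV v
      linarith
    have h2 : ∑ j : J, (if v ∈ Xs (Sum.inr j) then Real.exp (-(w (Sum.inr j))) else 0) ≤
        t ^ 4 * (Nb ^ 8 * Real.exp (-wm)) := by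
      have h3 : ∑ j : J, (if v ∈ Xs (Sum.inr j) then Real.exp (-(w (Sum.inr j))) else 0) =
          ∑ j ∈ supp (fun j => T j v), Real.exp (-(wj j)) := by
        rw [← Finset.sum_filter]
        refine Finset.sum_congr ?_ fun j _ => rfl
        ext j
        rw [Finset.mem_filter, mem_supp]
        show (j ∈ Finset.univ ∧ v ∈ supp (T j)) ↔ _
        rw [mem_supp]
        simp
      rw [h3]
      calc ∑ j ∈ supp (fun j => T j v), Real.exp (-(wj j))
          ≤ ∑ j ∈ supp (fun j => T j v), (1 / L j) * (Nb ^ 8 * Real.exp (-wm)) := by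
            refine Finset.sum_le_sum fun j _ => ?_
            have h4 := hwjL j
            have h5 := hL0 j
            rw [div_mul_eq_mul_div, one_mul, le_div_iff₀ h5, mul_comm]
            exact h4
        _ = (∑ j ∈ supp (fun j => T j v), 1 / L j) * (Nb ^ 8 * Real.exp (-wm)) := by
            rw [Finset.sum_mul]
        _ ≤ _ := mul_le_mul_of_nonneg_right (hTcol v) (by positivity)
    have h3 : t ^ 4 * Real.exp (-wm) ≤ t ^ 4 * (Nb ^ 8 * Real.exp (-wm)) := by
      refine mul_le_mul_of_nonneg_left ?_ (by positivity)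
      exact le_mul_of_one_le_left hew0.le hNb8
    calc _ ≤ t ^ 4 * Real.exp (-wm) + t ^ 4 * (Nb ^ 8 * Real.exp (-wm)) := add_le_add h1 h2
      _ ≤ Γ := by rw [hΓ]; linarith
  have ht4 : 1 ≤ t ^ 4 := one_le_pow₀ ht1
  have hbase : ∀ n : ℝ, 0 ≤ n → n ≤ Nb ^ 8 * t ^ 4 → n * Nb * Γ ≤ 1 / 2 := by
    intro n hn0 hn
    calc n * Nb * Γ ≤ (Nb ^ 8 * t ^ 4) * Nb * Γ := by gcongr
      _ = (4 * t ^ 8 * Nb ^ 17 * Real.exp (-wm)) / 2 := by rw [hΓ]; ring
      _ ≤ 1 / 2 := by linarith
  have hsumw : ∀ i, ∑ j ∈ Finset.univ.filter (fun j => ¬ Disjoint (sball I (4 * m) (Xs i))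
      (sball I (4 * m) (Xs j))), Real.exp (-(w j)) ≤ w i / 2 := by
    intro i
    have h1 := wsum_le hncR hncV (4 * m) Xs (fun j => Real.exp (-(w j)))
      (fun j => (Real.exp_pos _).le) Γ hΓ0 hΓv i
    have h2 : ((Xs i).card : ℝ) * (((D ^ 2 + 1) ^ (2 * (4 * m)) : ℕ) : ℝ) * Γ ≤ w i / 2 := by
      have h3 : (((D ^ 2 + 1) ^ (2 * (4 * m)) : ℕ) : ℝ) = Nb := rfl
      rw [h3]
      rcases i with R | j
      · have h4 : ((Xs (Sum.inl R)).card : ℝ) ≤ Nb ^ 8 * t ^ 4 := by
          have h5 : ((Xs (Sum.inl R)).card : ℝ) ≤ t ^ 4 := hA4 R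
          have h6 : t ^ 4 ≤ Nb ^ 8 * t ^ 4 := le_mul_of_one_le_left (by positivity) hNb8
          linarith
        have h7 := hbase _ (Nat.cast_nonneg _) h4
        have h8 : w (Sum.inl R) = wm := rfl
        rw [h8]
        linarith
      · by_cases hj : L j ≤ Nb ^ 8
        · have h4 : ((Xs (Sum.inr j)).card : ℝ) ≤ Nb ^ 8 * t ^ 4 := by
            have h5 : ((Xs (Sum.inr j)).card : ℝ) ≤ L j * t ^ 4 := hTN j
            have h6 : L j * t ^ 4 ≤ Nb ^ 8 * t ^ 4 := mul_le_mul_of_nonneg_right hj (by positivity)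
            linarith
          have h7 := hbase _ (Nat.cast_nonneg _) h4
          have h8 : w (Sum.inr j) = wm := by
            show wj j = wm
            simp only [hwj, if_pos hj]
          rw [h8]
          linarith
        · have h8 : w (Sum.inr j) = max (Real.sqrt (L j)) (N j) / Nb ^ 2 := by
            show wj j = _
            simp only [hwj, if_neg hj]
          rw [h8]
          have h9 : ((Xs (Sum.inr j)).card : ℝ) = N j := rfl
          rw [h9]
          have h10 : Nb * Γ ≤ 1 / (2 * Nb ^ 2) := by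
            rw [le_div_iff₀ (by positivity)]
            have h11 : Nb * Γ * (2 * Nb ^ 2) = 4 * t ^ 4 * Nb ^ 11 * Real.exp (-wm) := by
              rw [hΓ]; ring
            rw [h11]
            refine le_trans ?_ hstar
            have h12 : t ^ 4 ≤ t ^ 8 := pow_le_pow_right₀ ht1 (by norm_num)
            have h13 : Nb ^ 11 ≤ Nb ^ 17 := pow_le_pow_right₀ hNb1 (by norm_num)
            gcongr
          calc N j * Nb * Γ = N j * (Nb * Γ) := by ring
            _ ≤ N j * (1 / (2 * Nb ^ 2)) := mul_le_mul_of_nonneg_left h10 (hN0 j)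
            _ = N j / Nb ^ 2 / 2 := by field_simp
            _ ≤ max (Real.sqrt (L j)) (N j) / Nb ^ 2 / 2 := by
                gcongr
                exact le_max_right _ _
    exact h1.trans h2
  obtain ⟨g, hg⟩ := hWLLL V (W ⊕ J) (fun _ => gaussianReal 0 1) E'
    (fun i => sball I (4 * m) (Xs i))
    (by
      rintro (R | j)
      · exact hEm R
      · exact hGm j)
    (by
      rintro (R | j)
      · exact hEdep R
      · exact hGdep j)
    w
    (by
      rintro (R | j)
      · exact hwm1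
      · exact hwj1 j)
    (by
      rintro (R | j)
      · exact (hEp R).trans hp0
      · exact hGp j)
    (by
      intro i
      convert hsumw i)
  -- the new state
  refine ⟨nw a (fun v => X v g), nw_abs ha _ (fun v => hXb v g), fun R => ?_, fun R => ?_,
    fun j => ?_⟩
  · refine (nw_Phi ha _ (fun v => hXb v g) R).trans ?_
    by_contra h1
    exact hg (Sum.inl R) (Or.inl (not_le.1 h1))
  · rw [nw_disc hs, abs_mul, abs_of_nonneg (Real.sqrt_nonneg s), mul_comm]
    refine mul_le_mul_of_nonneg_right ?_ (Real.sqrt_nonneg s)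
    by_contra h1
    exact hg (Sum.inl R) (Or.inr (not_le.1 h1))
  · have h1 : ∑ v, T j v * (nw a (fun v => X v g) v - a v) =
        ∑ v, (T j v * rho a v) * X v g := by
      refine Finset.sum_congr rfl fun v _ => ?_
      unfold nw
      ring
    rw [h1]
    by_contra h2
    exact hg (Sum.inr j) (not_le.1 h2)

end

end Pool.Agent.R959.LD2
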