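import Pool.Agent.R959.LD2.Defs
import Pool.Agent.H320R2.LD.ITER

set_option autoImplicit false

/-!
# ITER2: iteration of the phases, and MAIN2: the signs
-/

open MeasureTheory ProbabilityTheory Filter

namespace Pool.Agent.R959.LD2

open Pool.Agent.H320R2.LD

theorem prove_ITER2 (h1 : St_PHASE2) : St_ITER2 := by
  obtain ⟨C, t0, hC, ht0, hph⟩ := h1
  obtain ⟨T', hT3, hT'⟩ := ITER.exists_T
  set ρ : ℝ := (4/5 : ℝ) ^ (1/4 : ℝ) with hρ
  have hρ0 : 0 < ρ := Real.rpow_pos_of_pos (by norm_num) _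
  have hρ1 : ρ < 1 := Real.rpow_lt_one (by norm_num) (by norm_num) (by norm_num)
  have hgeo : ∀ j : ℕ, ∑ i ∈ Finset.range j, ρ ^ i ≤ 1 / (1 - ρ) := by
    intro j
    rw [geom_sum_eq hρ1.ne, ← neg_div_neg_eq, neg_sub, neg_sub]
    exact div_le_div_of_nonneg_right (by linarith [pow_pos hρ0 j]) (by linarith)
  refine ⟨C * (1 / (1 - ρ)), max t0 T', mul_pos hC (one_div_pos.mpr (by linarith)),
    le_trans ht0 (le_max_left _ _), ?_⟩
  intro t ht V W J _ _ _ A T L B τ hA hE
  have htt0 : t0 ≤ t := (le_max_left _ _).trans ht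
  have htT : T' ≤ t := (le_max_right _ _).trans ht
  have ht3 : 3 ≤ t := hT3.trans htT
  have hlog : 0 < Real.log t := Real.log_pos (by linarith)
  have hex : ∃ n : ℕ, (4/5 : ℝ) ^ n ≤ 1 / Real.log t := by
    obtain ⟨n, hn⟩ := exists_pow_lt_of_lt_one (one_div_pos.mpr hlog) (show (4/5 : ℝ) < 1 by norm_num)
    exact ⟨n, hn.le⟩
  classical
  set n := Nat.find hex with hn
  have hn1 : (4/5 : ℝ) ^ n ≤ 1 / Real.log t := Nat.find_spec hex
  have hn2 : ∀ j < n, 1 / Real.log t < (4/5 : ℝ) ^ j := fun j hj =>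
    not_le.mp (Nat.find_min hex hj)
  have hn3 : (n : ℝ) ≤ 4 * Real.log t := by
    rcases Nat.eq_zero_or_pos n with h0 | h0
    · rw [h0]; simp; exact hlog.le
    · obtain ⟨k, hk⟩ : ∃ k, n = k + 1 := ⟨n - 1, by omega⟩
      have h2 := hn2 k (by omega)
      have h3 : 1 + (k : ℝ) * (1/4) ≤ (5/4 : ℝ) ^ k := by
        have := one_add_mul_le_pow (a := (1/4 : ℝ)) (by norm_num) k
        have e : (1 + 1/4 : ℝ) = 5/4 := by norm_num
        rw [e] at this
        exact this
      have h4 : (5/4 : ℝ) ^ k < Real.log t := by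
        have h5 : (4/5 : ℝ) ^ k = ((5/4 : ℝ) ^ k)⁻¹ := by
          rw [← inv_pow]; norm_num
        rw [h5, one_div] at h2
        exact (inv_lt_inv₀ hlog (by positivity)).mp h2
      rw [hk]
      push_cast
      linarith
  have key : ∀ j : ℕ, j ≤ n → ∃ a : V → ℝ, (∀ v, |a v| ≤ 1) ∧ (∀ R, Phi A a R ≤ (4/5 : ℝ) ^ j) ∧
      (∀ R, |∑ v, A R v * a v| ≤ C * ∑ i ∈ Finset.range j, ρ ^ i) ∧
      ∀ i, |∑ v, T i v * a v| ≤ (j : ℝ) * (B i / Real.log t) := by
    intro j
    induction j with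
    | zero =>
      intro _
      refine ⟨fun _ => 0, fun v => by simp, fun R => ?_, fun R => by simp, fun i => by simp⟩
      unfold Phi
      simpa using hA.2.1 R
    | succ j ih =>
      intro hj
      obtain ⟨a, ha1, ha2, ha3, ha4⟩ := ih (by omega)
      have hjn : j < n := by omega
      obtain ⟨a', ha1', ha2', ha3', ha4'⟩ := hph t ((4/5 : ℝ) ^ j) htt0
        ((hT' t htT).trans (hn2 j hjn).le) (pow_le_one₀ (by norm_num) (by norm_num)) V W J A T L B τ
        a hA hE ha1 ha2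
      refine ⟨a', ha1', fun R => ?_, fun R => ?_, fun i => ?_⟩
      · have := ha2' R
        rw [pow_succ]
        linarith
      · have h1 := ha3 R
        have h2 := ha3' R
        have h3 : ∑ v, A R v * a' v = ∑ v, A R v * a v + ∑ v, A R v * (a' v - a v) := by
          rw [← Finset.sum_add_distrib]
          exact Finset.sum_congr rfl fun v _ => by ring
        have h4 : ((4/5 : ℝ) ^ j) ^ (1/4 : ℝ) = ρ ^ j := by
          rw [hρ, ← Real.rpow_natCast, ← Real.rpow_natCast, ← Real.rpow_mul (by norm_num),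
            ← Real.rpow_mul (by norm_num), mul_comm]
        rw [h4] at h2
        rw [h3, Finset.sum_range_succ, mul_add]
        exact (abs_add_le _ _).trans (add_le_add h1 h2)
      · have h1 := ha4 i
        have h2 := ha4' i
        have h3 : ∑ v, T i v * a' v = ∑ v, T i v * a v + ∑ v, T i v * (a' v - a v) := by
          rw [← Finset.sum_add_distrib]
          exact Finset.sum_congr rfl fun v _ => by ring
        rw [h3]
        push_cast
        refine (abs_add_le _ _).trans ?_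
        linarith
  obtain ⟨a, ha1, ha2, ha3, ha4⟩ := key n le_rfl
  refine ⟨a, ha1, fun R => (ha2 R).trans hn1, fun R => (ha3 R).trans ?_, fun i => (ha4 i).trans ?_⟩
  · exact mul_le_mul_of_nonneg_left (hgeo n) hC.le
  · have hB : 0 < B i := hE.2.1 i
    have h5 : 0 ≤ B i / Real.log t := by positivity
    calc (n : ℝ) * (B i / Real.log t) ≤ (4 * Real.log t) * (B i / Real.log t) :=
          mul_le_mul_of_nonneg_right hn3 h5
      _ = 4 * B i := by field_simp

theorem prove_MAIN2 (h1 : St_ITER2) (h2 : St_ROUND2) : St_MAIN2 := by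
  obtain ⟨C, t0, hC, ht0, hI⟩ := h1
  obtain ⟨t1, ht1, hR⟩ := h2
  refine ⟨C + 40, max t0 t1, by linarith, ht0.trans (le_max_left _ _), ?_⟩
  intro t ht V W J _ _ _ A T L B τ hA hE
  obtain ⟨a, ha1, ha2, ha3, ha4⟩ := hI t ((le_max_left _ _).trans ht) V W J A T L B τ hA hE
  have hsq : ∀ R, ∑ v, A R v ^ 2 * (1 - |a v|) ≤ 1 / Real.log t := by
    intro R
    refine le_trans (Finset.sum_le_sum fun v _ => ?_) (ha2 R)
    apply mul_le_mul_of_nonneg_left _ (sq_nonneg _)
    have h0 : 0 ≤ 1 - |a v| := by linarith [ha1 v]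
    have h1 : 1 - |a v| ≤ 1 := by linarith [abs_nonneg (a v)]
    calc 1 - |a v| = Real.sqrt ((1 - |a v|) ^ 2) := (Real.sqrt_sq h0).symm
      _ ≤ Real.sqrt (1 - |a v|) := Real.sqrt_le_sqrt (by nlinarith)
  obtain ⟨x, hx1, hx2, hx3⟩ := hR t ((le_max_right _ _).trans ht) V W J A T L B τ a hA hE ha1 hsq
  refine ⟨x, hx1, fun R => ?_, fun i => ?_⟩
  · have h3 : ∑ v, A R v * x v = ∑ v, A R v * (x v - a v) + ∑ v, A R v * a v := by
      rw [← Finset.sum_add_distrib]
      exact Finset.sum_congr rfl fun v _ => by ring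
    rw [h3]
    refine (abs_add_le _ _).trans ?_
    linarith [hx2 R, ha3 R]
  · have h3 : ∑ v, T i v * x v = ∑ v, T i v * (x v - a v) + ∑ v, T i v * a v := by
      rw [← Finset.sum_add_distrib]
      exact Finset.sum_congr rfl fun v _ => by ring
    rw [h3]
    refine (abs_add_le _ _).trans ?_
    linarith [hx3 i, ha4 i]

end Pool.Agent.R959.LD2
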