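import Pool.Agent.R959.LD2.CORE

set_option autoImplicit false
set_option linter.unusedSectionVars false

/-!
# One phase
-/

open MeasureTheory ProbabilityTheory

namespace Pool.Agent.R959.LD2

open Pool.Agent.H320R2.LD Pool.Agent.H320R2.LD.PHASE

/-- The phase lemma. -/
theorem prove_PHASE2 (hEX : St_EX) (hSOL : St_SOL) (hLOC : St_LOC) (hWLLL : St_WLLL)
    (hFAR : St_FAR) (hEH : St_EH) (hMEAN : St_MEAN) (hGEX : St_GEX) (hCONC : St_CONC)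
    (hMOM : St_MOM) (hPOT1 : St_POT1) (hPARAM : St_PARAM2) : St_PHASE2 := by
  obtain ⟨Ch, hCh, hEH'⟩ := hEH 400 (by norm_num)
  obtain ⟨t0, ht02, hpar⟩ := hPARAM 400 (1 / 10 ^ 12) (by norm_num) (by norm_num)
  set CK : ℝ := 1 + 16000 * Ch with hCK
  have hCK1 : 1 ≤ CK := by linarith
  refine ⟨CK + 3, t0, by positivity, ht02, ?_⟩
  intro t s ht hts hs1 V W J _ _ _ A T L B τ a hA hT ha hPhi
  obtain ⟨⟨p1, p2, p3, p4, p5, p6, p7, p8, p9⟩, q1, q2, q3, q4, q5, q6, q7, q8, q9⟩ :=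
    hpar t ht s hts hs1 ⌊t ^ 4⌋₊ ⌈5 * t ^ (97/100 : ℝ) * Real.log t⌉₊ rfl rfl
  have ht0 : 0 < t := by linarith
  have hs : 0 < s := lt_of_lt_of_le (Real.rpow_pos_of_pos ht0 _) hts
  set K : ℝ := CK * s ^ (-(1/4) : ℝ) with hK
  have hsK : 1 ≤ s ^ (-(1/4) : ℝ) := Real.one_le_rpow_of_pos_of_le_one_of_nonpos hs hs1 (by norm_num)
  have hK1 : 1 ≤ K := by
    rw [hK]
    nlinarith
  have hs4 : (s ^ (-(1/4) : ℝ)) ^ 4 = 1 / s := by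
    rw [← Real.rpow_natCast, ← Real.rpow_mul hs.le]
    norm_num
    rw [Real.rpow_neg_one]
  have hKs : 16 * ((1 / s) * (Ch * (K⁻¹) ^ 4)) ≤ 1 / 1000 := by
    rw [inv_pow, hK, mul_pow, hs4]
    have h1 : (1 / s) * (Ch * (CK ^ 4 * (1 / s))⁻¹) = Ch / CK ^ 4 := by
      field_simp
    rw [h1, mul_div_assoc', div_le_div_iff₀ (by positivity) (by norm_num)]
    have h2 : CK ≤ CK ^ 4 := by
      calc CK = CK ^ 1 := (pow_one _).symm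
        _ ≤ CK ^ 4 := pow_le_pow_right₀ hCK1 (by norm_num)
    linarith
  have hpow : (0 : ℝ) < t ^ (-(1/4) : ℝ) := Real.rpow_pos_of_pos ht0 _
  have hcont := (hPOT1 K (t ^ (-(1/4) : ℝ)) hK1 hpow (by linarith)).1
  have hmono := (hPOT1 K (t ^ (-(1/4) : ℝ)) hK1 hpow (by linarith)).2.2.1
  choose z hz using fun y => hEX V W (bb A a s) (pf K (t ^ (-(1/4) : ℝ))) hcont hmono y
  have hq0 : (0 : ℝ) < t ^ (1/50 : ℝ) := Real.rpow_pos_of_pos ht0 _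
  obtain ⟨a', h1, h2, h3, h4⟩ := core_phase2 hSOL hLOC hWLLL hFAR hMEAN hGEX hCONC hMOM
    A T L B τ a t s hA hT ha hPhi p1 hs hs1 400 K (t ^ (-(1/4) : ℝ)) (t ^ (-(97/100) : ℝ))
    (t ^ (1/50 : ℝ)) (Real.exp (-t)) (1 / (2 * t ^ 3)) (1 / 10 ^ 12) Ch ⌊t ^ 4⌋₊
    ⌈5 * t ^ (97/100 : ℝ) * Real.log t⌉₊ rfl hK1 hpow (by linarith) p3 rfl p4 p5
    (Real.rpow_pos_of_pos ht0 _) p6 p2 rfl p7 (Real.exp_pos _)
    (by rw [Real.exp_le_one_iff]; linarith) (by positivity) p8 p9 hCh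
    (fun z hz R => hEH' V W (bb A a s) K (t ^ (-(1/4) : ℝ)) z hK1 hpow (by linarith) hz R
      (bb_row ha hs R (hPhi R))) hKs
    (del 400 t ⌈5 * t ^ (97/100 : ℝ) * Real.log t⌉₊) (t ^ (49/50 : ℝ)) (Real.log t) rfl
    q7 q8 q9 q1 q2 q3 q4 q5 q6 z hz
  refine ⟨a', h1, fun R => (h2 R).trans ?_, fun R => (h3 R).trans ?_, h4⟩
  · nlinarith
  · have hs14 : 0 < s ^ (1/4 : ℝ) := Real.rpow_pos_of_pos hs _
    have e1 : Real.sqrt s = s ^ (1/4 : ℝ) * s ^ (1/4 : ℝ) := by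
      rw [← Real.rpow_add hs, Real.sqrt_eq_rpow]; norm_num
    have e2 : s ^ (-(1/4) : ℝ) * s ^ (1/4 : ℝ) = 1 := by
      rw [← Real.rpow_add hs]; norm_num
    have e3 : s ^ (1/4 : ℝ) ≤ 1 := Real.rpow_le_one hs.le hs1 (by norm_num)
    rw [e1, hK]
    calc (CK * s ^ (-(1/4) : ℝ) + 3) * (s ^ (1/4 : ℝ) * s ^ (1/4 : ℝ))
        = CK * (s ^ (-(1/4) : ℝ) * s ^ (1/4 : ℝ)) * s ^ (1/4 : ℝ)
          + 3 * (s ^ (1/4 : ℝ)) * s ^ (1/4 : ℝ) := by ring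
      _ = CK * s ^ (1/4 : ℝ) + 3 * (s ^ (1/4 : ℝ)) * s ^ (1/4 : ℝ) := by rw [e2]; ring
      _ ≤ (CK + 3) * s ^ (1/4 : ℝ) := by nlinarith

end Pool.Agent.R959.LD2
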