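import Pool.Agent.R959.LD2.Defs

set_option autoImplicit false

/-!
# Task REAL: real matrices from admissible matrices
-/

open MeasureTheory ProbabilityTheory

namespace Pool.Agent.R959.LD2

open Pool.Agent.H320R2.LD

namespace REAL

noncomputable section

/-- truncation of the binary expansion -/
def tr (κ : ℕ) (y : ℝ) : ℝ := (⌊(2 : ℝ) ^ κ * y⌋₊ : ℝ) / 2 ^ κ

/-- a binary digit -/
def dl (κ : ℕ) (y : ℝ) : ℝ := tr (κ + 1) y - tr κ y

/-- sign -/
def sg (a : ℝ) : ℝ := if a < 0 then -1 else 1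

lemma sg_mul_abs (a : ℝ) : sg a * |a| = a := by
  unfold sg
  split_ifs with h
  · rw [abs_of_neg h]; ring
  · rw [abs_of_nonneg (not_lt.1 h)]; ring

lemma abs_sg (a : ℝ) : |sg a| = 1 := by
  unfold sg
  split_ifs <;> simp

lemma sg_sq (a : ℝ) : sg a ^ 2 = 1 := by
  unfold sg
  split_ifs <;> norm_num

lemma tr_nonneg (κ : ℕ) (y : ℝ) : 0 ≤ tr κ y := by
  unfold tr
  positivity

lemma tr_le (κ : ℕ) {y : ℝ} (hy : 0 ≤ y) : tr κ y ≤ y := by
  unfold tr
  rw [div_le_iff₀ (by positivity)]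
  have := Nat.floor_le (show 0 ≤ (2 : ℝ) ^ κ * y by positivity)
  linarith

lemma le_tr (κ : ℕ) (y : ℝ) : y - tr κ y ≤ 1 / 2 ^ κ := by
  unfold tr
  have h : (0 : ℝ) < 2 ^ κ := by positivity
  rw [sub_le_iff_le_add, ← add_div, le_div_iff₀ h]
  have := Nat.lt_floor_add_one ((2 : ℝ) ^ κ * y)
  linarith

lemma tr_ne (κ : ℕ) {y : ℝ} (h : tr κ y ≠ 0) : 1 ≤ (2 : ℝ) ^ κ * y := by
  by_contra hcon
  apply h
  unfold tr
  have h1 : ⌊(2 : ℝ) ^ κ * y⌋₊ = 0 := by
    rw [Nat.floor_eq_zero]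
    exact not_le.1 hcon
  rw [h1]
  simp

lemma dl_cases (κ : ℕ) {y : ℝ} (hy : 0 ≤ y) : dl κ y = 0 ∨ dl κ y = 1 / 2 ^ (κ + 1) := by
  have h0 : (0 : ℝ) < 2 ^ κ := by positivity
  set a := ⌊(2 : ℝ) ^ κ * y⌋₊ with ha
  set b := ⌊(2 : ℝ) ^ (κ + 1) * y⌋₊ with hb
  have h1 := Nat.floor_le (show 0 ≤ (2 : ℝ) ^ κ * y by positivity)
  have h2 := Nat.lt_floor_add_one ((2 : ℝ) ^ κ * y)
  have h3 := Nat.floor_le (show 0 ≤ (2 : ℝ) ^ (κ + 1) * y by positivity)
  have h4 := Nat.lt_floor_add_one ((2 : ℝ) ^ (κ + 1) * y)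
  rw [← ha] at h1 h2
  rw [← hb] at h3 h4
  have h5 : (2 : ℝ) ^ (κ + 1) * y = 2 * ((2 : ℝ) ^ κ * y) := by rw [pow_succ]; ring
  rw [h5] at h3 h4
  have h6 : (b : ℝ) < 2 * a + 2 := by linarith
  have h7 : (2 * a : ℝ) < b + 1 := by linarith
  have h6' : b < 2 * a + 2 := by exact_mod_cast h6
  have h7' : 2 * a < b + 1 := by exact_mod_cast h7
  have h8 : dl κ y = ((b : ℝ) - 2 * a) / 2 ^ (κ + 1) := by
    unfold dl tr
    rw [← ha, ← hb, pow_succ]
    field_simp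
  rw [h8]
  have h9 : b = 2 * a ∨ b = 2 * a + 1 := by omega
  rcases h9 with h9 | h9 <;> rw [h9] <;> push_cast
  · left
    simp
  · right
    congr 1
    ring

lemma dl_nonneg (κ : ℕ) {y : ℝ} (hy : 0 ≤ y) : 0 ≤ dl κ y := by
  rcases dl_cases κ hy with h | h <;> rw [h]
  positivity

lemma dl_le (κ : ℕ) {y : ℝ} (hy : 0 ≤ y) : dl κ y ≤ y := by
  have h1 := tr_le (κ + 1) hy
  have h2 := tr_nonneg κ y
  unfold dl
  linarith

lemma dl_sq (κ : ℕ) {y : ℝ} (hy : 0 ≤ y) : dl κ y ^ 2 = dl κ y * (1 / 2 ^ (κ + 1)) := by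
  rcases dl_cases κ hy with h | h <;> rw [h]
  · ring
  · ring

lemma sum_dl (k0 n : ℕ) (y : ℝ) :
    ∑ i : Fin n, dl (k0 + i) y = tr (k0 + n) y - tr k0 y := by
  rw [Fin.sum_univ_eq_sum_range (fun i => dl (k0 + i) y) n]
  have := Finset.sum_range_sub (fun i => tr (k0 + i) y) n
  simp only [add_zero] at this
  rw [← this]
  rfl

section

variable {V W : Type} [Fintype V] [Fintype W]

/-- the main matrix -/
def Am (A : W → V → ℝ) (k0 : ℕ) (w : W → ℝ) : W → V → ℝ :=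
  fun R v => sg (A R v) * tr k0 |A R v| / √(w R)

/-- the extra rows -/
def Tm (A : W → V → ℝ) (k0 n : ℕ) (w : W → ℝ) : W × Fin n → V → ℝ :=
  fun j v => sg (A j.1 v) * dl (k0 + j.2) |A j.1 v| / √(w j.1)

/-- the relative size of an extra row -/
def fm (A : W → V → ℝ) (k0 n : ℕ) (w : W → ℝ) (j : W × Fin n) : ℝ :=
  (∑ v, dl (k0 + j.2) |A j.1 v|) / w j.1

/-- allowed sizes -/
def Bm (A : W → V → ℝ) (T : ℝ) (k0 n : ℕ) (w : W → ℝ) (j : W × Fin n) : ℝ :=
  fm A k0 n w j + √(T / 2 ^ (k0 + (j.2 : ℕ) + 1))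

variable {A : W → V → ℝ} {T : ℝ} {k0 : ℕ} {w : W → ℝ}

lemma pow_le_four {T : ℝ} (hT : 1 ≤ T) {x : ℝ} (hx : x ≤ 4) : T ^ x ≤ T ^ 4 := by
  have h := Real.rpow_le_rpow_of_exponent_le hT hx
  have h4 : T ^ (4 : ℝ) = T ^ 4 := by exact_mod_cast Real.rpow_natCast T 4
  rwa [h4] at h

lemma abs_Am (R : W) (v : V) : |Am A k0 w R v| = tr k0 |A R v| / √(w R) := by
  unfold Am
  rw [abs_div, abs_mul, abs_sg, one_mul, abs_of_nonneg (tr_nonneg _ _),
    abs_of_nonneg (Real.sqrt_nonneg _)]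

lemma adm (hT : 2 ≤ T) (hk1 : (2 : ℝ) ^ k0 ≤ T) (hA1 : ∀ R v, |A R v| ≤ 1)
    (hcol : ∀ v, ∑ R, |A R v| ≤ T) (hrow : ∀ R, ∑ v, |A R v| ≤ w R) (hw1 : ∀ R, T ≤ w R)
    (hw2 : ∀ R, w R ≤ T ^ (5/2 : ℝ)) : Adm2 T (Am A k0 w) := by
  have hT0 : 0 < T := by linarith
  have hT1 : 1 ≤ T := by linarith
  have hw0 : ∀ R, 0 < w R := fun R => lt_of_lt_of_le hT0 (hw1 R)
  have hsq : ∀ R v, Am A k0 w R v ^ 2 = tr k0 |A R v| ^ 2 / w R := by
    intro R v
    rw [← sq_abs, abs_Am, div_pow, Real.sq_sqrt (hw0 R).le]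
  have htr : ∀ R v, tr k0 |A R v| ^ 2 ≤ |A R v| := by
    intro R v
    have h1 := tr_nonneg k0 |A R v|
    have h2 := tr_le k0 (abs_nonneg (A R v))
    have h3 := hA1 R v
    nlinarith [abs_nonneg (A R v)]
  have hs : ∀ R, √T ≤ √(w R) := fun R => Real.sqrt_le_sqrt (hw1 R)
  have hs0 : 0 < √T := Real.sqrt_pos.2 hT0
  refine ⟨?_, ?_, ?_, ⟨T ^ (5/4 : ℝ), √T, by positivity, hs0.le, ?_, ?_, ?_⟩, ?_, ?_⟩
  · intro R v
    rw [hsq, div_mul_eq_mul_div, div_le_one (hw0 R)]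
    have h1 := htr R v
    have h2 := hA1 R v
    have h3 := hw1 R
    nlinarith
  · intro R
    simp_rw [hsq]
    rw [← Finset.sum_div, div_le_one (hw0 R)]
    exact (Finset.sum_le_sum fun v _ => htr R v).trans (hrow R)
  · intro v
    simp_rw [hsq]
    calc ∑ R, tr k0 |A R v| ^ 2 / w R ≤ ∑ R, |A R v| / T := by
          refine Finset.sum_le_sum fun R _ => ?_
          exact div_le_div₀ (abs_nonneg _) (htr R v) hT0 (hw1 R)
      _ = (∑ R, |A R v|) / T := by rw [Finset.sum_div]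
      _ ≤ 1 := by rw [div_le_one hT0]; exact hcol v
  · rw [Real.sqrt_eq_rpow, ← Real.rpow_add hT0]
    apply Real.rpow_le_rpow_of_exponent_le hT1
    norm_num
  · intro R
    have h1 : √(w R) ≤ T ^ (5/4 : ℝ) := by
      have h2 : √(w R) ≤ √(T ^ (5/2 : ℝ)) := Real.sqrt_le_sqrt (hw2 R)
      rw [Real.sqrt_eq_rpow (T ^ (5/2 : ℝ)), ← Real.rpow_mul hT0.le] at h2
      norm_num at h2 ⊢
      exact h2
    calc ∑ v, |Am A k0 w R v| ≤ ∑ v, |A R v| / √(w R) := by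
          refine Finset.sum_le_sum fun v _ => ?_
          rw [abs_Am]
          exact div_le_div_of_nonneg_right (tr_le k0 (abs_nonneg _)) (Real.sqrt_nonneg _)
      _ = (∑ v, |A R v|) / √(w R) := by rw [Finset.sum_div]
      _ ≤ w R / √(w R) := div_le_div_of_nonneg_right (hrow R) (Real.sqrt_nonneg _)
      _ = √(w R) := Real.div_sqrt
      _ ≤ T ^ (5/4 : ℝ) := h1
  · intro v
    calc ∑ R, |Am A k0 w R v| ≤ ∑ R, |A R v| / √T := by
          refine Finset.sum_le_sum fun R _ => ?_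
          rw [abs_Am]
          exact div_le_div₀ (abs_nonneg _) (tr_le k0 (abs_nonneg _)) hs0 (hs R)
      _ = (∑ R, |A R v|) / √T := by rw [Finset.sum_div]
      _ ≤ T / √T := div_le_div_of_nonneg_right (hcol v) hs0.le
      _ = √T := Real.div_sqrt
  · intro R
    have h1 : ∀ v ∈ supp (Am A k0 w R), (1 : ℝ) ≤ T * |A R v| := by
      intro v hv
      rw [mem_supp] at hv
      have h2 : tr k0 |A R v| ≠ 0 := by
        intro h3
        apply hv
        unfold Am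
        rw [h3]
        simp
      have h3 := tr_ne k0 h2
      have h4 := mul_le_mul_of_nonneg_right hk1 (abs_nonneg (A R v))
      linarith
    calc ((supp (Am A k0 w R)).card : ℝ) = ∑ _v ∈ supp (Am A k0 w R), (1 : ℝ) := by simp
      _ ≤ ∑ v ∈ supp (Am A k0 w R), T * |A R v| := Finset.sum_le_sum h1
      _ ≤ ∑ v, T * |A R v| := Finset.sum_le_sum_of_subset_of_nonneg (Finset.subset_univ _)
          fun v _ _ => by positivity
      _ = T * ∑ v, |A R v| := by rw [Finset.mul_sum]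
      _ ≤ T * T ^ (5/2 : ℝ) := by
          apply mul_le_mul_of_nonneg_left _ hT0.le
          exact (hrow R).trans (hw2 R)
      _ = T ^ (7/2 : ℝ) := by
          conv_lhs => rw [← Real.rpow_one T]
          rw [← Real.rpow_mul hT0.le, ← Real.rpow_add hT0]
          norm_num
      _ ≤ T ^ 4 := pow_le_four hT1 (by norm_num)
  · intro v
    have h1 : ∀ R ∈ supp (fun R => Am A k0 w R v), (1 : ℝ) ≤ T * |A R v| := by
      intro R hR
      rw [mem_supp] at hR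
      have h2 : tr k0 |A R v| ≠ 0 := by
        intro h3
        apply hR
        show Am A k0 w R v = 0
        unfold Am
        rw [h3]
        simp
      have h3 := tr_ne k0 h2
      have h4 := mul_le_mul_of_nonneg_right hk1 (abs_nonneg (A R v))
      linarith
    calc ((supp (fun R => Am A k0 w R v)).card : ℝ)
        = ∑ _R ∈ supp (fun R => Am A k0 w R v), (1 : ℝ) := by simp
      _ ≤ ∑ R ∈ supp (fun R => Am A k0 w R v), T * |A R v| := Finset.sum_le_sum h1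
      _ ≤ ∑ R, T * |A R v| := Finset.sum_le_sum_of_subset_of_nonneg (Finset.subset_univ _)
          fun R _ _ => by positivity
      _ = T * ∑ R, |A R v| := by rw [Finset.mul_sum]
      _ ≤ T * T := mul_le_mul_of_nonneg_left (hcol v) hT0.le
      _ ≤ T ^ 4 := by nlinarith [mul_pos hT0 hT0, sq_nonneg (T * T - 1)]

lemma Tm_ne {n : ℕ} (hw0 : ∀ R, 0 < w R) (j : W × Fin n) (v : V) :
    Tm A k0 n w j v ≠ 0 ↔ dl (k0 + j.2) |A j.1 v| ≠ 0 := by
  have h1 : √(w j.1) ≠ 0 := (Real.sqrt_pos.2 (hw0 _)).ne'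
  have h2 : sg (A j.1 v) ≠ 0 := by
    intro h
    have := abs_sg (A j.1 v)
    rw [h] at this
    simp at this
  unfold Tm
  rw [ne_eq, div_eq_zero_iff, mul_eq_zero]
  tauto

lemma ext {n : ℕ} (hT : 2 ≤ T) (hk2 : T < (2 : ℝ) ^ (k0 + 1)) (hcol : ∀ v, ∑ R, |A R v| ≤ T)
    (hrow : ∀ R, ∑ v, |A R v| ≤ w R) (hw1 : ∀ R, T ≤ w R) (hw2 : ∀ R, w R ≤ T ^ (5/2 : ℝ)) :
    Ext T (Tm A k0 n w) (fun j => (2 : ℝ) ^ (k0 + (j.2 : ℕ) + 1)) (Bm A T k0 n w)
      (fun j => 1 / 2 ^ (k0 + (j.2 : ℕ) + 1) / √(w j.1)) := by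
  have hT0 : 0 < T := by linarith
  have hT1 : 1 ≤ T := by linarith
  have hw0 : ∀ R, 0 < w R := fun R => lt_of_lt_of_le hT0 (hw1 R)
  have hL0 : ∀ j : W × Fin n, (0 : ℝ) < 2 ^ (k0 + (j.2 : ℕ) + 1) := fun j => by positivity
  have hf0 : ∀ j, 0 ≤ fm A k0 n w j := fun j =>
    div_nonneg (Finset.sum_nonneg fun v _ => dl_nonneg _ (abs_nonneg _)) (hw0 _).le
  have hg0 : ∀ j : W × Fin n, 0 < √(T / 2 ^ (k0 + (j.2 : ℕ) + 1)) := fun j =>
    Real.sqrt_pos.2 (div_pos hT0 (hL0 j))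
  -- the number of nonzero entries
  have hcard : ∀ j : W × Fin n, ((supp (Tm A k0 n w j)).card : ℝ) =
      2 ^ (k0 + (j.2 : ℕ) + 1) * ∑ v, dl (k0 + j.2) |A j.1 v| := by
    intro j
    have h1 : ∑ v, dl (k0 + j.2) |A j.1 v| = ∑ v ∈ supp (Tm A k0 n w j),
        (1 : ℝ) / 2 ^ (k0 + (j.2 : ℕ) + 1) := by
      rw [← Finset.sum_subset (Finset.subset_univ (supp (Tm A k0 n w j)))]
      · refine Finset.sum_congr rfl fun v hv => ?_
        rw [mem_supp, Tm_ne hw0] at hv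
        exact (dl_cases _ (abs_nonneg _)).resolve_left hv
      · intro v _ hv
        rw [mem_supp, Tm_ne hw0, not_not] at hv
        exact hv
    rw [h1, Finset.sum_const, nsmul_eq_mul]
    have := (hL0 j).ne'
    field_simp
  have hsumle : ∀ j : W × Fin n, ∑ v, dl (k0 + j.2) |A j.1 v| ≤ w j.1 := fun j =>
    (Finset.sum_le_sum fun v _ => dl_le _ (abs_nonneg _)).trans (hrow j.1)
  have hsq : ∀ j : W × Fin n, ∑ v, Tm A k0 n w j v ^ 2 =
      fm A k0 n w j / 2 ^ (k0 + (j.2 : ℕ) + 1) := by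
    intro j
    have h1 : ∀ v, Tm A k0 n w j v ^ 2 =
        dl (k0 + j.2) |A j.1 v| * ((1 / 2 ^ (k0 + (j.2 : ℕ) + 1)) / w j.1) := by
      intro v
      unfold Tm
      rw [div_pow, mul_pow, sg_sq, one_mul, Real.sq_sqrt (hw0 _).le,
        dl_sq _ (abs_nonneg _)]
      ring
    simp_rw [h1]
    rw [← Finset.sum_mul]
    unfold fm
    ring
  refine ⟨?_, ?_, ?_, ?_, ?_, ?_, ?_, ?_⟩
  · intro j
    refine hk2.le.trans ?_
    exact pow_le_pow_right₀ (by norm_num) (by omega)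
  · intro j
    exact add_pos_of_nonneg_of_pos (hf0 j) (hg0 j)
  · intro j
    have := hL0 j
    have h2 : 0 < √(w j.1) := Real.sqrt_pos.2 (hw0 _)
    positivity
  · intro j v hv
    rw [Tm_ne hw0] at hv
    have h1 := (dl_cases (k0 + j.2) (abs_nonneg (A j.1 v))).resolve_left hv
    show |Tm A k0 n w j v| = 1 / 2 ^ (k0 + (j.2 : ℕ) + 1) / √(w j.1)
    unfold Tm
    rw [abs_div, abs_mul, abs_sg, one_mul, h1, abs_of_nonneg (Real.sqrt_nonneg _),
      abs_of_nonneg (by positivity)]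
  · intro j
    show ((supp (Tm A k0 n w j)).card : ℝ) ≤ 2 ^ (k0 + (j.2 : ℕ) + 1) * T ^ 4
    rw [hcard]
    apply mul_le_mul_of_nonneg_left _ (hL0 j).le
    exact (hsumle j).trans ((hw2 _).trans (pow_le_four hT1 (by norm_num)))
  · intro v
    have h1 : ∑ j ∈ supp (fun j => Tm A k0 n w j v), 1 / (2 : ℝ) ^ (k0 + (j.2 : ℕ) + 1) =
        ∑ j : W × Fin n, dl (k0 + j.2) |A j.1 v| := by
      rw [← Finset.sum_subset (Finset.subset_univ (supp (fun j => Tm A k0 n w j v)))]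
      · refine Finset.sum_congr rfl fun j hj => ?_
        rw [mem_supp, Tm_ne hw0] at hj
        exact ((dl_cases _ (abs_nonneg _)).resolve_left hj).symm
      · intro j _ hj
        rw [mem_supp, Tm_ne hw0, not_not] at hj
        exact hj
    rw [h1, Fintype.sum_prod_type]
    calc ∑ R, ∑ i : Fin n, dl (k0 + i) |A R v| = ∑ R, (tr (k0 + n) |A R v| - tr k0 |A R v|) :=
          Finset.sum_congr rfl fun R _ => sum_dl k0 n _
      _ ≤ ∑ R, |A R v| := by
          refine Finset.sum_le_sum fun R _ => ?_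
          have h2 := tr_le (k0 + n) (abs_nonneg (A R v))
          have h3 := tr_nonneg k0 |A R v|
          linarith
      _ ≤ T := hcol v
      _ ≤ T ^ 4 := by nlinarith [mul_pos hT0 hT0, sq_nonneg (T * T - 1)]
  · intro j
    show (∑ v, Tm A k0 n w j v ^ 2) * √((2 : ℝ) ^ (k0 + (j.2 : ℕ) + 1) * T) ≤
      Bm A T k0 n w j ^ 2
    rw [hsq]
    unfold Bm
    have h0 := hL0 j
    set L : ℝ := 2 ^ (k0 + (j.2 : ℕ) + 1) with hL
    set f := fm A k0 n w j with hf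
    have h1 : √(L * T) = L * √(T / L) := by
      have h2 : L * T = L ^ 2 * (T / L) := by field_simp
      rw [h2, Real.sqrt_mul (by positivity), Real.sqrt_sq h0.le]
    rw [h1]
    have h2 : f / L * (L * √(T / L)) = f * √(T / L) := by field_simp
    rw [h2]
    have h3 := hf0 j
    have h4 : 0 ≤ √(T / L) := Real.sqrt_nonneg _
    rw [← hf] at h3
    nlinarith [mul_nonneg h3 h4, sq_nonneg f, sq_nonneg (√(T / L))]
  · intro j
    rw [hsq, hcard]
    have h0 := hL0 j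
    have h1 := hf0 j
    have h2 : fm A k0 n w j / 2 ^ (k0 + (j.2 : ℕ) + 1) *
        (2 ^ (k0 + (j.2 : ℕ) + 1) * ∑ v, dl (k0 + j.2) |A j.1 v|) =
        fm A k0 n w j ^ 2 * w j.1 := by
      have h3 : ∑ v, dl (k0 + j.2) |A j.1 v| = fm A k0 n w j * w j.1 := by
        unfold fm
        rw [div_mul_cancel₀ _ (hw0 _).ne']
      rw [h3]
      field_simp
    rw [h2]
    have h3 : w j.1 ≤ T ^ 4 := (hw2 _).trans (pow_le_four hT1 (by norm_num))
    have h4 : fm A k0 n w j ^ 2 ≤ Bm A T k0 n w j ^ 2 := by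
      apply pow_le_pow_left₀ h1
      unfold Bm
      have := hg0 j
      linarith
    calc fm A k0 n w j ^ 2 * w j.1 ≤ Bm A T k0 n w j ^ 2 * T ^ 4 :=
          mul_le_mul h4 h3 (hw0 _).le (sq_nonneg _)
      _ = T ^ 4 * Bm A T k0 n w j ^ 2 := by ring

lemma geom (n : ℕ) : ∑ i : Fin n, √(1 / 2 ^ (i : ℕ)) ≤ 4 := by
  rw [Fin.sum_univ_eq_sum_range (fun i => √(1 / (2 : ℝ) ^ i)) n]
  have h0 : √(1 / 2 : ℝ) ≤ 3 / 4 := by
    rw [Real.sqrt_le_left (by norm_num)]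
    norm_num
  have h1 : ∀ i : ℕ, √(1 / (2 : ℝ) ^ i) ≤ (3 / 4) ^ i := by
    intro i
    have h2 : (1 : ℝ) / 2 ^ i = (1 / 2) ^ i := by rw [div_pow, one_pow]
    rw [h2, Real.sqrt_eq_rpow, ← Real.rpow_natCast, ← Real.rpow_mul (by norm_num), mul_comm,
      Real.rpow_mul (by norm_num), ← Real.sqrt_eq_rpow, Real.rpow_natCast]
    exact pow_le_pow_left₀ (Real.sqrt_nonneg _) h0 i
  have h2 : ∀ n : ℕ, ∑ i ∈ Finset.range n, (3 / 4 : ℝ) ^ i = 4 - 4 * (3 / 4) ^ n := by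
    intro n
    induction n with
    | zero => simp
    | succ n ih =>
      rw [Finset.sum_range_succ, ih, pow_succ]
      ring
  calc ∑ i ∈ Finset.range n, √(1 / (2 : ℝ) ^ i) ≤ ∑ i ∈ Finset.range n, (3 / 4 : ℝ) ^ i :=
        Finset.sum_le_sum fun i _ => h1 i
    _ = 4 - 4 * (3 / 4) ^ n := h2 n
    _ ≤ 4 := by
        have : (0 : ℝ) ≤ (3 / 4) ^ n := by positivity
        linarith

lemma sum_B {n : ℕ} (hT : 2 ≤ T) (hk2 : T < (2 : ℝ) ^ (k0 + 1))
    (hrow : ∀ R, ∑ v, |A R v| ≤ w R) (hw1 : ∀ R, T ≤ w R) (R : W) :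
    ∑ i : Fin n, Bm A T k0 n w (R, i) ≤ 5 := by
  have hT0 : 0 < T := by linarith
  have hw0 : 0 < w R := lt_of_lt_of_le hT0 (hw1 R)
  unfold Bm
  rw [Finset.sum_add_distrib]
  have h1 : ∑ i : Fin n, fm A k0 n w (R, i) ≤ 1 := by
    unfold fm
    show ∑ i : Fin n, (∑ v, dl (k0 + i) |A R v|) / w R ≤ 1
    rw [← Finset.sum_div, div_le_one hw0, Finset.sum_comm]
    refine le_trans ?_ (hrow R)
    refine Finset.sum_le_sum fun v _ => ?_
    rw [sum_dl]
    have h2 := tr_le (k0 + n) (abs_nonneg (A R v))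
    have h3 := tr_nonneg k0 |A R v|
    linarith
  have h2 : ∑ i : Fin n, √(T / 2 ^ (k0 + (i : ℕ) + 1)) ≤ 4 := by
    refine le_trans (Finset.sum_le_sum fun i _ => ?_) (geom n)
    apply Real.sqrt_le_sqrt
    rw [div_le_div_iff₀ (by positivity) (by positivity), one_mul]
    have h3 : (2 : ℝ) ^ (k0 + (i : ℕ) + 1) = 2 ^ (k0 + 1) * 2 ^ (i : ℕ) := by
      rw [← pow_add]
      congr 1
      omega
    rw [h3]
    exact mul_le_mul_of_nonneg_right hk2.le (by positivity)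
  have h3 : ∑ i : Fin n, √(T / 2 ^ (k0 + ((R, i).2 : ℕ) + 1)) ≤ 4 := h2
  linarith

/-- The decomposition of a row sum. -/
lemma decomp {n : ℕ} (hw0 : ∀ R, 0 < w R) (x : V → ℝ) (R : W) :
    ∑ v, A R v * x v = √(w R) * (∑ v, Am A k0 w R v * x v +
      ∑ i : Fin n, ∑ v, Tm A k0 n w (R, i) v * x v) +
      ∑ v, sg (A R v) * (|A R v| - tr (k0 + n) |A R v|) * x v := by
  have hs : √(w R) ≠ 0 := (Real.sqrt_pos.2 (hw0 R)).ne'
  rw [Finset.sum_comm, ← Finset.sum_add_distrib, Finset.mul_sum, ← Finset.sum_add_distrib]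
  refine Finset.sum_congr rfl fun v _ => ?_
  have h1 : ∑ i : Fin n, Tm A k0 n w (R, i) v * x v =
      sg (A R v) * (tr (k0 + n) |A R v| - tr k0 |A R v|) / √(w R) * x v := by
    rw [← sum_dl k0 n, ← Finset.sum_mul, Finset.mul_sum, Finset.sum_div]
    rfl
  rw [h1]
  unfold Am
  field_simp
  have h2 := sg_mul_abs (A R v)
  linear_combination (-x v) * h2

end

end

end REAL

open REAL in
theorem prove_REAL (h : St_MAIN2) : St_REAL := by
  obtain ⟨C, t0, hC, ht0, hmain⟩ := h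
  refine ⟨C + 26 + t0 ^ (5/2 : ℝ), by positivity, ?_⟩
  intro t k V W _ _ A ht hk hA1 hcol hrow
  set T := max t (k ^ (2/5 : ℝ)) with hTdef
  have hT1 : 1 ≤ T := ht.trans (le_max_left _ _)
  have hkT : k ≤ T ^ (5/2 : ℝ) := by
    have h1 : (k ^ (2/5 : ℝ)) ^ (5/2 : ℝ) ≤ T ^ (5/2 : ℝ) :=
      Real.rpow_le_rpow (by positivity) (le_max_right _ _) (by norm_num)
    rw [← Real.rpow_mul (by linarith)] at h1
    norm_num at h1
    exact h1
  have hrad : ∀ R, (1 : ℝ) ≤ t + (∑ v, |A R v|) + k ^ (2/5 : ℝ) := by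
    intro R
    have h1 : 0 ≤ ∑ v, |A R v| := Finset.sum_nonneg fun v _ => abs_nonneg _
    have h2 : 0 ≤ k ^ (2/5 : ℝ) := by positivity
    linarith
  have hsq1 : ∀ R, (1 : ℝ) ≤ √(t + (∑ v, |A R v|) + k ^ (2/5 : ℝ)) := fun R =>
    Real.one_le_sqrt.2 (hrad R)
  rcases lt_or_ge T t0 with hTt | hTt
  · refine ⟨fun _ => 1, fun _ => Or.inl rfl, fun R => ?_⟩
    have h1 : |∑ v, A R v * (1 : ℝ)| ≤ k := by
      refine (Finset.abs_sum_le_sum_abs _ _).trans ?_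
      simp only [mul_one]
      exact hrow R
    have h2 : T ^ (5/2 : ℝ) ≤ t0 ^ (5/2 : ℝ) :=
      Real.rpow_le_rpow (by linarith) hTt.le (by norm_num)
    have h3 : k ≤ C + 26 + t0 ^ (5/2 : ℝ) := by linarith
    calc |∑ v, A R v * (1 : ℝ)| ≤ k := h1
      _ ≤ C + 26 + t0 ^ (5/2 : ℝ) := h3
      _ ≤ (C + 26 + t0 ^ (5/2 : ℝ)) * √(t + (∑ v, |A R v|) + k ^ (2/5 : ℝ)) :=
          le_mul_of_one_le_right (by linarith) (hsq1 R)
  · have hT2 : 2 ≤ T := ht0.trans hTt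
    obtain ⟨k0, hk1, hk2⟩ := exists_nat_pow_near hT1 (by norm_num : (1 : ℝ) < 2)
    set w : W → ℝ := fun R => max T (∑ v, |A R v|) with hw
    have hw1 : ∀ R, T ≤ w R := fun R => le_max_left _ _
    have hw0 : ∀ R, 0 < w R := fun R => lt_of_lt_of_le (by linarith) (hw1 R)
    have hw2 : ∀ R, w R ≤ T ^ (5/2 : ℝ) := by
      intro R
      apply max_le
      · conv_lhs => rw [← Real.rpow_one T]
        exact Real.rpow_le_rpow_of_exponent_le hT1 (by norm_num)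
      · exact (hrow R).trans hkT
    have hrow' : ∀ R, ∑ v, |A R v| ≤ w R := fun R => le_max_right _ _
    have hcol' : ∀ v, ∑ R, |A R v| ≤ T := fun v => (hcol v).trans (le_max_left _ _)
    obtain ⟨n, hn⟩ : ∃ n : ℕ, (Fintype.card V : ℝ) < 2 ^ n :=
      pow_unbounded_of_one_lt _ (by norm_num)
    obtain ⟨x, hx, hx1, hx2⟩ := hmain T hTt V W (W × Fin n) (Am A k0 w) (Tm A k0 n w)
      (fun j => (2 : ℝ) ^ (k0 + (j.2 : ℕ) + 1)) (Bm A T k0 n w)
      (fun j => 1 / 2 ^ (k0 + (j.2 : ℕ) + 1) / √(w j.1))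
      (adm hT2 hk1 hA1 hcol' hrow' hw1 hw2) (ext hT2 hk2 hcol' hrow' hw1 hw2)
    refine ⟨x, hx, fun R => ?_⟩
    have hxabs : ∀ v, |x v| = 1 := by
      intro v
      rcases hx v with h1 | h1 <;> rw [h1] <;> simp
    have hrem : |∑ v, sg (A R v) * (|A R v| - tr (k0 + n) |A R v|) * x v| ≤ 1 := by
      refine (Finset.abs_sum_le_sum_abs _ _).trans ?_
      have h1 : ∀ v ∈ (Finset.univ : Finset V),
          |sg (A R v) * (|A R v| - tr (k0 + n) |A R v|) * x v| ≤ 1 / 2 ^ n := by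
        intro v _
        rw [abs_mul, abs_mul, abs_sg, hxabs, one_mul, mul_one, abs_of_nonneg
          (sub_nonneg.2 (tr_le _ (abs_nonneg _)))]
        refine (le_tr _ _).trans ?_
        apply one_div_le_one_div_of_le (by positivity)
        exact pow_le_pow_right₀ (by norm_num) (by omega)
      refine (Finset.sum_le_sum h1).trans ?_
      rw [Finset.sum_const, nsmul_eq_mul, Finset.card_univ, mul_one_div,
        div_le_one (by positivity)]
      exact hn.le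
    have hsumT : |∑ i : Fin n, ∑ v, Tm A k0 n w (R, i) v * x v| ≤ 25 := by
      refine (Finset.abs_sum_le_sum_abs _ _).trans ?_
      have h1 : ∑ i : Fin n, |∑ v, Tm A k0 n w (R, i) v * x v| ≤
          ∑ i : Fin n, 5 * Bm A T k0 n w (R, i) := Finset.sum_le_sum fun i _ => hx2 (R, i)
      refine h1.trans ?_
      rw [← Finset.mul_sum]
      have h2 := sum_B (n := n) hT2 hk2 hrow' hw1 R
      linarith
    have hws : √(w R) ≤ √(t + (∑ v, |A R v|) + k ^ (2/5 : ℝ)) := by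
      apply Real.sqrt_le_sqrt
      have h1 : 0 ≤ ∑ v, |A R v| := Finset.sum_nonneg fun v _ => abs_nonneg _
      have h2 : 0 ≤ k ^ (2/5 : ℝ) := by positivity
      apply max_le
      · apply max_le <;> linarith
      · linarith
    rw [decomp (k0 := k0) (n := n) hw0 x R]
    set P := ∑ v, Am A k0 w R v * x v
    set Q := ∑ i : Fin n, ∑ v, Tm A k0 n w (R, i) v * x v
    set E := ∑ v, sg (A R v) * (|A R v| - tr (k0 + n) |A R v|) * x v
    have hP : |P| ≤ C := hx1 R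
    calc |√(w R) * (P + Q) + E| ≤ |√(w R) * (P + Q)| + |E| := abs_add_le _ _
      _ = √(w R) * |P + Q| + |E| := by rw [abs_mul, abs_of_nonneg (Real.sqrt_nonneg _)]
      _ ≤ √(w R) * (C + 25) + 1 := by
          have h1 : |P + Q| ≤ C + 25 := (abs_add_le _ _).trans (by linarith)
          have h2 := mul_le_mul_of_nonneg_left h1 (Real.sqrt_nonneg (w R))
          linarith
      _ ≤ √(t + (∑ v, |A R v|) + k ^ (2/5 : ℝ)) * (C + 25) +
          √(t + (∑ v, |A R v|) + k ^ (2/5 : ℝ)) := by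
          have h1 := mul_le_mul_of_nonneg_right hws (by linarith : 0 ≤ C + 25)
          have h2 := hsq1 R
          linarith
      _ ≤ (C + 26 + t0 ^ (5/2 : ℝ)) * √(t + (∑ v, |A R v|) + k ^ (2/5 : ℝ)) := by
          have h1 : 0 ≤ t0 ^ (5/2 : ℝ) * √(t + (∑ v, |A R v|) + k ^ (2/5 : ℝ)) := by
            have : 0 ≤ t0 ^ (5/2 : ℝ) := by positivity
            positivity
          linarith

end Pool.Agent.R959.LD2
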