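import Pool.Agent.R959.LD2.Defs
import Pool.Agent.H320R2.LD.ROUND

set_option autoImplicit false

open MeasureTheory ProbabilityTheory

namespace Pool.Agent.R959.LD2

open Pool.Agent.H320R2.LD
open Pool.Agent.H320R2.LD.ROUND

noncomputable section

namespace RD2

section
variable {V : Type} [Fintype V]

/-- two sided tail bound -/
lemma two_tail (a c : V → ℝ) (ha : ∀ v, |a v| ≤ 1) (lam s : ℝ) (hl : 0 < lam)
    (hc : ∀ v, |lam * c v| ≤ 1 / 2) :
    (Measure.pi fun v => nu (a v)).real {x | s < |∑ v, c v * (sg (x v) - a v)|}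
      ≤ 2 * Real.exp (∑ v, 2 * (lam * c v) ^ 2 * (1 - |a v|) - lam * s) := by
  have : ∀ v, IsProbabilityMeasure (nu (a v)) := fun v => nu_prob _ (ha v)
  have h1 := tail a c ha lam s hl hc
  have h2 := tail a (fun v => - c v) ha lam s hl (fun v => by
    rw [mul_neg, abs_neg]; exact hc v)
  have e2 : ∑ v, 2 * (lam * (- c v)) ^ 2 * (1 - |a v|)
      = ∑ v, 2 * (lam * c v) ^ 2 * (1 - |a v|) := by
    refine Finset.sum_congr rfl fun v _ => ?_
    ring
  rw [e2] at h2
  have hsub : {x : V → ℝ | s < |∑ v, c v * (sg (x v) - a v)|}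
      ⊆ {x | s < ∑ v, c v * (sg (x v) - a v)} ∪ {x | s < ∑ v, (- c v) * (sg (x v) - a v)} := by
    intro x hx
    have hx' : s < |∑ v, c v * (sg (x v) - a v)| := hx
    rcases lt_abs.mp hx' with h | h
    · left
      exact h
    · right
      show s < ∑ v, (- c v) * (sg (x v) - a v)
      have : ∑ v, (- c v) * (sg (x v) - a v) = -∑ v, c v * (sg (x v) - a v) := by
        rw [← Finset.sum_neg_distrib]; exact Finset.sum_congr rfl fun v _ => by ring
      rw [this]; exact h
  calc (Measure.pi fun v => nu (a v)).real {x | s < |∑ v, c v * (sg (x v) - a v)|}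
      ≤ (Measure.pi fun v => nu (a v)).real ({x | s < ∑ v, c v * (sg (x v) - a v)}
        ∪ {x | s < ∑ v, (- c v) * (sg (x v) - a v)}) :=
        measureReal_mono hsub (measure_ne_top _ _)
    _ ≤ _ := measureReal_union_le _ _
    _ ≤ _ := by linarith

lemma ev_meas (a c : V → ℝ) (s : ℝ) :
    MeasurableSet {x : V → ℝ | s < |∑ v, c v * (sg (x v) - a v)|} :=
  measurableSet_lt measurable_const ((meas_sum a c).abs)

lemma ev_dep (a c : V → ℝ) (s : ℝ) (x y : V → ℝ) (h : ∀ v ∈ supp c, x v = y v)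
    (hx : x ∈ {x : V → ℝ | s < |∑ v, c v * (sg (x v) - a v)|}) :
    y ∈ {x : V → ℝ | s < |∑ v, c v * (sg (x v) - a v)|} := by
  have hx' : s < |∑ v, c v * (sg (x v) - a v)| := hx
  show s < |∑ v, c v * (sg (y v) - a v)|
  have : ∑ v, c v * (sg (y v) - a v) = ∑ v, c v * (sg (x v) - a v) := by
    refine Finset.sum_congr rfl fun v _ => ?_
    by_cases h0 : c v = 0
    · rw [h0]; ring
    · rw [h v ((mem_supp c v).mpr h0)]
  rw [this]; exact hx'

/-- neighbour sums -/
lemma nbr_sum {K : Type} [Fintype K] [DecidableEq V] (S : K → Finset V) (P : Finset V)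
    (f : K → ℝ) (hf : ∀ k, 0 ≤ f k) (Γ : ℝ)
    (h : ∀ v, ∑ k, (if v ∈ S k then f k else 0) ≤ Γ) :
    ∑ k ∈ Finset.univ.filter (fun k => ¬ Disjoint P (S k)), f k ≤ P.card * Γ := by
  have h1 : ∀ k ∈ Finset.univ.filter (fun k => ¬ Disjoint P (S k)),
      f k ≤ ∑ v ∈ P, (if v ∈ S k then f k else 0) := by
    intro k hk
    rw [Finset.mem_filter] at hk
    obtain ⟨v, hv1, hv2⟩ := Finset.not_disjoint_iff.mp hk.2
    have h2 : (if v ∈ S k then f k else 0) ≤ ∑ v ∈ P, (if v ∈ S k then f k else 0) :=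
      Finset.single_le_sum (f := fun v => if v ∈ S k then f k else 0)
        (fun u _ => by
          show 0 ≤ (if u ∈ S k then f k else 0)
          split_ifs
          · exact hf k
          · exact le_rfl) hv1
    rw [if_pos hv2] at h2
    exact h2
  calc ∑ k ∈ Finset.univ.filter (fun k => ¬ Disjoint P (S k)), f k
      ≤ ∑ k ∈ Finset.univ.filter (fun k => ¬ Disjoint P (S k)),
          ∑ v ∈ P, (if v ∈ S k then f k else 0) := Finset.sum_le_sum h1
    _ ≤ ∑ k, ∑ v ∈ P, (if v ∈ S k then f k else 0) := by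
        apply Finset.sum_le_sum_of_subset_of_nonneg (Finset.filter_subset _ _)
        intro k _ _
        apply Finset.sum_nonneg
        intro v _
        split_ifs
        · exact hf k
        · exact le_rfl
    _ = ∑ v ∈ P, ∑ k, (if v ∈ S k then f k else 0) := Finset.sum_comm
    _ ≤ ∑ _v ∈ P, Γ := Finset.sum_le_sum fun v _ => h v
    _ = P.card * Γ := by rw [Finset.sum_const, nsmul_eq_mul]

lemma sq_sum_supp (f : V → ℝ) (τ : ℝ) (h : ∀ v, f v ≠ 0 → |f v| = τ) :
    ∑ v, f v ^ 2 = ((supp f).card : ℝ) * τ ^ 2 := by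
  have h1 : ∑ v, f v ^ 2 = ∑ v ∈ supp f, f v ^ 2 := by
    symm
    apply Finset.sum_subset (Finset.subset_univ _)
    intro v _ hv
    have : f v = 0 := by
      by_contra h0
      exact hv ((mem_supp f v).mpr h0)
    rw [this]; norm_num
  rw [h1]
  have h2 : ∀ v ∈ supp f, f v ^ 2 = τ ^ 2 := by
    intro v hv
    rw [← sq_abs, h v ((mem_supp f v).mp hv)]
  rw [Finset.sum_congr rfl h2, Finset.sum_const, nsmul_eq_mul]

lemma abs_sum_supp (f : V → ℝ) (τ : ℝ) (h : ∀ v, f v ≠ 0 → |f v| = τ) :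
    ∑ v, |f v| = ((supp f).card : ℝ) * τ := by
  have h1 : ∑ v, |f v| = ∑ v ∈ supp f, |f v| := by
    symm
    apply Finset.sum_subset (Finset.subset_univ _)
    intro v _ hv
    have : f v = 0 := by
      by_contra h0
      exact hv ((mem_supp f v).mpr h0)
    rw [this]; simp
  rw [h1]
  have h2 : ∀ v ∈ supp f, |f v| = τ := by
    intro v hv
    rw [h v ((mem_supp f v).mp hv)]
  rw [Finset.sum_congr rfl h2, Finset.sum_const, nsmul_eq_mul]

/-- trivial bound for the deviation -/
lemma triv (a c : V → ℝ) (ha : ∀ v, |a v| ≤ 1) (x : V → ℝ) :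
    |∑ v, c v * (sg (x v) - a v)| ≤ 2 * ∑ v, |c v| := by
  calc |∑ v, c v * (sg (x v) - a v)| ≤ ∑ v, |c v * (sg (x v) - a v)| :=
        Finset.abs_sum_le_sum_abs _ _
    _ ≤ ∑ v, 2 * |c v| := by
        apply Finset.sum_le_sum
        intro v _
        rw [abs_mul]
        have h1 : |sg (x v) - a v| ≤ 2 := by
          calc |sg (x v) - a v| ≤ |sg (x v)| + |a v| := abs_sub _ _
            _ ≤ 2 := by linarith [sg_abs (x v), ha v]
        nlinarith [abs_nonneg (c v)]
    _ = 2 * ∑ v, |c v| := by rw [Finset.mul_sum]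

/-- probability bound for a row with entries of constant absolute value -/
lemma ext_prob (a c : V → ℝ) (ha : ∀ v, |a v| ≤ 1) (τ b w : ℝ) (hτ : 0 < τ) (hb : 0 < b)
    (hc : ∀ v, c v ≠ 0 → |c v| = τ) (hw : (∑ v, c v ^ 2) * (32 * w) ≤ b ^ 2) :
    (Measure.pi fun v => nu (a v)).real {x | b < |∑ v, c v * (sg (x v) - a v)|}
      ≤ 2 * Real.exp (- (4 * w)) := by
  have : ∀ v, IsProbabilityMeasure (nu (a v)) := fun v => nu_prob _ (ha v)
  by_cases hbig : 2 * (((supp c).card : ℝ) * τ) < b
  · have he : {x : V → ℝ | b < |∑ v, c v * (sg (x v) - a v)|} = ∅ := by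
      rw [Set.eq_empty_iff_forall_notMem]
      intro x hx
      have hx' : b < |∑ v, c v * (sg (x v) - a v)| := hx
      have h1 := triv a c ha x
      rw [abs_sum_supp c τ hc] at h1
      linarith
    rw [he, measureReal_empty]
    positivity
  · rw [not_lt] at hbig
    have hN : 0 < ((supp c).card : ℝ) := by
      by_contra h0
      have h1 : ((supp c).card : ℝ) = 0 := le_antisymm (not_lt.mp h0) (Nat.cast_nonneg _)
      rw [h1] at hbig
      linarith
    set N : ℝ := ((supp c).card : ℝ) with hNdef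
    have hs := sq_sum_supp c τ hc
    rw [← hNdef] at hs
    set σ2 : ℝ := ∑ v, c v ^ 2 with hσ
    have hσ0 : 0 < σ2 := by rw [hs]; positivity
    set lam : ℝ := b / (4 * σ2) with hlam
    have hl0 : 0 < lam := by positivity
    have hlb : lam * τ ≤ 1 / 2 := by
      rw [hlam, hs, div_mul_eq_mul_div, div_le_iff₀ (by positivity)]
      nlinarith
    refine (two_tail a c ha lam b hl0 ?_).trans ?_
    · intro v
      by_cases h0 : c v = 0
      · rw [h0]; norm_num
      · rw [abs_mul, abs_of_pos hl0, hc v h0]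
        exact hlb
    · have h1 : ∑ v, 2 * (lam * c v) ^ 2 * (1 - |a v|) ≤ 2 * lam ^ 2 * σ2 := by
        rw [hσ, Finset.mul_sum]
        apply Finset.sum_le_sum
        intro v _
        have h2 : 0 ≤ |a v| := abs_nonneg _
        have h3 : 0 ≤ 2 * (lam * c v) ^ 2 := by positivity
        nlinarith
      have h2 : 2 * lam ^ 2 * σ2 - lam * b = - (b ^ 2 / (8 * σ2)) := by
        rw [hlam]
        field_simp
        ring
      have h3 : 4 * w ≤ b ^ 2 / (8 * σ2) := by
        rw [le_div_iff₀ (by positivity)]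
        nlinarith
      have h4 : Real.exp (∑ v, 2 * (lam * c v) ^ 2 * (1 - |a v|) - lam * b)
          ≤ Real.exp (- (4 * w)) := by
        apply Real.exp_le_exp.mpr
        linarith
      linarith

end

/-- numerical constants -/
lemma num : ∃ t0 : ℝ, 4096 ≤ t0 ∧ ∀ y : ℝ, t0 ≤ y → y ^ 20 * Real.exp (-(y / 32)) ≤ 1 := by
  have h := Real.tendsto_pow_mul_exp_neg_atTop_nhds_zero 20
  have h1 : ∀ᶠ x : ℝ in Filter.atTop, x ^ 20 * Real.exp (-x) < 1 / 32 ^ 20 :=
    h.eventually_lt_const (by positivity)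
  obtain ⟨x0, hx0⟩ := Filter.eventually_atTop.mp h1
  refine ⟨max 4096 (32 * x0), le_max_left _ _, ?_⟩
  intro y hy
  have hy1 : x0 ≤ y / 32 := by
    have := (le_max_right _ _).trans hy
    rw [le_div_iff₀ (by norm_num)]
    linarith
  have h2 := hx0 (y / 32) hy1
  rw [div_pow, div_mul_eq_mul_div, div_lt_div_iff_of_pos_right (by positivity)] at h2
  exact h2.le

lemma two_exp (w : ℝ) (hw : 1 ≤ w) (u : ℝ) : 2 * Real.exp (-(u + 2 * w)) ≤ Real.exp (-u) := by
  have h1 : Real.exp (-(u + 2 * w)) = Real.exp (-u) * Real.exp (-(2 * w)) := by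
    rw [← Real.exp_add]; ring_nf
  have h2 : Real.exp (-(2 * w)) ≤ 1 / 3 := by
    rw [Real.exp_neg, inv_le_comm₀ (Real.exp_pos _) (by norm_num)]
    have := Real.add_one_le_exp (2 * w)
    norm_num
    linarith
  rw [h1]
  have h3 := Real.exp_pos (-u)
  nlinarith

end RD2

open RD2 in
theorem prove_ROUND2 (hL : St_WLLL) : St_ROUND2 := by
  classical
  obtain ⟨t0, ht0, hnum⟩ := num
  refine ⟨t0, by linarith, ?_⟩
  intro t ht V W J _ _ _ A T L B τ a hA hT ha hsum
  obtain ⟨hA1, hA2, hA3, -, hA5, hA6⟩ := hA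
  obtain ⟨hT1, hT2, hT3, hT4, hT5, hT6, hT7, hT8⟩ := hT
  have ht4096 : 4096 ≤ t := ht0.trans ht
  have htp : 0 < t := by linarith
  have ht1 : 1 ≤ t := by linarith
  set lam := Real.log t with hlam
  have hlam1 : 1 ≤ lam := by
    rw [hlam, Real.le_log_iff_exp_le htp]
    have := Real.exp_one_lt_d9
    linarith
  have hlam0 : 0 < lam := by linarith
  have hprob : ∀ v, IsProbabilityMeasure (nu (a v)) := fun v => nu_prob _ (ha v)
  have hlb := log_bound t ht4096
  have hsm : ∀ R v, |lam * A R v| ≤ 1 / 2 := by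
    intro R v
    have h1 := hA1 R v
    have h2 : |A R v| * Real.sqrt t ≤ 1 := by
      have : (|A R v| * Real.sqrt t) ^ 2 ≤ 1 := by
        rw [mul_pow, sq_abs, Real.sq_sqrt htp.le]; exact h1
      exact (sq_le_one_iff₀ (by positivity)).mp this
    rw [abs_mul, abs_of_pos hlam0]
    have h3 : |A R v| * (2 * lam) ≤ 1 := le_trans (mul_le_mul_of_nonneg_left hlb (abs_nonneg _)) h2
    linarith
  set N : J → ℝ := fun j => ((supp (T j)).card : ℝ) with hN
  have hN0 : ∀ j, 0 ≤ N j := fun j => Nat.cast_nonneg _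
  set wx : J → ℝ := fun j => max (Real.sqrt (L j * t)) (N j / t ^ 4) / 32 with hwxdef
  have hy : ∀ j, t ≤ Real.sqrt (L j * t) := by
    intro j
    apply Real.le_sqrt_of_sq_le
    nlinarith [hT1 j]
  have hwx1 : ∀ j, Real.sqrt (L j * t) / 32 ≤ wx j := by
    intro j
    have := le_max_left (Real.sqrt (L j * t)) (N j / t ^ 4)
    simp only [hwxdef]
    linarith
  have hwx2 : ∀ j, N j / t ^ 4 / 32 ≤ wx j := by
    intro j
    have := le_max_right (Real.sqrt (L j * t)) (N j / t ^ 4)
    simp only [hwxdef]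
    linarith
  have hwx3 : ∀ j, 1 ≤ wx j := by
    intro j
    have h1 := hwx1 j
    have h2 := hy j
    linarith
  have hexp : Real.exp (-(18 * lam)) = (t ^ 18)⁻¹ := by
    rw [Real.exp_neg, hlam, show 18 * Real.log t = ((18 : ℕ) : ℝ) * Real.log t by norm_num,
      ← Real.log_pow, Real.exp_log (by positivity)]
  have hwe : ∀ j, Real.exp (-(wx j)) ≤ (t ^ 18)⁻¹ * (1 / L j) := by
    intro j
    set y := Real.sqrt (L j * t) with hyd
    have hLp : 0 < L j := lt_of_lt_of_le htp (hT1 j)
    have hty : t ≤ y := hy j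
    have hyp : 0 < y := lt_of_lt_of_le htp hty
    have h1 := hnum y (ht.trans hty)
    have h2 : Real.exp (-(wx j)) ≤ Real.exp (-(y / 32)) :=
      Real.exp_le_exp.mpr (neg_le_neg (hwx1 j))
    have h3 : Real.exp (-(y / 32)) ≤ 1 / y ^ 20 := by
      rw [le_div_iff₀ (by positivity)]
      linarith
    have h4 : y ^ 2 = L j * t := Real.sq_sqrt (by positivity)
    have h5 : L j * t ^ 18 ≤ y ^ 20 := by
      have h6 : t ^ 18 ≤ y ^ 18 := pow_le_pow_left₀ htp.le hty 18
      have h7 : L j ≤ y ^ 2 := by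
        rw [h4]
        nlinarith
      calc L j * t ^ 18 ≤ y ^ 2 * y ^ 18 := mul_le_mul h7 h6 (by positivity) (by positivity)
        _ = y ^ 20 := by ring
    have h8 : 1 / y ^ 20 ≤ (t ^ 18)⁻¹ * (1 / L j) := by
      have : (t ^ 18)⁻¹ * (1 / L j) = 1 / (L j * t ^ 18) := by
        field_simp
      rw [this]
      exact one_div_le_one_div_of_le (by positivity) h5
    linarith
  let S : W ⊕ J → Finset V := Sum.elim (fun R => supp (A R)) (fun j => supp (T j))
  let E : W ⊕ J → Set (V → ℝ) :=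
    Sum.elim (fun R => {x | 40 < |∑ v, A R v * (sg (x v) - a v)|})
      (fun j => {x | B j < |∑ v, T j v * (sg (x v) - a v)|})
  let w : W ⊕ J → ℝ := Sum.elim (fun _ => 18 * lam) wx
  have hΓ : ∀ v, ∑ k, (if v ∈ S k then Real.exp (-(w k)) else 0) ≤ 2 * t ^ 4 * (t ^ 18)⁻¹ := by
    intro v
    rw [Fintype.sum_sum_type]
    have h1 : ∑ R : W, (if v ∈ S (Sum.inl R) then Real.exp (-(w (Sum.inl R))) else 0)
        ≤ t ^ 4 * (t ^ 18)⁻¹ := by
      have e1 : ∑ R : W, (if v ∈ S (Sum.inl R) then Real.exp (-(w (Sum.inl R))) else 0)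
          = ∑ R ∈ supp (fun R => A R v), (t ^ 18)⁻¹ := by
        rw [← Finset.sum_filter]
        have e2 : Finset.univ.filter (fun R : W => v ∈ S (Sum.inl R)) = supp (fun R => A R v) := by
          ext R
          rw [Finset.mem_filter, mem_supp]
          show (R ∈ Finset.univ ∧ v ∈ supp (A R)) ↔ _
          rw [mem_supp]
          simp
        rw [e2]
        refine Finset.sum_congr rfl fun R _ => ?_
        exact hexp
      rw [e1, Finset.sum_const, nsmul_eq_mul]
      exact mul_le_mul_of_nonneg_right (hA6 v) (by positivity)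
    have h2 : ∑ j : J, (if v ∈ S (Sum.inr j) then Real.exp (-(w (Sum.inr j))) else 0)
        ≤ t ^ 4 * (t ^ 18)⁻¹ := by
      have e1 : ∑ j : J, (if v ∈ S (Sum.inr j) then Real.exp (-(w (Sum.inr j))) else 0)
          = ∑ j ∈ supp (fun j => T j v), Real.exp (-(wx j)) := by
        rw [← Finset.sum_filter]
        have e2 : Finset.univ.filter (fun j : J => v ∈ S (Sum.inr j)) = supp (fun j => T j v) := by
          ext j
          rw [Finset.mem_filter, mem_supp]
          show (j ∈ Finset.univ ∧ v ∈ supp (T j)) ↔ _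
          rw [mem_supp]
          simp
        rw [e2]
        refine Finset.sum_congr rfl fun R _ => rfl
      rw [e1]
      calc ∑ j ∈ supp (fun j => T j v), Real.exp (-(wx j))
          ≤ ∑ j ∈ supp (fun j => T j v), (t ^ 18)⁻¹ * (1 / L j) :=
            Finset.sum_le_sum fun j _ => hwe j
        _ = (t ^ 18)⁻¹ * ∑ j ∈ supp (fun j => T j v), 1 / L j := by rw [Finset.mul_sum]
        _ ≤ (t ^ 18)⁻¹ * t ^ 4 := mul_le_mul_of_nonneg_left (hT6 v) (by positivity)
        _ = t ^ 4 * (t ^ 18)⁻¹ := mul_comm _ _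
    linarith
  have ht10 : (128 : ℝ) ≤ t ^ 10 := by
    calc (128 : ℝ) ≤ t := by linarith
      _ ≤ t ^ 10 := le_self_pow₀ ht1 (by norm_num)
  obtain ⟨x, hx⟩ := hL V (W ⊕ J) (fun v => nu (a v)) E S (by
      rintro (R | j)
      · exact ev_meas a (A R) 40
      · exact ev_meas a (T j) (B j))
    (by
      rintro (R | j) x y hxy hx
      · exact ev_dep a (A R) 40 x y hxy hx
      · exact ev_dep a (T j) (B j) x y hxy hx)
    w (by
      rintro (R | j)
      · show 1 ≤ 18 * lam
        linarith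
      · exact hwx3 j)
    (by
      rintro (R | j)
      · show (Measure.pi fun v => nu (a v)).real {x | 40 < |∑ v, A R v * (sg (x v) - a v)|}
          ≤ Real.exp (-(2 * (18 * lam)))
        have h1 := two_tail a (A R) ha lam 40 hlam0 (hsm R)
        have h2 : ∑ v, 2 * (lam * A R v) ^ 2 * (1 - |a v|) ≤ 2 * lam := by
          have e1 : ∑ v, 2 * (lam * A R v) ^ 2 * (1 - |a v|)
              = 2 * lam ^ 2 * ∑ v, A R v ^ 2 * (1 - |a v|) := by
            rw [Finset.mul_sum]
            exact Finset.sum_congr rfl fun v _ => by ring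
          rw [e1]
          have h3 : 2 * lam ^ 2 * ∑ v, A R v ^ 2 * (1 - |a v|) ≤ 2 * lam ^ 2 * (1 / lam) :=
            mul_le_mul_of_nonneg_left (hsum R) (by positivity)
          have h4 : 2 * lam ^ 2 * (1 / lam) = 2 * lam := by field_simp
          linarith
        have h3 : Real.exp (∑ v, 2 * (lam * A R v) ^ 2 * (1 - |a v|) - lam * 40)
            ≤ Real.exp (-(2 * (18 * lam) + 2 * lam)) := by
          apply Real.exp_le_exp.mpr
          linarith
        have h4 := two_exp lam hlam1 (2 * (18 * lam))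
        linarith
      · show (Measure.pi fun v => nu (a v)).real {x | B j < |∑ v, T j v * (sg (x v) - a v)|}
          ≤ Real.exp (-(2 * wx j))
        have h1 := ext_prob a (T j) ha (τ j) (B j) (wx j) (hT3 j) (hT2 j) (hT4 j) (by
          have e1 : 32 * wx j = max (Real.sqrt (L j * t)) (N j / t ^ 4) := by
            simp only [hwxdef]; ring
          rw [e1]
          rcases max_choice (Real.sqrt (L j * t)) (N j / t ^ 4) with h | h
          · rw [h]; exact hT7 j
          · rw [h, ← mul_div_assoc, div_le_iff₀ (by positivity)]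
            have := hT8 j
            linarith)
        have h4 := two_exp (wx j) (hwx3 j) (2 * wx j)
        have h5 : -(4 * wx j) = -(2 * wx j + 2 * wx j) := by ring
        rw [h5] at h1
        linarith)
    (by
      intro i
      have h0 := nbr_sum S (S i) (fun k => Real.exp (-(w k))) (fun k => (Real.exp_pos _).le) _ hΓ
      have h1 : ((S i).card : ℝ) * (2 * t ^ 4 * (t ^ 18)⁻¹) ≤ w i / 2 := by
        rcases i with R | j
        · show ((supp (A R)).card : ℝ) * (2 * t ^ 4 * (t ^ 18)⁻¹) ≤ 18 * lam / 2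
          have h2 : ((supp (A R)).card : ℝ) * (2 * t ^ 4 * (t ^ 18)⁻¹)
              ≤ t ^ 4 * (2 * t ^ 4 * (t ^ 18)⁻¹) :=
            mul_le_mul_of_nonneg_right (hA5 R) (by positivity)
          have h3 : t ^ 4 * (2 * t ^ 4 * (t ^ 18)⁻¹) = 2 / t ^ 10 := by
            field_simp
          have h4 : 2 / t ^ 10 ≤ 9 := by
            rw [div_le_iff₀ (by positivity)]
            linarith
          linarith
        · show N j * (2 * t ^ 4 * (t ^ 18)⁻¹) ≤ wx j / 2
          have h2 := hwx2 j
          have h3 : N j * (2 * t ^ 4 * (t ^ 18)⁻¹) = N j / t ^ 4 * (2 / t ^ 10) := by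
            field_simp
          have h4 : 2 / t ^ 10 ≤ 1 / 64 := by
            rw [div_le_div_iff₀ (by positivity) (by norm_num)]
            linarith
          have h5 : 0 ≤ N j / t ^ 4 := div_nonneg (hN0 j) (by positivity)
          rw [h3]
          nlinarith
      refine le_trans (le_of_eq ?_) (h0.trans h1)
      refine Finset.sum_congr ?_ fun _ _ => rfl
      ext k
      simp)
  refine ⟨fun v => sg (x v), fun v => sg_pm _, fun R => ?_, fun j => ?_⟩
  · exact not_lt.mp (hx (Sum.inl R))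
  · exact not_lt.mp (hx (Sum.inr j))

end

end Pool.Agent.R959.LD2
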