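import Pool.Agent.R959.LD2.Defs
import Pool.Agent.H320R2.LD.LLL

set_option autoImplicit false

/-!
# Task WLLL: weighted local lemma on a product space
-/

open MeasureTheory ProbabilityTheory

namespace Pool.Agent.R959.LD2

open Pool.Agent.H320R2.LD

namespace WLLL

open Pool.Agent.H320R2.LD.LLL

theorem exp_bound {x : ℝ} (h0 : 0 ≤ x) (h1 : x ≤ 1 / 2) : Real.exp (-(2 * x)) ≤ 1 - x := by
  have h2 := Real.add_one_le_exp (2 * x)
  have h3 : 0 < Real.exp (2 * x) := Real.exp_pos _
  rw [Real.exp_neg, inv_le_comm₀ h3 (by linarith)]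
  have h4 : (1 - x)⁻¹ ≤ 2 * x + 1 := by
    rw [inv_le_comm₀ (by linarith) (by linarith), inv_le_iff_one_le_mul₀ (by linarith)]
    nlinarith
  linarith

theorem x_le {y : ℝ} (h : 1 ≤ y) : Real.exp (-y) ≤ 1 / 2 := by
  have h2 := Real.add_one_le_exp y
  rw [Real.exp_neg, inv_le_comm₀ (Real.exp_pos _) (by norm_num)]
  norm_num
  linarith

open Classical in
theorem insert_bound {V J : Type} [Fintype V] (μ : Measure (V → ℝ)) [IsProbabilityMeasure μ]
    (E : J → Set (V → ℝ)) (Z : Finset J) (j : J) (x : ℝ) (h0 : 0 ≤ x) (h1 : x ≤ 1 / 2)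
    (h : μ.real (E j ∩ Av E Z) ≤ x * μ.real (Av E Z)) :
    Real.exp (-(2 * x)) * μ.real (Av E Z) ≤ μ.real (Av E (insert j Z)) := by
  have hsub : Av E Z ⊆ Av E (insert j Z) ∪ (E j ∩ Av E Z) := by
    intro y hy
    by_cases hyj : y ∈ E j
    · exact Or.inr ⟨hyj, hy⟩
    · left
      intro i hi
      rw [Finset.mem_insert] at hi
      rcases hi with rfl | hi
      · exact hyj
      · exact hy i hi
  have h2 : μ.real (Av E Z) ≤ μ.real (Av E (insert j Z)) + μ.real (E j ∩ Av E Z) :=
    (measureReal_mono hsub).trans (measureReal_union_le _ _)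
  have h3 : 0 ≤ μ.real (Av E Z) := measureReal_nonneg
  have h4 := mul_le_mul_of_nonneg_right (exp_bound h0 h1) h3
  linarith

open Classical in
theorem key (hmix : St_MIX) {V J : Type} [Fintype V] [Fintype J] (ν : V → Measure ℝ)
    [∀ v, IsProbabilityMeasure (ν v)] (E : J → Set (V → ℝ)) (S : J → Finset V)
    (hE : ∀ i, MeasurableSet (E i)) (hdep : ∀ i, Dep (E i) (S i))
    (w : J → ℝ) (hw : ∀ i, 1 ≤ w i)
    (hp1 : ∀ i, (Measure.pi ν).real (E i) ≤ Real.exp (-(2 * w i)))
    (hN : ∀ i, ∑ j ∈ Finset.univ.filter (fun j => ¬ Disjoint (S i) (S j)), Real.exp (-(w j))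
      ≤ w i / 2) (n : ℕ) :
    ∀ X : Finset J, X.card = n → ∀ i,
      (Measure.pi ν).real (E i ∩ Av E X) ≤ Real.exp (-(w i)) * (Measure.pi ν).real (Av E X) := by
  induction n using Nat.strong_induction_on with
  | _ n ih =>
    intro X hX i
    set μ := Measure.pi ν with hμ
    set X1 := X.filter (fun j => ¬ Disjoint (S i) (S j)) with hX1
    set X2 := X.filter (fun j => Disjoint (S i) (S j)) with hX2
    have hX2X : X2 ⊆ X := Finset.filter_subset _ _
    have hnn : ∀ Z, 0 ≤ μ.real (Av E Z) := fun Z => measureReal_nonneg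
    have h1 : μ.real (E i ∩ Av E X) ≤ Real.exp (-(2 * w i)) * μ.real (Av E X2) := by
      calc μ.real (E i ∩ Av E X) ≤ μ.real (E i ∩ Av E X2) :=
            measureReal_mono (Set.inter_subset_inter_right _ (Av_anti hX2X))
        _ = μ.real (E i) * μ.real (Av E X2) := by
            refine indep hmix ν (hE i) (Av_meas hE X2) (hdep i) (Av_dep hdep X2) ?_
            rw [Finset.disjoint_biUnion_right]
            intro j hj
            exact (Finset.mem_filter.1 hj).2
        _ ≤ Real.exp (-(2 * w i)) * μ.real (Av E X2) :=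
            mul_le_mul_of_nonneg_right (hp1 i) measureReal_nonneg
    have h2 : ∀ Y : Finset J, Y ⊆ X1 →
        Real.exp (-(2 * ∑ j ∈ Y, Real.exp (-(w j)))) * μ.real (Av E X2) ≤
          μ.real (Av E (X2 ∪ Y)) := by
      intro Y
      induction Y using Finset.induction_on with
      | empty =>
        intro _
        simp
      | insert j Y hj ihY =>
        intro hsub
        have hjX1 : j ∈ X1 := hsub (Finset.mem_insert_self _ _)
        have hYX1 : Y ⊆ X1 := fun a ha => hsub (Finset.mem_insert_of_mem ha)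
        have h3 := ihY hYX1
        have hjX : j ∈ X := (Finset.mem_filter.1 hjX1).1
        have hjX2 : j ∉ X2 := fun h => (Finset.mem_filter.1 hjX1).2 (Finset.mem_filter.1 h).2
        have hlt : (X2 ∪ Y).card < n := by
          rw [← hX]
          refine Finset.card_lt_card ((Finset.ssubset_iff_of_subset ?_).2 ⟨j, hjX, ?_⟩)
          · exact Finset.union_subset hX2X (hYX1.trans (Finset.filter_subset _ _))
          · rw [Finset.mem_union, not_or]
            exact ⟨hjX2, hj⟩
        have h4 := insert_bound μ E (X2 ∪ Y) j (Real.exp (-(w j))) (Real.exp_pos _).le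
          (x_le (hw j)) (ih _ hlt _ rfl j)
        rw [Finset.union_insert, Finset.sum_insert hj]
        have h5 : Real.exp (-(2 * (Real.exp (-(w j)) + ∑ j ∈ Y, Real.exp (-(w j))))) =
            Real.exp (-(2 * Real.exp (-(w j)))) *
              Real.exp (-(2 * ∑ j ∈ Y, Real.exp (-(w j)))) := by
          rw [← Real.exp_add]
          congr 1
          ring
        rw [h5, mul_assoc]
        exact (mul_le_mul_of_nonneg_left h3 (Real.exp_pos _).le).trans h4
    have h3 := h2 X1 le_rfl
    have hun : X2 ∪ X1 = X := by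
      rw [hX1, hX2]
      exact Finset.filter_union_filter_not_eq _ _
    rw [hun] at h3
    have h4 : ∑ j ∈ X1, Real.exp (-(w j)) ≤ w i / 2 := by
      refine le_trans (Finset.sum_le_sum_of_subset_of_nonneg ?_ fun j _ _ => (Real.exp_pos _).le)
        (hN i)
      intro j hj
      rw [Finset.mem_filter]
      exact ⟨Finset.mem_univ _, (Finset.mem_filter.1 hj).2⟩
    have h5 : Real.exp (-(w i)) * μ.real (Av E X2) ≤ μ.real (Av E X) := by
      refine le_trans (mul_le_mul_of_nonneg_right ?_ (hnn X2)) h3
      apply Real.exp_le_exp.2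
      linarith
    calc μ.real (E i ∩ Av E X) ≤ Real.exp (-(2 * w i)) * μ.real (Av E X2) := h1
      _ = Real.exp (-(w i)) * (Real.exp (-(w i)) * μ.real (Av E X2)) := by
          rw [← mul_assoc, ← Real.exp_add]
          congr 2
          ring
      _ ≤ Real.exp (-(w i)) * μ.real (Av E X) :=
          mul_le_mul_of_nonneg_left h5 (Real.exp_pos _).le

end WLLL

open WLLL Pool.Agent.H320R2.LD.LLL in
theorem prove_WLLL (hmix : St_MIX) : St_WLLL := by
  classical
  intro V J _ _ ν _ E S hE hdep w hw hp1 hN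
  have hN' : ∀ i, ∑ j ∈ Finset.univ.filter (fun j => ¬ Disjoint (S i) (S j)),
      Real.exp (-(w j)) ≤ w i / 2 := by
    intro i
    convert hN i
  have hk := fun X : Finset J =>
    WLLL.key hmix ν E S hE hdep w hw hp1 hN' X.card X rfl
  have hpos : ∀ X : Finset J, 0 < (Measure.pi ν).real (Av E X) := by
    intro X
    induction X using Finset.induction_on with
    | empty =>
      have : Av E (∅ : Finset J) = Set.univ := by
        ext x; simp [Av]
      rw [this, probReal_univ]
      exact one_pos
    | insert i X _ ih =>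
      have h1 := insert_bound (Measure.pi ν) E X i (Real.exp (-(w i))) (Real.exp_pos _).le
          (x_le (hw i)) (hk X i)
      exact lt_of_lt_of_le (mul_pos (Real.exp_pos _) ih) h1
  have h := hpos Finset.univ
  have hne : (Av E Finset.univ).Nonempty := by
    by_contra hcon
    rw [Set.not_nonempty_iff_eq_empty] at hcon
    rw [hcon, measureReal_empty] at h
    exact lt_irrefl _ h
  obtain ⟨x, hx⟩ := hne
  exact ⟨x, fun i => hx i (Finset.mem_univ i)⟩

end Pool.Agent.R959.LD2
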