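import Pool.Agent.H320R2.LD.Chain
import Pool.Agent.R959.LD2.WLLL
import Pool.Agent.R959.LD2.PHASE2
import Pool.Agent.R959.LD2.ITER2
import Pool.Agent.R959.LD2.ROUND2
import Pool.Agent.R959.LD2.REAL

set_option autoImplicit false

namespace Pool.Agent.R959.LD2

open Pool.Agent.H320R2.LD

/-- Matrices with bounded `l1` norms of rows and columns, given the numerical inequalities. -/
theorem chain2 (hPARAM : St_PARAM2) : St_REAL := by
  have mgf := prove_MGF
  have conc := prove_CONC mgf
  have mom := prove_MOM mgf
  have pot1 := prove_POT1
  have pot2 := prove_POT2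
  have two := prove_TWO
  have sol := prove_SOL pot1 two
  have mix := prove_MIX
  have wlll := prove_WLLL mix
  have cond := prove_COND conc mix
  have shift := prove_SHIFT two pot1 pot2
  have sh := prove_SH mix
  have mean := prove_MEAN shift sh two sol
  have far := prove_FAR sol conc mom pot2
  have eh := prove_EH sol mom pot2
  have hotp := prove_HOTP sol conc mgf mom pot2
  have ct := prove_CT two pot1
  have loc := prove_LOC hotp prove_PATH prove_CH ct sol cond
  have phase := prove_PHASE2 prove_EX sol loc wlll far eh mean prove_GEX conc mom pot1 hPARAM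
  exact prove_REAL (prove_MAIN2 (prove_ITER2 phase) (prove_ROUND2 wlll))

end Pool.Agent.R959.LD2
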