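import Pool.Agent.R959.LD2.Final2

set_option autoImplicit false

/-!
# Consequences of `St_REAL`
-/

namespace Pool.Agent.R959.LD2

/-- the form used for the problem on real matrices -/
theorem cor_real (h : St_REAL) :
    ∃ C : ℝ, 0 < C ∧ ∀ (n m : ℕ) (R Δ : ℝ) (V : Fin n → Fin m → ℝ),
      (∀ i j, |V i j| ≤ 1) → (∀ i, ∑ j, |V i j| ≤ R) → (∀ j, ∑ i, |V i j| ≤ Δ) →
      ∃ y : Fin m → ℝ, (∀ j, y j = 1 ∨ y j = -1) ∧
        (Δ ≤ R → ∀ i, |∑ j, V i j * y j| ≤ C * Real.sqrt R) ∧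
        ∀ i, |∑ j, V i j * y j| ≤
          C * Real.sqrt (1 + Δ + ∑ j, |V i j| + R ^ (2/5 : ℝ)) := by
  obtain ⟨C, hC, h⟩ := h
  refine ⟨2 * C + 1, by positivity, fun n m R Δ V h1 h2 h3 => ?_⟩
  rcases Nat.eq_zero_or_pos n with hn | hn
  · subst hn
    exact ⟨fun _ => 1, fun _ => Or.inl rfl, fun _ i => i.elim0, fun i => i.elim0⟩
  rcases Nat.eq_zero_or_pos m with hm | hm
  · subst hm
    refine ⟨fun _ => 1, fun _ => Or.inl rfl, fun _ i => ?_, fun i => ?_⟩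
    · simp only [Finset.univ_eq_empty, Finset.sum_empty, abs_zero]
      positivity
    · simp only [Finset.univ_eq_empty, Finset.sum_empty, abs_zero]
      positivity
  have hR0 : 0 ≤ R := (Finset.sum_nonneg fun j _ => abs_nonneg _).trans (h2 ⟨0, hn⟩)
  have hD0 : 0 ≤ Δ := (Finset.sum_nonneg fun j _ => abs_nonneg _).trans (h3 ⟨0, hm⟩)
  have tri : ∀ (y : Fin m → ℝ), (∀ j, y j = 1 ∨ y j = -1) → ∀ i,
      |∑ j, V i j * y j| ≤ ∑ j, |V i j| := by
    intro y hy i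
    refine (Finset.abs_sum_le_sum_abs _ _).trans (Finset.sum_le_sum fun j _ => ?_)
    rw [abs_mul]
    rcases hy j with h | h <;> rw [h] <;> simp
  obtain ⟨y, hy, hb⟩ := h (max 1 Δ) (max 1 R) (Fin m) (Fin n) V (le_max_left _ _)
    (le_max_left _ _) h1 (fun j => (h3 j).trans (le_max_right _ _))
    (fun i => (h2 i).trans (le_max_right _ _))
  have hmk : (max 1 R) ^ (2/5 : ℝ) ≤ 1 + R ^ (2/5 : ℝ) := by
    rcases le_total 1 R with h4 | h4
    · rw [max_eq_right h4]; linarith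
    · rw [max_eq_left h4, Real.one_rpow]
      linarith [Real.rpow_nonneg hR0 (2/5 : ℝ)]
  have hmt : max 1 Δ ≤ 1 + Δ := max_le (by linarith) (by linarith)
  refine ⟨y, hy, fun hDR i => ?_, fun i => ?_⟩
  · rcases le_total 1 R with h4 | h4
    · have e1 : max 1 R = R := max_eq_right h4
      have e2 : max 1 Δ ≤ R := max_le h4 hDR
      have e3 : R ^ (2/5 : ℝ) ≤ R := by
        calc R ^ (2/5 : ℝ) ≤ R ^ (1 : ℝ) :=
              Real.rpow_le_rpow_of_exponent_le h4 (by norm_num)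
          _ = R := Real.rpow_one R
      have e4 : Real.sqrt (max 1 Δ + (∑ j, |V i j|) + (max 1 R) ^ (2/5 : ℝ)) ≤
          2 * Real.sqrt R := by
        rw [e1]
        refine Real.sqrt_le_iff.2 ⟨by positivity, ?_⟩
        rw [mul_pow, Real.sq_sqrt hR0]
        linarith [h2 i]
      calc |∑ j, V i j * y j| ≤ C * Real.sqrt (max 1 Δ + (∑ j, |V i j|) + (max 1 R) ^ (2/5 : ℝ)) :=
            hb i
        _ ≤ C * (2 * Real.sqrt R) := mul_le_mul_of_nonneg_left e4 hC.le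
        _ ≤ (2 * C + 1) * Real.sqrt R := by nlinarith [Real.sqrt_nonneg R]
    · have e1 : R ≤ Real.sqrt R := by
        refine Real.le_sqrt_of_sq_le ?_
        nlinarith
      calc |∑ j, V i j * y j| ≤ ∑ j, |V i j| := tri y hy i
        _ ≤ R := h2 i
        _ ≤ Real.sqrt R := e1
        _ ≤ (2 * C + 1) * Real.sqrt R := by nlinarith [Real.sqrt_nonneg R]
  · set X := 1 + Δ + ∑ j, |V i j| + R ^ (2/5 : ℝ) with hX
    have hs0 : 0 ≤ ∑ j, |V i j| := Finset.sum_nonneg fun j _ => abs_nonneg _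
    have hr0 : 0 ≤ R ^ (2/5 : ℝ) := Real.rpow_nonneg hR0 _
    have hX0 : 0 ≤ X := by rw [hX]; linarith
    have e4 : Real.sqrt (max 1 Δ + (∑ j, |V i j|) + (max 1 R) ^ (2/5 : ℝ)) ≤
        2 * Real.sqrt X := by
      refine Real.sqrt_le_iff.2 ⟨by positivity, ?_⟩
      rw [mul_pow, Real.sq_sqrt hX0, hX]
      linarith
    calc |∑ j, V i j * y j| ≤ C * Real.sqrt (max 1 Δ + (∑ j, |V i j|) + (max 1 R) ^ (2/5 : ℝ)) :=
          hb i
      _ ≤ C * (2 * Real.sqrt X) := mul_le_mul_of_nonneg_left e4 hC.le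
      _ ≤ (2 * C + 1) * Real.sqrt X := by nlinarith [Real.sqrt_nonneg X]

end Pool.Agent.R959.LD2
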