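import Pool.Agent.R959.LD2.Final2

set_option autoImplicit false

/-!
# Consequences of `St_REAL`: a bound for every row in terms of its own `l1` norm
-/

namespace Pool.Agent.R959.LD2

/-- the bound with the own norm of every row -/
theorem cor_adaptive (h : St_REAL) :
    ∃ C : ℝ, 0 < C ∧ ∀ (n m : ℕ) (t k : ℝ) (A : Fin m → Fin n → ℝ),
      (∀ i j, |A i j| ≤ 1) → (∀ j, ∑ i, |A i j| ≤ t) → (∀ i, ∑ j, |A i j| ≤ k) →
      ∃ y : Fin n → ℝ, (∀ j, y j = 1 ∨ y j = -1) ∧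
        ∀ i, |∑ j, A i j * y j| ≤
          C * Real.sqrt (t + ∑ j, |A i j| + k ^ (2/5 : ℝ)) := by
  obtain ⟨C, hC, h⟩ := h
  refine ⟨2 * C + 1, by positivity, fun n m t k A h1 h3 h2 => ?_⟩
  rcases Nat.eq_zero_or_pos n with hn | hn
  · subst hn
    refine ⟨fun _ => 1, fun _ => Or.inl rfl, fun i => ?_⟩
    simp only [Finset.univ_eq_empty, Finset.sum_empty, abs_zero]
    positivity
  have tri : ∀ (y : Fin n → ℝ), (∀ j, y j = 1 ∨ y j = -1) → ∀ i,
      |∑ j, A i j * y j| ≤ ∑ j, |A i j| := by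
    intro y hy i
    refine (Finset.abs_sum_le_sum_abs _ _).trans (Finset.sum_le_sum fun j _ => ?_)
    rw [abs_mul]
    rcases hy j with h | h <;> rw [h] <;> simp
  have ht0 : 0 ≤ t := (Finset.sum_nonneg fun j _ => abs_nonneg _).trans (h3 ⟨0, hn⟩)
  obtain ⟨y, hy, hb⟩ := h (max 1 t) (max 1 k) (Fin n) (Fin m) A (le_max_left _ _)
    (le_max_left _ _) h1 (fun j => (h3 j).trans (le_max_right _ _))
    (fun i => (h2 i).trans (le_max_right _ _))
  refine ⟨y, hy, fun i => ?_⟩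
  set a := ∑ j, |A i j| with ha
  have ha0 : 0 ≤ a := Finset.sum_nonneg fun j _ => abs_nonneg _
  have hk0 : 0 ≤ k := ha0.trans (h2 i)
  have hkr : 0 ≤ k ^ (2/5 : ℝ) := Real.rpow_nonneg hk0 _
  rcases le_total a 1 with h4 | h4
  · have e1 : a ≤ Real.sqrt a := by
      refine Real.le_sqrt_of_sq_le ?_
      nlinarith
    have e2 : Real.sqrt a ≤ Real.sqrt (t + a + k ^ (2/5 : ℝ)) :=
      Real.sqrt_le_sqrt (by linarith)
    calc |∑ j, A i j * y j| ≤ a := tri y hy i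
      _ ≤ Real.sqrt (t + a + k ^ (2/5 : ℝ)) := e1.trans e2
      _ ≤ (2 * C + 1) * Real.sqrt (t + a + k ^ (2/5 : ℝ)) := by
          nlinarith [Real.sqrt_nonneg (t + a + k ^ (2/5 : ℝ))]
  · have hk1 : 1 ≤ k := h4.trans (h2 i)
    have e1 : max 1 k = k := max_eq_right hk1
    have e2 : max 1 t ≤ t + a := max_le (by linarith) (by linarith)
    have e4 : Real.sqrt (max 1 t + a + (max 1 k) ^ (2/5 : ℝ)) ≤
        2 * Real.sqrt (t + a + k ^ (2/5 : ℝ)) := by
      rw [e1]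
      refine Real.sqrt_le_iff.2 ⟨by positivity, ?_⟩
      rw [mul_pow, Real.sq_sqrt (by positivity)]
      linarith
    calc |∑ j, A i j * y j| ≤ C * Real.sqrt (max 1 t + a + (max 1 k) ^ (2/5 : ℝ)) := hb i
      _ ≤ C * (2 * Real.sqrt (t + a + k ^ (2/5 : ℝ))) := mul_le_mul_of_nonneg_left e4 hC.le
      _ ≤ (2 * C + 1) * Real.sqrt (t + a + k ^ (2/5 : ℝ)) := by
          nlinarith [Real.sqrt_nonneg (t + a + k ^ (2/5 : ℝ))]

/-- set systems -/
theorem cor_sets (h : St_REAL) :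
    ∃ C : ℝ, 0 < C ∧ ∀ (n m t k : ℕ) (S : Fin m → Finset (Fin n)),
      (∀ i : Fin n, (Finset.univ.filter (fun j : Fin m => i ∈ S j)).card ≤ t) →
      (∀ j : Fin m, (S j).card ≤ k) →
      ∃ χ : Fin n → ℤ, (∀ i, χ i = 1 ∨ χ i = -1) ∧
        ∀ j : Fin m, ((|∑ i ∈ S j, χ i| : ℤ) : ℝ) ≤
          C * Real.sqrt ((t : ℝ) + ((S j).card : ℝ) + (k : ℝ) ^ (2 / 5 : ℝ)) := by
  obtain ⟨C, hC, hc⟩ := cor_adaptive h
  refine ⟨C, hC, fun n m t k S h1 h2 => ?_⟩
  set A : Fin m → Fin n → ℝ := fun j i => if i ∈ S j then 1 else 0 with hA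
  have habs : ∀ j i, |A j i| = if i ∈ S j then 1 else 0 := by
    intro j i
    simp only [hA]
    split_ifs <;> simp
  have hrow : ∀ j, ∑ i, |A j i| = ((S j).card : ℝ) := by
    intro j
    simp only [habs]
    rw [Finset.sum_ite_mem, Finset.univ_inter, Finset.sum_const, nsmul_eq_mul, mul_one]
  obtain ⟨y, hy, hb⟩ := hc n m t k A (by
    intro j i
    rw [habs]
    split_ifs <;> simp) (by
    intro i
    have e : ∑ j, |A j i| = ((Finset.univ.filter (fun j : Fin m => i ∈ S j)).card : ℝ) := by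
      simp only [habs]
      rw [Finset.sum_boole]
    rw [e]
    exact_mod_cast h1 i) (by
    intro j
    rw [hrow]
    exact_mod_cast h2 j)
  refine ⟨fun i => if y i = 1 then 1 else -1, fun i => ?_, fun j => ?_⟩
  · by_cases h : y i = 1
    · left; simp [h]
    · right; simp [h]
  · have e0 : ∀ i, (((if y i = 1 then 1 else -1 : ℤ)) : ℝ) = y i := by
      intro i
      rcases hy i with h | h
      · rw [h]; simp
      · rw [h]; norm_num
    have e1 : ((∑ i ∈ S j, (if y i = 1 then 1 else -1 : ℤ) : ℤ) : ℝ) = ∑ i, A j i * y i := by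
      rw [Int.cast_sum]
      simp only [e0, hA, ite_mul, one_mul, zero_mul]
      rw [Finset.sum_ite_mem, Finset.univ_inter]
    rw [Int.cast_abs, e1]
    refine (hb j).trans (le_of_eq ?_)
    rw [hrow]

/-- vectors with small entries and small `l1` norm -/
theorem cor_komlos (h : St_REAL) :
    ∃ C : ℝ, 0 < C ∧ ∀ δ : ℝ, 0 < δ → ∀ (d n : ℕ) (v : Fin n → EuclideanSpace ℝ (Fin d)),
      (∀ i k, |v i k| ≤ δ) → (∀ i, ∑ k, |v i k| ≤ 1 / δ) →
      (∀ k, ∑ i, |v i k| ≤ 1 / δ ^ 4) →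
      ∃ x : Fin n → ℝ, (∀ i, x i = 1 ∨ x i = -1) ∧
        ∀ k, |∑ i, x i * v i k| ≤ C * Real.sqrt (1 + δ * ∑ i, |v i k|) := by
  obtain ⟨C, hC, hc⟩ := cor_adaptive h
  refine ⟨2 * C, by positivity, fun δ hδ d n v h1 h2 h3 => ?_⟩
  obtain ⟨x, hx, hb⟩ := hc n d (1 / δ ^ 2) (1 / δ ^ 5) (fun k i => v i k / δ) (by
    intro k i
    rw [abs_div, abs_of_pos hδ, div_le_one hδ]
    exact h1 i k) (by
    intro i
    have e : ∑ k, |v i k / δ| = (∑ k, |v i k|) / δ := by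
      rw [Finset.sum_div]
      exact Finset.sum_congr rfl fun k _ => by rw [abs_div, abs_of_pos hδ]
    rw [e, div_le_iff₀ hδ]
    refine (h2 i).trans (le_of_eq ?_)
    field_simp) (by
    intro k
    have e : ∑ i, |v i k / δ| = (∑ i, |v i k|) / δ := by
      rw [Finset.sum_div]
      exact Finset.sum_congr rfl fun i _ => by rw [abs_div, abs_of_pos hδ]
    rw [e, div_le_iff₀ hδ]
    refine (h3 k).trans (le_of_eq ?_)
    field_simp)
  refine ⟨x, hx, fun k => ?_⟩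
  set a := ∑ i, |v i k| with ha
  have ha0 : 0 ≤ a := Finset.sum_nonneg fun i _ => abs_nonneg _
  have e1 : ∑ i, v i k / δ * x i = (∑ i, x i * v i k) / δ := by
    rw [Finset.sum_div]
    exact Finset.sum_congr rfl fun i _ => by ring
  have e2 : ∑ i, |v i k / δ| = a / δ := by
    rw [ha, Finset.sum_div]
    exact Finset.sum_congr rfl fun i _ => by rw [abs_div, abs_of_pos hδ]
  have e3 : (1 / δ ^ 5) ^ (2/5 : ℝ) = 1 / δ ^ 2 := by
    rw [one_div, ← inv_pow, ← Real.rpow_natCast, ← Real.rpow_mul (by positivity)]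
    norm_num
  have hb' := hb k
  rw [e1, e2, e3, abs_div, abs_of_pos hδ, div_le_iff₀ hδ] at hb'
  refine hb'.trans ?_
  have e4 : Real.sqrt (1 / δ ^ 2 + a / δ + 1 / δ ^ 2) * δ ≤ 2 * Real.sqrt (1 + δ * a) := by
    have e5 : Real.sqrt (1 / δ ^ 2 + a / δ + 1 / δ ^ 2) * δ =
        Real.sqrt ((1 / δ ^ 2 + a / δ + 1 / δ ^ 2) * δ ^ 2) := by
      rw [Real.sqrt_mul (by positivity), Real.sqrt_sq hδ.le]
    rw [e5]
    refine Real.sqrt_le_iff.2 ⟨by positivity, ?_⟩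
    rw [mul_pow, Real.sq_sqrt (by positivity)]
    have e6 : (1 / δ ^ 2 + a / δ + 1 / δ ^ 2) * δ ^ 2 = 2 + δ * a := by
      field_simp
      ring
    rw [e6]
    nlinarith [mul_nonneg hδ.le ha0]
  calc C * Real.sqrt (1 / δ ^ 2 + a / δ + 1 / δ ^ 2) * δ
      = C * (Real.sqrt (1 / δ ^ 2 + a / δ + 1 / δ ^ 2) * δ) := by ring
    _ ≤ C * (2 * Real.sqrt (1 + δ * a)) := mul_le_mul_of_nonneg_left e4 hC.le
    _ = 2 * C * Real.sqrt (1 + δ * a) := by ring

end Pool.Agent.R959.LD2
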