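import Pool.Agent.R959.LD2.Defs
import Pool.Agent.H320R2.LD.DEP
import Pool.Agent.H320R2.LD.MOM
import Pool.Agent.H320R2.LD.PHASE

set_option autoImplicit false

/-!
# Weighted dependency sums, and Gaussian tails for sums of local functions
-/

open MeasureTheory ProbabilityTheory

namespace Pool.Agent.R959.LD2

open Pool.Agent.H320R2.LD Pool.Agent.H320R2.LD.PHASE

noncomputable section

section
variable {V W J : Type} [Fintype V] [Fintype W] [Fintype J]

/-- neighbourhood of a set of vertices -/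
def sball (I : W → V → Prop) (n : ℕ) (X : Finset V) : Finset V := by
  classical exact X.biUnion (ball I n)

theorem mem_sball (I : W → V → Prop) (n : ℕ) (X : Finset V) (u : V) :
    u ∈ sball I n X ↔ ∃ v ∈ X, u ∈ ball I n v := by
  classical
  unfold sball
  exact Finset.mem_biUnion

theorem ball_symm {I : W → V → Prop} {n : ℕ} {u v : V} (h : u ∈ ball I n v) : v ∈ ball I n u := by
  classical
  obtain ⟨l, hl, hc⟩ := (Finset.mem_filter.mp h).2
  exact Finset.mem_filter.mpr ⟨Finset.mem_univ _, l.reverse, by rwa [List.length_reverse],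
    DEP.symm hc⟩

theorem ball_trans {I : W → V → Prop} {n : ℕ} {u v v' : V} (h : u ∈ ball I n v)
    (h' : u ∈ ball I n v') : v' ∈ ball I (2 * n) v := by
  classical
  obtain ⟨l, hl, hc⟩ := (Finset.mem_filter.mp h).2
  obtain ⟨l', hl', hc'⟩ := (Finset.mem_filter.mp h').2
  refine Finset.mem_filter.mpr ⟨Finset.mem_univ _, l ++ l'.reverse, ?_,
    DEP.append hc (DEP.symm hc')⟩
  rw [List.length_append, List.length_reverse]
  omega

open Classical in
theorem wsum_le {I : W → V → Prop} {D : ℕ}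
    (h1 : ∀ R, {v | I R v}.ncard ≤ D) (h2 : ∀ v, {R | I R v}.ncard ≤ D) (n : ℕ)
    (X : J → Finset V) (x : J → ℝ) (hx : ∀ j, 0 ≤ x j) (Γ : ℝ) (hΓ0 : 0 ≤ Γ)
    (hΓ : ∀ v, ∑ j ∈ Finset.univ.filter (fun j => v ∈ X j), x j ≤ Γ) (i : J) :
    ∑ j ∈ Finset.univ.filter (fun j => ¬ Disjoint (sball I n (X i)) (sball I n (X j))), x j
      ≤ ((X i).card : ℝ) * (((D ^ 2 + 1) ^ (2 * n) : ℕ) : ℝ) * Γ := by
  have e1 : ∀ j ∈ Finset.univ.filter (fun j => ¬ Disjoint (sball I n (X i)) (sball I n (X j))),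
      x j ≤ ∑ v ∈ X i, ∑ v' ∈ ball I (2 * n) v, (if v' ∈ X j then x j else 0) := by
    intro j hj
    have h3 := (Finset.mem_filter.mp hj).2
    rw [Finset.not_disjoint_iff] at h3
    obtain ⟨u, hu, hu'⟩ := h3
    obtain ⟨v, hv, hvu⟩ := (mem_sball I n _ u).mp hu
    obtain ⟨v', hv', hvu'⟩ := (mem_sball I n _ u).mp hu'
    have h4 : v' ∈ ball I (2 * n) v := ball_trans hvu hvu'
    have hnn : ∀ v' , 0 ≤ (if v' ∈ X j then x j else 0) := fun v' => by
      split_ifs
      · exact hx j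
      · exact le_rfl
    calc x j = (if v' ∈ X j then x j else 0) := by rw [if_pos hv']
      _ ≤ ∑ v' ∈ ball I (2 * n) v, (if v' ∈ X j then x j else 0) :=
          Finset.single_le_sum (f := fun v' => if v' ∈ X j then x j else 0)
            (fun v' _ => hnn v') h4
      _ ≤ _ := Finset.single_le_sum
            (f := fun v => ∑ v' ∈ ball I (2 * n) v, (if v' ∈ X j then x j else 0))
            (fun v _ => Finset.sum_nonneg fun v' _ => hnn v') hv
  refine (Finset.sum_le_sum e1).trans ?_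
  have e2 : ∑ j ∈ Finset.univ.filter (fun j => ¬ Disjoint (sball I n (X i)) (sball I n (X j))),
      ∑ v ∈ X i, ∑ v' ∈ ball I (2 * n) v, (if v' ∈ X j then x j else 0) ≤
      ∑ j, ∑ v ∈ X i, ∑ v' ∈ ball I (2 * n) v, (if v' ∈ X j then x j else 0) := by
    refine Finset.sum_le_sum_of_subset_of_nonneg (Finset.filter_subset _ _) fun j _ _ => ?_
    refine Finset.sum_nonneg fun v _ => Finset.sum_nonneg fun v' _ => ?_
    split_ifs
    · exact hx j
    · exact le_rfl
  refine e2.trans ?_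
  rw [Finset.sum_comm]
  have e3 : ∀ v ∈ X i, ∑ j, ∑ v' ∈ ball I (2 * n) v, (if v' ∈ X j then x j else 0) ≤
      (((D ^ 2 + 1) ^ (2 * n) : ℕ) : ℝ) * Γ := by
    intro v _
    rw [Finset.sum_comm]
    calc ∑ v' ∈ ball I (2 * n) v, ∑ j, (if v' ∈ X j then x j else 0)
        ≤ ∑ _v' ∈ ball I (2 * n) v, Γ := by
          refine Finset.sum_le_sum fun v' _ => ?_
          rw [← Finset.sum_filter]
          exact hΓ v'
      _ = ((ball I (2 * n) v).card : ℝ) * Γ := by rw [Finset.sum_const, nsmul_eq_mul]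
      _ ≤ _ := by
          refine mul_le_mul_of_nonneg_right ?_ hΓ0
          exact_mod_cast DEP.card_ball h1 h2 (2 * n) v
  calc ∑ v ∈ X i, ∑ j, ∑ v' ∈ ball I (2 * n) v, (if v' ∈ X j then x j else 0)
      ≤ ∑ _v ∈ X i, (((D ^ 2 + 1) ^ (2 * n) : ℕ) : ℝ) * Γ := Finset.sum_le_sum e3
    _ = _ := by rw [Finset.sum_const, nsmul_eq_mul, mul_assoc]

open Classical in
theorem card_ball_rev {I : W → V → Prop} {D : ℕ}
    (h1 : ∀ R, {v | I R v}.ncard ≤ D) (h2 : ∀ v, {R | I R v}.ncard ≤ D) (n : ℕ) (u : V) :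
    (Finset.univ.filter (fun v => u ∈ ball I n v)).card ≤ (D ^ 2 + 1) ^ n := by
  refine le_trans (Finset.card_le_card ?_) (DEP.card_ball h1 h2 n u)
  intro v hv
  exact ball_symm (Finset.mem_filter.mp hv).2

open Classical in
/-- a linear combination of local Lipschitz functions is Lipschitz -/
theorem loc_lip (X : V → (V → ℝ) → ℝ) (M : ℝ) (hM : 0 ≤ M) (hX : ∀ v, Lip M (X v))
    (Bv : V → Finset V) (hdep : ∀ v, ∀ x y : V → ℝ, (∀ u ∈ Bv v, x u = y u) → X v x = X v y)
    (N : ℝ) (hN0 : 0 ≤ N)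
    (hN : ∀ u, ((Finset.univ.filter (fun v => u ∈ Bv v)).card : ℝ) ≤ N)
    (c : V → ℝ) (σ : ℝ) (hσ0 : 0 ≤ σ) (hσ : ∑ v, c v ^ 2 ≤ σ ^ 2) :
    Lip (σ * (M * Real.sqrt N)) (fun x => ∑ v, c v * X v x) := by
  intro x y
  have h1 : (∑ v, c v * X v x) - ∑ v, c v * X v y = ∑ v, c v * (X v x - X v y) := by
    rw [← Finset.sum_sub_distrib]
    exact Finset.sum_congr rfl fun v _ => by ring
  show |(∑ v, c v * X v x) - ∑ v, c v * X v y| ≤ _
  rw [h1]
  refine (abs_sum_mul_le c (fun v => X v x - X v y) σ hσ0 hσ).trans ?_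
  rw [mul_assoc σ]
  refine mul_le_mul_of_nonneg_left ?_ hσ0
  have h2 : ∀ v, (X v x - X v y) ^ 2 ≤ M ^ 2 * ∑ u, (if u ∈ Bv v then (x u - y u) ^ 2 else 0) := by
    intro v
    set y' : V → ℝ := fun u => if u ∈ Bv v then y u else x u with hy'
    have h3 : X v y = X v y' := hdep v y y' fun u hu => by simp [hy', hu]
    have h4 := hX v x y'
    have h5 : nrm (x - y') ^ 2 = ∑ u, (if u ∈ Bv v then (x u - y u) ^ 2 else 0) := by
      unfold nrm
      rw [Real.sq_sqrt (nsq_nonneg _)]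
      unfold nsq
      refine Finset.sum_congr rfl fun u _ => ?_
      by_cases hu : u ∈ Bv v
      · simp [hy', hu]
      · simp [hy', hu]
    rw [← h5, ← mul_pow, h3, ← sq_abs]
    exact pow_le_pow_left₀ (abs_nonneg _) h4 2
  have h6 : nsq (fun v => X v x - X v y) ≤ M ^ 2 * (N * nsq (x - y)) := by
    unfold nsq
    calc ∑ v, (X v x - X v y) ^ 2
        ≤ ∑ v, M ^ 2 * ∑ u, (if u ∈ Bv v then (x u - y u) ^ 2 else 0) :=
          Finset.sum_le_sum fun v _ => h2 v
      _ = M ^ 2 * ∑ u, ∑ v, (if u ∈ Bv v then (x u - y u) ^ 2 else 0) := by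
          rw [← Finset.mul_sum, Finset.sum_comm]
      _ ≤ M ^ 2 * ∑ u, N * (x u - y u) ^ 2 := by
          refine mul_le_mul_of_nonneg_left (Finset.sum_le_sum fun u _ => ?_) (sq_nonneg M)
          rw [← Finset.sum_filter, Finset.sum_const, nsmul_eq_mul]
          exact mul_le_mul_of_nonneg_right (hN u) (sq_nonneg _)
      _ = _ := by
          rw [← Finset.mul_sum]
          rfl
  unfold nrm
  calc Real.sqrt (nsq (fun v => X v x - X v y)) ≤ Real.sqrt (M ^ 2 * (N * nsq (x - y))) :=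
        Real.sqrt_le_sqrt h6
    _ = M * Real.sqrt N * Real.sqrt (nsq (x - y)) := by
        rw [Real.sqrt_mul (sq_nonneg M), Real.sqrt_sq hM, Real.sqrt_mul hN0, mul_assoc]

/-- two-sided Gaussian tail of an odd Lipschitz function -/
theorem odd_tail (hCONC : St_CONC) (hMOM : St_MOM) (f : (V → ℝ) → ℝ) (L : ℝ) (hL : 0 < L)
    (hf : Lip L f) (hodd : ∀ x, f (-x) = - f x) (u : ℝ) (hu : 0 ≤ u) :
    (gam V).real {x | u < |f x|} ≤ 2 * Real.exp (-(u ^ 2 / (4 * L ^ 2))) := by
  obtain ⟨C8, -, hm⟩ := hMOM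
  have h0 : ∫ x, f x ∂(gam V) = 0 := (hm V f L hL hf hodd).1
  have hf' : Lip L (fun x => - f x) := by
    intro x y
    have h1 := hf x y
    show |(-f x) - (-f y)| ≤ _
    rwa [show (-f x) - (-f y) = -(f x - f y) by ring, abs_neg]
  have h1 := hCONC V f L hL hf u hu
  have h2 := hCONC V (fun x => - f x) L hL hf' u hu
  rw [h0, zero_add] at h1
  rw [integral_neg, h0, neg_zero, zero_add] at h2
  have hsub : {x | u < |f x|} ⊆ {x | u ≤ f x} ∪ {x | u ≤ - f x} := by
    intro x hx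
    rcases lt_abs.mp (show u < |f x| from hx) with h | h
    · exact Or.inl h.le
    · exact Or.inr h.le
  calc (gam V).real {x | u < |f x|} ≤ (gam V).real ({x | u ≤ f x} ∪ {x | u ≤ - f x}) :=
        measureReal_mono hsub
    _ ≤ (gam V).real {x | u ≤ f x} + (gam V).real {x | u ≤ - f x} := measureReal_union_le _ _
    _ ≤ Real.exp (-u ^ 2 / (4 * L ^ 2)) + Real.exp (-u ^ 2 / (4 * L ^ 2)) := add_le_add h1 h2
    _ = 2 * Real.exp (-(u ^ 2 / (4 * L ^ 2))) := by rw [neg_div]; ring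

end

section core

variable {V W : Type} [Fintype V] [Fintype W] [DecidableEq V]

variable {z : (V → ℝ) → (V → ℝ)} {M : ℝ}

theorem XX_odd (hodd : ∀ y, z (-y) = - z y) (B : Finset V) (v : V) (g : V → ℝ) :
    XX z M B v (-g) = - XX z M B v g := by
  unfold XX
  have hmp := MOM.neg_preserving V
  have h2 : ∫ g', z (M • mix B (-g) (-g')) v ∂(gam V) = ∫ g', z (M • mix B (-g) g') v ∂(gam V) :=
    hmp.integral_comp (Homeomorph.neg (V → ℝ)).measurableEmbedding
      (fun g' => z (M • mix B (-g) g') v)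
  rw [← h2, ← integral_neg]
  congr 1
  funext g'
  have h3 : mix B (-g) (-g') = - mix B g g' := by
    funext u
    unfold mix
    simp only [Pi.neg_apply]
    split_ifs <;> rfl
  rw [h3, smul_neg, hodd]
  rfl

end core

end

end Pool.Agent.R959.LD2
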