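import Pool.Agent.H320R2.LD.Defs

set_option autoImplicit false

/-!
# Discrepancy of matrices with bounded `l1` norms: definitions and statements of the tasks

Extension of `Pool.Agent.H320R2.LD` (set systems with sets and degrees at most `t`) to matrices with
unboundedly many small entries. The rows with very small entries (`Ext`) enter only through a
weighted local lemma. Every task is a proposition `St_X`; other tasks enter as hypotheses.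
-/

open MeasureTheory ProbabilityTheory

namespace Pool.Agent.R959.LD2

open Pool.Agent.H320R2.LD

noncomputable section

/-- support -/
def supp {V : Type} [Fintype V] (f : V → ℝ) : Finset V := by
  classical exact Finset.univ.filter (fun v => f v ≠ 0)

theorem mem_supp {V : Type} [Fintype V] (f : V → ℝ) (v : V) : v ∈ supp f ↔ f v ≠ 0 := by
  classical
  unfold supp
  simp

section
variable {V W J : Type} [Fintype V] [Fintype W] [Fintype J]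

/-- admissible main matrices: small entries, rows and columns of Euclidean norm at most one,
bounded product of the `l1` norms, polynomially many nonzero entries -/
def Adm2 (t : ℝ) (A : W → V → ℝ) : Prop :=
  (∀ R v, A R v ^ 2 * t ≤ 1) ∧ (∀ R, ∑ v, A R v ^ 2 ≤ 1) ∧ (∀ v, ∑ R, A R v ^ 2 ≤ 1) ∧
    (∃ r c : ℝ, 0 ≤ r ∧ 0 ≤ c ∧ r * c ≤ t ^ (9/5 : ℝ) ∧ (∀ R, ∑ v, |A R v| ≤ r) ∧
      (∀ v, ∑ R, |A R v| ≤ c)) ∧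
    (∀ R, ((supp (A R)).card : ℝ) ≤ t ^ 4) ∧
    (∀ v, ((supp (fun R => A R v)).card : ℝ) ≤ t ^ 4)

/-- extra rows with very small entries: all nonzero entries of the row `j` have absolute value
`τ j`; `L j` is a scale, `B j` the size allowed for the row sum -/
def Ext (t : ℝ) (T : J → V → ℝ) (L B τ : J → ℝ) : Prop :=
  (∀ j, t ≤ L j) ∧ (∀ j, 0 < B j) ∧ (∀ j, 0 < τ j) ∧ (∀ j v, T j v ≠ 0 → |T j v| = τ j) ∧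
    (∀ j, ((supp (T j)).card : ℝ) ≤ L j * t ^ 4) ∧
    (∀ v, ∑ j ∈ supp (fun j => T j v), 1 / L j ≤ t ^ 4) ∧
    (∀ j, (∑ v, T j v ^ 2) * Real.sqrt (L j * t) ≤ B j ^ 2) ∧
    (∀ j, (∑ v, T j v ^ 2) * ((supp (T j)).card : ℝ) ≤ t ^ 4 * B j ^ 2)

end

open Classical in
/-- WLLL: weighted local lemma on a product space. -/
def St_WLLL : Prop := ∀ (V J : Type) [Fintype V] [Fintype J] (ν : V → Measure ℝ)
  [∀ v, IsProbabilityMeasure (ν v)] (E : J → Set (V → ℝ)) (S : J → Finset V),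
  (∀ i, MeasurableSet (E i)) →
  (∀ i, ∀ x y : V → ℝ, (∀ v ∈ S i, x v = y v) → (x ∈ E i → y ∈ E i)) →
  ∀ (w : J → ℝ), (∀ i, 1 ≤ w i) →
    (∀ i, (Measure.pi ν).real (E i) ≤ Real.exp (-(2 * w i))) →
    (∀ i, ∑ j ∈ Finset.univ.filter (fun j => ¬ Disjoint (S i) (S j)), Real.exp (-(w j))
      ≤ w i / 2) →
    ∃ x, ∀ i, x ∉ E i

/-- PHASE2: one phase. -/
def St_PHASE2 : Prop := ∃ C t0 : ℝ, 0 < C ∧ 2 ≤ t0 ∧ ∀ (t s : ℝ), t0 ≤ t →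
  t ^ (-(1/100) : ℝ) ≤ s → s ≤ 1 →
  ∀ (V W J : Type) [Fintype V] [Fintype W] [Fintype J]
  (A : W → V → ℝ) (T : J → V → ℝ) (L B τ : J → ℝ) (a : V → ℝ), Adm2 t A → Ext t T L B τ →
  (∀ v, |a v| ≤ 1) → (∀ R, Phi A a R ≤ s) →
  ∃ a' : V → ℝ, (∀ v, |a' v| ≤ 1) ∧ (∀ R, Phi A a' R ≤ 4/5 * s) ∧
    (∀ R, |∑ v, A R v * (a' v - a v)| ≤ C * s ^ (1/4 : ℝ)) ∧
    ∀ j, |∑ v, T j v * (a' v - a v)| ≤ B j / Real.log t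

/-- ITER2: iteration of the phases. -/
def St_ITER2 : Prop := ∃ C t0 : ℝ, 0 < C ∧ 2 ≤ t0 ∧ ∀ (t : ℝ), t0 ≤ t →
  ∀ (V W J : Type) [Fintype V] [Fintype W] [Fintype J]
  (A : W → V → ℝ) (T : J → V → ℝ) (L B τ : J → ℝ), Adm2 t A → Ext t T L B τ →
  ∃ a : V → ℝ, (∀ v, |a v| ≤ 1) ∧ (∀ R, Phi A a R ≤ 1 / Real.log t) ∧
    (∀ R, |∑ v, A R v * a v| ≤ C) ∧ ∀ j, |∑ v, T j v * a v| ≤ 4 * B j

/-- ROUND2: the final rounding. -/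
def St_ROUND2 : Prop := ∃ t0 : ℝ, 2 ≤ t0 ∧ ∀ (t : ℝ), t0 ≤ t →
  ∀ (V W J : Type) [Fintype V] [Fintype W] [Fintype J]
  (A : W → V → ℝ) (T : J → V → ℝ) (L B τ : J → ℝ) (a : V → ℝ), Adm2 t A → Ext t T L B τ →
  (∀ v, |a v| ≤ 1) → (∀ R, ∑ v, A R v ^ 2 * (1 - |a v|) ≤ 1 / Real.log t) →
  ∃ x : V → ℝ, (∀ v, x v = 1 ∨ x v = -1) ∧ (∀ R, |∑ v, A R v * (x v - a v)| ≤ 40) ∧
    ∀ j, |∑ v, T j v * (x v - a v)| ≤ B j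

/-- MAIN2: admissible matrices with extra rows. -/
def St_MAIN2 : Prop := ∃ C t0 : ℝ, 0 < C ∧ 2 ≤ t0 ∧ ∀ (t : ℝ), t0 ≤ t →
  ∀ (V W J : Type) [Fintype V] [Fintype W] [Fintype J]
  (A : W → V → ℝ) (T : J → V → ℝ) (L B τ : J → ℝ), Adm2 t A → Ext t T L B τ →
  ∃ x : V → ℝ, (∀ v, x v = 1 ∨ x v = -1) ∧ (∀ R, |∑ v, A R v * x v| ≤ C) ∧
    ∀ j, |∑ v, T j v * x v| ≤ 5 * B j

/-- REAL: real matrices with entries at most one. -/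
def St_REAL : Prop := ∃ C : ℝ, 0 < C ∧ ∀ (t k : ℝ) (V W : Type) [Fintype V] [Fintype W]
  (A : W → V → ℝ), 1 ≤ t → 1 ≤ k → (∀ R v, |A R v| ≤ 1) → (∀ v, ∑ R, |A R v| ≤ t) →
  (∀ R, ∑ v, |A R v| ≤ k) →
  ∃ x : V → ℝ, (∀ v, x v = 1 ∨ x v = -1) ∧
    ∀ R, |∑ v, A R v * x v| ≤ C * Real.sqrt (t + (∑ v, |A R v|) + k ^ (2/5 : ℝ))

/-- error probability of the local approximation -/
def del (M t : ℝ) (m : ℕ) : ℝ := 2 * Real.exp (-t) + 2 * Real.exp (-((1 / (2 * t ^ 3)) ^ 2 *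
  Real.exp (4 * t ^ (-(97/100) : ℝ) * m) / (16 * M ^ 2)))

/-- bound for the sizes of the neighbourhoods -/
def nbd (D m : ℕ) : ℕ := (D ^ 2 + 1) ^ (2 * (4 * m))

/-- PARAM2: the numerical inequalities needed in PHASE2 hold for all large `t`. -/
def St_PARAM2 : Prop := ∀ (M c : ℝ), 0 < M → 0 < c → ∃ t0 : ℝ, 2 ≤ t0 ∧ ∀ t : ℝ, t0 ≤ t →
  ∀ s : ℝ, t ^ (-(1/100) : ℝ) ≤ s → s ≤ 1 →
  ∀ (D m : ℕ), D = ⌊t ^ 4⌋₊ → m = ⌈5 * t ^ (97/100 : ℝ) * Real.log t⌉₊ →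
    (1000 ≤ t ∧ 1 ≤ m ∧ t ^ (-(1/4) : ℝ) ≤ 1/1000 ∧
    2 * (1 + 2 * M) ≤ t ^ (1/50 : ℝ) ∧ t ^ (-(1/4) : ℝ) ≤ (t ^ (1/50 : ℝ))⁻¹ ∧
    t ^ (-(97/100) : ℝ) ≤ 1 ∧
    8 * (t ^ (-(97/100) : ℝ)) ^ 2 * (t ^ (1/50 : ℝ)) ^ 4 * (t ^ (9/5 : ℝ) / s) ≤ 1 ∧
    (2 * (D : ℝ) ^ 2) ^ (4 * m) * Real.exp (-(m : ℝ) * (t ^ (1/50 : ℝ)) ^ 2 / (4 * M ^ 2))
      ≤ (Real.exp (-t)) ^ 2 ∧
    1 / (2 * t ^ 3) + 2 * Real.exp (-t) ≤ 1 / t ^ 3) ∧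
    (Real.exp (-(c * (s * t))) + 2 * Real.exp (-(((t ^ (-(1/4) : ℝ))⁻¹) ^ 4 / M ^ 2))
      + D * del M t m ≤ Real.exp (-(2 * t ^ (49/50 : ℝ))) ∧
    t ^ 4 * (nbd D m : ℝ) ^ 8 * del M t m ≤ Real.exp (-(2 * t ^ (49/50 : ℝ))) / 2 ∧
    2 * Real.exp (-(t / (16 * M ^ 2 * Real.log t ^ 2)))
      ≤ Real.exp (-(2 * t ^ (49/50 : ℝ))) / 2 ∧
    4 * t ^ 8 * (nbd D m : ℝ) ^ 17 * Real.exp (-(t ^ (49/50 : ℝ))) ≤ 1 ∧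
    12 * M ^ 2 * t ^ 4 * Real.log t ^ 2 ≤ (nbd D m : ℝ) ∧
    t ^ (49/50 : ℝ) + 2 ≤ (nbd D m : ℝ) ^ 2 ∧
    1 ≤ t ^ (49/50 : ℝ) ∧ 1 ≤ Real.log t ∧ 2 * Real.log t ≤ t)

end

end Pool.Agent.R959.LD2
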