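import Pool.Agent.R959.LD2.Defs

set_option autoImplicit false

open MeasureTheory ProbabilityTheory Filter

namespace Pool.Agent.R959.LD2
namespace PARAM

lemma ev_rpow (r K : ℝ) (hr : 0 < r) : ∀ᶠ t : ℝ in atTop, K ≤ t ^ r :=
  (tendsto_rpow_atTop hr).eventually_ge_atTop K

lemma ev_log (r K : ℝ) (hr : 0 < r) (hK : 0 < K) : ∀ᶠ t : ℝ in atTop, K * Real.log t ≤ t ^ r := by
  have h := (isLittleO_log_rpow_atTop hr).bound (show (0:ℝ) < 1 / K by positivity)
  filter_upwards [h, eventually_ge_atTop (1:ℝ)] with t ht ht1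
  rw [Real.norm_eq_abs, Real.norm_eq_abs, abs_of_nonneg (Real.log_nonneg ht1),
    abs_of_nonneg (Real.rpow_nonneg (by linarith) _)] at ht
  calc K * Real.log t ≤ K * (1 / K * t ^ r) := mul_le_mul_of_nonneg_left ht hK.le
    _ = t ^ r := by field_simp

end PARAM

set_option maxHeartbeats 4000000 in
open PARAM in
theorem prove_PARAM2 : St_PARAM2 := by
  intro M c hM hc
  have hev : ∀ᶠ t : ℝ in atTop, (10 : ℝ) ^ 12 ≤ t ∧ 64 * M ^ 2 ≤ t ∧
      2 * (1 + 2 * M) ≤ t ^ (1/50 : ℝ) ∧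
      8 ≤ t ^ (1/20 : ℝ) ∧ 288 * M ^ 2 * Real.log t ≤ t ^ (1/25 : ℝ) ∧
      16 * M ^ 2 ≤ t ^ (1/100 : ℝ) ∧ 400 * Real.log t ≤ t ^ (1/200 : ℝ) ∧
      3 / c ≤ t ^ (1/100 : ℝ) ∧ 8 * M * Real.log t ≤ t ^ (1/100 : ℝ) := by
    filter_upwards [eventually_ge_atTop ((10:ℝ) ^ 12), eventually_ge_atTop (64 * M ^ 2),
      ev_rpow (1/50) (2 * (1 + 2 * M)) (by norm_num), ev_rpow (1/20) 8 (by norm_num),
      ev_log (1/25) (288 * M ^ 2) (by norm_num) (by positivity),
      ev_rpow (1/100) (16 * M ^ 2) (by norm_num),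
      ev_log (1/200) 400 (by norm_num) (by positivity),
      ev_rpow (1/100) (3 / c) (by norm_num), ev_log (1/100) (8 * M) (by norm_num) (by positivity)]
      with t h1 h2 h3 h4 h5 h6 h7 h8 h9
    exact ⟨h1, h2, h3, h4, h5, h6, h7, h8, h9⟩
  obtain ⟨a, ha⟩ := eventually_atTop.mp hev
  refine ⟨max a 2, le_max_right _ _, ?_⟩
  intro t hta s hs1 hs2 D m hD hm
  obtain ⟨h1, h2, h3, h4, h5, h6, h7, h8, h9⟩ := ha t ((le_max_left _ _).trans hta)
  have h10 : (1000:ℝ) ≤ t := by linarith [show (1000:ℝ) ≤ 10 ^ 12 by norm_num]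
  have ht0 : 0 < t := by linarith
  have ht1 : 1 ≤ t := by linarith
  set L := Real.log t with hL
  have hexpL : Real.exp L = t := Real.exp_log ht0
  have hL1 : 1 ≤ L := by
    rw [hL, Real.le_log_iff_exp_le ht0]
    have := Real.exp_one_lt_d9
    linarith
  have hM2 : 0 < M ^ 2 := by positivity
  -- powers of t
  have htn : ∀ n : ℕ, t ^ n = Real.exp (n * L) := by
    intro n; rw [Real.exp_nat_mul, hexpL]
  have ht4r : t ^ (4:ℝ) = t ^ 4 := by
    rw [show (4:ℝ) = ((4:ℕ):ℝ) by norm_num, Real.rpow_natCast]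
  -- D
  have hDle : (D : ℝ) ≤ t ^ 4 := by
    rw [hD]; exact Nat.floor_le (by positivity)
  have hDge : t ^ 4 - 1 ≤ D := by
    rw [hD]; exact (Nat.sub_one_lt_floor _).le
  have ht4 : (1000:ℝ) ≤ t ^ 4 := by
    calc (1000:ℝ) ≤ t := h10
      _ = t ^ 1 := (pow_one t).symm
      _ ≤ t ^ 4 := pow_le_pow_right₀ ht1 (by norm_num)
  have hD1' : (1:ℝ) ≤ D := by linarith
  have hDsq : (D : ℝ) ^ 2 ≤ t ^ 8 := by
    calc (D : ℝ) ^ 2 ≤ (t ^ 4) ^ 2 := pow_le_pow_left₀ (by positivity) hDle 2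
      _ = t ^ 8 := by ring
  have hDsq2 : t ^ 8 / 4 ≤ (D : ℝ) ^ 2 := by
    have : t ^ 4 / 2 ≤ D := by linarith
    calc t ^ 8 / 4 = (t ^ 4 / 2) ^ 2 := by ring
      _ ≤ _ := pow_le_pow_left₀ (by positivity) this 2
  -- A, X
  set A := t ^ (97/100 : ℝ) with hA
  set X := t ^ (49/50 : ℝ) with hX
  have hA1 : 1 ≤ A := Real.one_le_rpow ht1 (by norm_num)
  have hX1 : 1 ≤ X := Real.one_le_rpow ht1 (by norm_num)
  have hXA : X = A * t ^ (1/100 : ℝ) := by
    rw [hX, hA, ← Real.rpow_add ht0]; norm_num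
  have htX : t = X * t ^ (1/50 : ℝ) := by
    nth_rewrite 1 [← Real.rpow_one t]
    rw [hX, ← Real.rpow_add ht0]; norm_num
  have hL2 : 160000 * L ^ 2 ≤ t ^ (1/100 : ℝ) := by
    have e : (t ^ (1/200 : ℝ)) ^ 2 = t ^ (1/100 : ℝ) := by
      rw [← Real.rpow_natCast, ← Real.rpow_mul ht0.le]; norm_num
    rw [← e]
    calc 160000 * L ^ 2 = (400 * L) ^ 2 := by ring
      _ ≤ _ := pow_le_pow_left₀ (by positivity) h7 2
  have hL2' : 1 ≤ L ^ 2 := one_le_pow₀ hL1
  have hALX : 160000 * (A * L ^ 2) ≤ X := by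
    rw [hXA]
    calc 160000 * (A * L ^ 2) = A * (160000 * L ^ 2) := by ring
      _ ≤ _ := mul_le_mul_of_nonneg_left hL2 (by linarith)
  have hLX : 160000 * L ≤ X := by
    have : L ≤ A * L ^ 2 := by
      calc L ≤ L ^ 2 := by rw [pow_two]; exact le_mul_of_one_le_left (by linarith) hL1
        _ = 1 * L ^ 2 := by ring
        _ ≤ A * L ^ 2 := mul_le_mul_of_nonneg_right hA1 (by positivity)
    linarith
  have hX2 : 160000 ≤ X := by linarith
  have ht100 : 160000 ≤ t ^ (1/100 : ℝ) := by linarith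
  have ht50 : t ^ (1/100 : ℝ) ≤ t ^ (1/50 : ℝ) :=
    Real.rpow_le_rpow_of_exponent_le ht1 (by norm_num)
  have htX' : 160000 * X ≤ t := by
    rw [htX]
    have : X * 160000 ≤ X * t ^ (1/50 : ℝ) := mul_le_mul_of_nonneg_left (by linarith) (by linarith)
    rw [← hX] at *
    linarith
  -- m
  have hm1 : 5 * A * L ≤ m := by rw [hm]; exact Nat.le_ceil _
  have hm2 : (m : ℝ) ≤ 6 * A * L := by
    have : (m : ℝ) < 5 * A * L + 1 := by rw [hm]; exact Nat.ceil_lt_add_one (by positivity)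
    have h1' := mul_le_mul hA1 hL1 zero_le_one (by linarith : (0:ℝ) ≤ A)
    linarith
  have hmpos : (1 : ℝ) ≤ m := by
    have h1' := mul_le_mul hA1 hL1 zero_le_one (by linarith : (0:ℝ) ≤ A)
    linarith
  have hm1n : 1 ≤ m := by exact_mod_cast hmpos
  have hmL : 24000 * (m * L) ≤ X := by
    have h1' : (m:ℝ) * L ≤ 6 * A * L * L := mul_le_mul_of_nonneg_right hm2 (by linarith)
    have h2' : 6 * A * L * L = 6 * (A * L ^ 2) := by ring
    linarith
  have hs0 : 0 < s := lt_of_lt_of_le (by positivity) hs1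
  have h2e : (2:ℝ) ≤ Real.exp L := by rw [hexpL]; linarith
  have h2e1 : (2:ℝ) ≤ Real.exp 1 := by linarith [Real.add_one_le_exp (1:ℝ)]
  have h4e2 : (4:ℝ) ≤ Real.exp 2 := by
    have : Real.exp 2 = Real.exp 1 * Real.exp 1 := by rw [← Real.exp_add]; norm_num
    rw [this]
    have h1' := mul_le_mul h2e1 h2e1 (by norm_num) (Real.exp_pos _).le
    linarith
  have ht8 : t ^ 8 = Real.exp (8 * L) := by rw [htn]; norm_num
  have ht4' : t ^ 4 = Real.exp (4 * L) := by rw [htn]; norm_num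
  have hDexp : (D:ℝ) ≤ Real.exp (4 * L) := by rw [← ht4']; exact hDle
  -- nbd
  have hnbd1 : ((D : ℝ) ^ 2 + 1) ≤ Real.exp (9 * L) := by
    have h3e : 1 ≤ Real.exp (8 * L) := Real.one_le_exp (by positivity)
    calc (D : ℝ) ^ 2 + 1 ≤ Real.exp (8 * L) + Real.exp (8 * L) := by
          rw [← ht8] at *; linarith
      _ = 2 * Real.exp (8 * L) := by ring
      _ ≤ Real.exp L * Real.exp (8 * L) := mul_le_mul_of_nonneg_right h2e (Real.exp_pos _).le
      _ = Real.exp (9 * L) := by rw [← Real.exp_add]; ring_nf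
  set P : ℝ := (nbd D m : ℝ) with hP
  have hPeq : P = ((D : ℝ) ^ 2 + 1) ^ (2 * (4 * m)) := by
    rw [hP]; unfold nbd; push_cast; rfl
  have hPle : P ≤ Real.exp (X / 300) := by
    rw [hPeq]
    calc ((D : ℝ) ^ 2 + 1) ^ (2 * (4 * m)) ≤ (Real.exp (9 * L)) ^ (2 * (4 * m)) :=
          pow_le_pow_left₀ (by positivity) hnbd1 _
      _ = Real.exp (72 * (m * L)) := by
          rw [← Real.exp_nat_mul]; push_cast; ring_nf
      _ ≤ Real.exp (X / 300) := by
          apply Real.exp_le_exp.mpr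
          linarith
  have hPge : t ^ 8 / 4 ≤ P := by
    rw [hPeq]
    calc t ^ 8 / 4 ≤ (D:ℝ) ^ 2 := hDsq2
      _ ≤ ((D : ℝ) ^ 2 + 1) ^ 1 := by rw [pow_one]; linarith
      _ ≤ ((D : ℝ) ^ 2 + 1) ^ (2 * (4 * m)) :=
          pow_le_pow_right₀ (by linarith [sq_nonneg (D:ℝ)]) (by omega)
  have ht28 : t ^ 2 ≤ t ^ 8 := pow_le_pow_right₀ ht1 (by norm_num)
  have ht22 : 1000 * t ≤ t ^ 2 := by
    rw [pow_two]; exact mul_le_mul_of_nonneg_right h10 ht0.le
  have hP0 : 0 ≤ P := by rw [hP]; positivity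
  have hPt : t + 2 ≤ P := by linarith
  have hPn : ∀ n : ℕ, P ^ n ≤ Real.exp (n * (X / 300)) := by
    intro n
    rw [Real.exp_nat_mul]
    exact pow_le_pow_left₀ hP0 hPle n
  -- del
  have hdel : del M t m ≤ Real.exp (2 - t) := by
    unfold del
    have t4 : Real.exp (-((1 / (2 * t ^ 3)) ^ 2 * Real.exp (4 * t ^ (-(97/100) : ℝ) * m) /
        (16 * M ^ 2))) ≤ Real.exp (-t) := by
      apply Real.exp_le_exp.mpr
      have f0 : t ^ (-(97/100) : ℝ) * A = 1 := by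
        rw [hA, ← Real.rpow_add ht0]; norm_num
      have f1 : 20 * L ≤ 4 * t ^ (-(97/100) : ℝ) * m := by
        calc 20 * L = 4 * (t ^ (-(97/100) : ℝ) * A) * (5 * L) := by rw [f0]; ring
          _ = 4 * t ^ (-(97/100) : ℝ) * (5 * A * L) := by ring
          _ ≤ 4 * t ^ (-(97/100) : ℝ) * m := mul_le_mul_of_nonneg_left hm1 (by positivity)
      have f2 : t ^ 20 ≤ Real.exp (4 * t ^ (-(97/100) : ℝ) * m) := by
        rw [htn 20]; exact Real.exp_le_exp.mpr (by push_cast; exact f1)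
      have f3 : t ≤ (1 / (2 * t ^ 3)) ^ 2 * t ^ 20 / (16 * M ^ 2) := by
        rw [le_div_iff₀ (by positivity)]
        have g1 : (1 / (2 * t ^ 3)) ^ 2 * t ^ 20 = t ^ 14 / 4 := by field_simp; ring
        rw [g1]
        have g2 : t * (64 * M ^ 2) ≤ t * t := mul_le_mul_of_nonneg_left h2 ht0.le
        have g3 : t * t ≤ t ^ 14 := by
          calc t * t = t ^ 2 := by ring
            _ ≤ t ^ 14 := pow_le_pow_right₀ ht1 (by norm_num)
        linarith
      have f4 : (1 / (2 * t ^ 3)) ^ 2 * t ^ 20 / (16 * M ^ 2)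
          ≤ (1 / (2 * t ^ 3)) ^ 2 * Real.exp (4 * t ^ (-(97/100) : ℝ) * m) / (16 * M ^ 2) := by
        apply div_le_div_of_nonneg_right _ (by positivity)
        exact mul_le_mul_of_nonneg_left f2 (by positivity)
      linarith
    have e : Real.exp (2 - t) = Real.exp 2 * Real.exp (-t) := by
      rw [← Real.exp_add]; ring_nf
    rw [e]
    have := mul_le_mul_of_nonneg_right h4e2 (Real.exp_pos (-t)).le
    linarith
  have hdel0 : 0 ≤ del M t m := by unfold del; positivity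
  have h25 : t ^ (-(1/4) : ℝ) = (t ^ (1/4 : ℝ))⁻¹ := by
    rw [Real.rpow_neg ht0.le]
  have h14 : 1000 ≤ t ^ (1/4 : ℝ) := by
    calc (1000 : ℝ) = ((10:ℝ) ^ 12) ^ (1/4 : ℝ) := by
          rw [← Real.rpow_natCast, ← Real.rpow_mul (by norm_num)]
          rw [show (((12 : ℕ) : ℝ) * (1/4)) = ((3 : ℕ) : ℝ) by norm_num, Real.rpow_natCast]
          norm_num
      _ ≤ t ^ (1/4 : ℝ) := Real.rpow_le_rpow (by norm_num) h1 (by norm_num)
  have h504 : (t ^ (1/50 : ℝ)) ^ 4 = t ^ (2/25 : ℝ) := by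
    rw [← Real.rpow_natCast, ← Real.rpow_mul ht0.le]; norm_num
  have h502 : (t ^ (1/50 : ℝ)) ^ 2 = t ^ (1/25 : ℝ) := by
    rw [← Real.rpow_natCast, ← Real.rpow_mul ht0.le]; norm_num
  have hst : X * t ^ (1/100 : ℝ) ≤ s * t := by
    have : X * t ^ (1/100 : ℝ) = t ^ (-(1/100) : ℝ) * t := by
      nth_rewrite 3 [← Real.rpow_one t]
      rw [hX, ← Real.rpow_add ht0, ← Real.rpow_add ht0]; norm_num
    rw [this]
    exact mul_le_mul_of_nonneg_right hs1 ht0.le
  refine ⟨⟨h10, hm1n, ?_, h3, ?_, ?_, ?_, ?_, ?_⟩, ?_, ?_, ?_, ?_, ?_, ?_, hX1, hL1, by linarith⟩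
  · -- (3)
    rw [h25]
    rw [show (1/1000 : ℝ) = (1000 : ℝ)⁻¹ by norm_num]
    exact inv_anti₀ (by norm_num) h14
  · -- (5)
    rw [← Real.rpow_neg ht0.le]
    exact Real.rpow_le_rpow_of_exponent_le ht1 (by norm_num)
  · -- (6)
    exact Real.rpow_le_one_of_one_le_of_nonpos ht1 (by norm_num)
  · -- (7)
    rw [h504]
    have hs' : t ^ (9/5 : ℝ) / s ≤ t ^ (9/5 : ℝ) * t ^ (1/100 : ℝ) := by
      rw [div_le_iff₀ hs0, mul_assoc]
      have : t ^ (1/100 : ℝ) * t ^ (-(1/100) : ℝ) = 1 := by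
        rw [← Real.rpow_add ht0]; norm_num
      have h1' : 1 ≤ t ^ (1/100 : ℝ) * s :=
        this.symm.le.trans (mul_le_mul_of_nonneg_left hs1 (by positivity))
      exact le_mul_of_one_le_right (by positivity) h1'
    have e2 : 8 * (t ^ (-(97/100) : ℝ)) ^ 2 * t ^ (2/25 : ℝ) * (t ^ (9/5 : ℝ) / s)
        ≤ 8 * (t ^ (-(97/100) : ℝ)) ^ 2 * t ^ (2/25 : ℝ) * (t ^ (9/5 : ℝ) * t ^ (1/100 : ℝ)) :=
      mul_le_mul_of_nonneg_left hs' (by positivity)
    refine e2.trans ?_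
    have e3 : (t ^ (-(97/100) : ℝ)) ^ 2 = t ^ (-(97/50) : ℝ) := by
      rw [← Real.rpow_natCast, ← Real.rpow_mul ht0.le]; norm_num
    rw [e3]
    have e4 : 8 * t ^ (-(97/50) : ℝ) * t ^ (2/25 : ℝ) * (t ^ (9/5 : ℝ) * t ^ (1/100 : ℝ))
        = 8 * t ^ (-(1/20) : ℝ) := by
      rw [← Real.rpow_add ht0, mul_assoc, mul_assoc, ← Real.rpow_add ht0, ← Real.rpow_add ht0]
      norm_num
    rw [e4, Real.rpow_neg ht0.le]
    have hp : 0 < t ^ (1/20 : ℝ) := by positivity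
    rw [← div_eq_mul_inv, div_le_one hp]
    exact h4
  · -- (8)
    rw [h502]
    have e1 : (2 * (D : ℝ) ^ 2) ≤ Real.exp (9 * L) := by
      calc 2 * (D : ℝ) ^ 2 ≤ Real.exp L * Real.exp (8 * L) := by
            rw [← ht8]
            exact mul_le_mul h2e hDsq (by positivity) (Real.exp_pos _).le
        _ = Real.exp (9 * L) := by rw [← Real.exp_add]; ring_nf
    have e2 : (2 * (D : ℝ) ^ 2) ^ (4 * m) ≤ Real.exp (36 * m * L) := by
      calc (2 * (D : ℝ) ^ 2) ^ (4 * m) ≤ (Real.exp (9 * L)) ^ (4 * m) :=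
            pow_le_pow_left₀ (by positivity) e1 _
        _ = Real.exp (36 * m * L) := by
            rw [← Real.exp_nat_mul]; push_cast; ring_nf
    have e3 : (2 * (D : ℝ) ^ 2) ^ (4 * m) * Real.exp (-(m : ℝ) * t ^ (1/25 : ℝ) / (4 * M ^ 2))
        ≤ Real.exp (36 * m * L) * Real.exp (-(m : ℝ) * t ^ (1/25 : ℝ) / (4 * M ^ 2)) :=
      mul_le_mul_of_nonneg_right e2 (Real.exp_pos _).le
    refine e3.trans ?_
    rw [← Real.exp_add, ← Real.exp_nat_mul]
    apply Real.exp_le_exp.mpr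
    have e4 : 36 * L ≤ t ^ (1/25 : ℝ) / (8 * M ^ 2) := by
      rw [le_div_iff₀ (by positivity)]
      have : 36 * L * (8 * M ^ 2) = 288 * M ^ 2 * L := by ring
      rw [this]; exact h5
    have e5 : 2 * t ≤ m * (t ^ (1/25 : ℝ) / (8 * M ^ 2)) := by
      have f1 : A ≤ m := by
        have h1' := mul_le_mul_of_nonneg_left hL1 (by linarith : (0:ℝ) ≤ A)
        linarith
      have f2 : A * t ^ (1/25 : ℝ) = t * t ^ (1/100 : ℝ) := by
        nth_rewrite 2 [← Real.rpow_one t]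
        rw [hA, ← Real.rpow_add ht0, ← Real.rpow_add ht0]; norm_num
      have f3 : t * t ^ (1/100 : ℝ) ≤ m * t ^ (1/25 : ℝ) := by
        rw [← f2]; exact mul_le_mul_of_nonneg_right f1 (by positivity)
      have f4 : t * (16 * M ^ 2) ≤ t * t ^ (1/100 : ℝ) := mul_le_mul_of_nonneg_left h6 ht0.le
      rw [← mul_div_assoc, le_div_iff₀ (by positivity)]
      have f5 : 2 * t * (8 * M ^ 2) = t * (16 * M ^ 2) := by ring
      rw [f5]; exact f4.trans f3
    have e6 : -(m : ℝ) * t ^ (1/25 : ℝ) / (4 * M ^ 2) = -2 * (m * (t ^ (1/25 : ℝ) / (8 * M ^ 2))) := by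
      field_simp
      ring
    rw [e6]
    have e7 : 36 * (m:ℝ) * L ≤ m * (t ^ (1/25 : ℝ) / (8 * M ^ 2)) := by
      calc 36 * (m:ℝ) * L = m * (36 * L) := by ring
        _ ≤ _ := mul_le_mul_of_nonneg_left e4 (by linarith)
    push_cast
    linarith
  · -- (9)
    have e1 : 4 * t ^ 3 ≤ Real.exp t := by
      have : 4 * t ^ 3 ≤ Real.exp (2 + 3 * L) := by
        rw [Real.exp_add, show Real.exp (3 * L) = t ^ 3 by rw [htn]; norm_num]
        exact mul_le_mul_of_nonneg_right h4e2 (by positivity)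
      refine this.trans (Real.exp_le_exp.mpr ?_)
      linarith
    have e2 : 2 * Real.exp (-t) ≤ 1 / (2 * t ^ 3) := by
      rw [Real.exp_neg, le_div_iff₀ (by positivity)]
      rw [show 2 * (Real.exp t)⁻¹ * (2 * t ^ 3) = (4 * t ^ 3) / Real.exp t by field_simp; ring]
      rw [div_le_one (Real.exp_pos _)]
      exact e1
    have e3 : 1 / t ^ 3 = 1 / (2 * t ^ 3) + 1 / (2 * t ^ 3) := by field_simp; ring
    rw [e3]; linarith
  · -- (10)
    have e0 : ((t ^ (-(1/4) : ℝ))⁻¹) ^ 4 = t := by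
      rw [h25, inv_inv, ← Real.rpow_natCast, ← Real.rpow_mul ht0.le]; norm_num
    rw [e0]
    have t1 : Real.exp (-(c * (s * t))) ≤ Real.exp (-(3 * X)) := by
      apply Real.exp_le_exp.mpr
      have g1 : 3 ≤ c * t ^ (1/100 : ℝ) := by
        rw [div_le_iff₀ hc] at h8; linarith
      have g2 : 3 * X ≤ c * (X * t ^ (1/100 : ℝ)) := by
        calc 3 * X ≤ (c * t ^ (1/100 : ℝ)) * X := mul_le_mul_of_nonneg_right g1 (by linarith)
          _ = _ := by ring
      have g3 : c * (X * t ^ (1/100 : ℝ)) ≤ c * (s * t) := mul_le_mul_of_nonneg_left hst hc.le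
      linarith
    have t2 : Real.exp (-(t / M ^ 2)) ≤ Real.exp (-(3 * X)) := by
      apply Real.exp_le_exp.mpr
      have : 3 * X ≤ t / M ^ 2 := by
        rw [le_div_iff₀ hM2]
        have g : X * (16 * M ^ 2) ≤ X * t ^ (1/50 : ℝ) :=
          mul_le_mul_of_nonneg_left (h6.trans ht50) (by linarith)
        rw [← htX] at g
        have g' : 3 * X * M ^ 2 ≤ X * (16 * M ^ 2) := by
          have : 3 * X * M ^ 2 = X * (3 * M ^ 2) := by ring
          rw [this]
          exact mul_le_mul_of_nonneg_left (by linarith) (by linarith)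
        exact g'.trans g
      linarith
    have t3 : (D : ℝ) * del M t m ≤ Real.exp (-(3 * X)) := by
      calc (D : ℝ) * del M t m ≤ Real.exp (4 * L) * Real.exp (2 - t) :=
            mul_le_mul hDexp hdel hdel0 (Real.exp_pos _).le
        _ = Real.exp (4 * L + (2 - t)) := by rw [← Real.exp_add]
        _ ≤ _ := by
            apply Real.exp_le_exp.mpr
            linarith
    have e4 : Real.exp (2 - 3 * X) = Real.exp 2 * Real.exp (-(3 * X)) := by
      rw [← Real.exp_add]; ring_nf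
    have e5 : Real.exp (2 - 3 * X) ≤ Real.exp (-(2 * X)) := by
      apply Real.exp_le_exp.mpr
      linarith
    have e6 := mul_le_mul_of_nonneg_right h4e2 (Real.exp_pos (-(3 * X))).le
    linarith
  · -- (11)
    have e1 : t ^ 4 * P ^ 8 * del M t m ≤
        Real.exp (4 * L) * Real.exp (((8:ℕ):ℝ) * (X / 300)) * Real.exp (2 - t) := by
      rw [ht4']
      apply mul_le_mul _ hdel hdel0 (by positivity)
      exact mul_le_mul_of_nonneg_left (hPn 8) (Real.exp_pos _).le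
    refine e1.trans ?_
    rw [← Real.exp_add, ← Real.exp_add]
    have e2 : Real.exp (-(2 * X) - 1) ≤ Real.exp (-(2 * X)) / 2 := by
      rw [le_div_iff₀ (by norm_num)]
      have : Real.exp (-(2 * X)) = Real.exp (-(2 * X) - 1) * Real.exp 1 := by
        rw [← Real.exp_add]; ring_nf
      rw [this]
      exact mul_le_mul_of_nonneg_left h2e1 (Real.exp_pos _).le
    refine le_trans (Real.exp_le_exp.mpr ?_) e2
    push_cast
    linarith
  · -- (12)
    have e1 : 2 * X + 2 ≤ t / (16 * M ^ 2 * L ^ 2) := by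
      rw [le_div_iff₀ (by positivity)]
      have g1 : (8 * M * L) ^ 2 ≤ (t ^ (1/100 : ℝ)) ^ 2 := pow_le_pow_left₀ (by positivity) h9 2
      have g2 : (t ^ (1/100 : ℝ)) ^ 2 = t ^ (1/50 : ℝ) := by
        rw [← Real.rpow_natCast, ← Real.rpow_mul ht0.le]; norm_num
      rw [g2] at g1
      have g3 : X * (8 * M * L) ^ 2 ≤ X * t ^ (1/50 : ℝ) :=
        mul_le_mul_of_nonneg_left g1 (by linarith)
      rw [← htX] at g3
      have g4 : (2 * X + 2) * (16 * M ^ 2 * L ^ 2) ≤ (4 * X) * (16 * M ^ 2 * L ^ 2) :=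
        mul_le_mul_of_nonneg_right (by linarith) (by positivity)
      calc (2 * X + 2) * (16 * M ^ 2 * L ^ 2) ≤ (4 * X) * (16 * M ^ 2 * L ^ 2) := g4
        _ = X * (8 * M * L) ^ 2 := by ring
        _ ≤ t := g3
    have e2 : Real.exp (-(t / (16 * M ^ 2 * L ^ 2))) ≤ Real.exp (-(2 * X) - 2) := by
      apply Real.exp_le_exp.mpr
      linarith
    have e3 : Real.exp (-(2 * X)) = Real.exp (-(2 * X) - 2) * Real.exp 2 := by
      rw [← Real.exp_add]; ring_nf
    have e4 := mul_le_mul_of_nonneg_left h4e2 (Real.exp_pos (-(2 * X) - 2)).le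
    rw [← e3] at e4
    linarith
  · -- (13)
    have e1 : 4 * t ^ 8 * P ^ 17 * Real.exp (-X) ≤
        Real.exp 2 * Real.exp (8 * L) * Real.exp (((17:ℕ):ℝ) * (X / 300)) * Real.exp (-X) := by
      rw [ht8]
      apply mul_le_mul_of_nonneg_right _ (Real.exp_pos _).le
      apply mul_le_mul _ (hPn 17) (by positivity) (by positivity)
      exact mul_le_mul_of_nonneg_right h4e2 (Real.exp_pos _).le
    refine e1.trans ?_
    rw [← Real.exp_add, ← Real.exp_add, ← Real.exp_add]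
    rw [Real.exp_le_one_iff]
    push_cast
    linarith
  · -- (14)
    refine le_trans ?_ hPge
    have g1 : 12 * M ^ 2 ≤ t := by linarith
    have g2 : L ^ 2 ≤ t ^ 2 := pow_le_pow_left₀ (by linarith) (by linarith) 2
    have g3 : 12 * M ^ 2 * t ^ 4 * L ^ 2 ≤ t * t ^ 4 * t ^ 2 := by
      apply mul_le_mul _ g2 (by positivity) (by positivity)
      exact mul_le_mul_of_nonneg_right g1 (by positivity)
    have g4 : t * t ^ 4 * t ^ 2 * 4 ≤ t ^ 8 := by
      calc t * t ^ 4 * t ^ 2 * 4 = t ^ 7 * 4 := by ring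
        _ ≤ t ^ 7 * t := mul_le_mul_of_nonneg_left (by linarith) (by positivity)
        _ = t ^ 8 := by ring
    linarith
  · -- (15)
    have h1' : P * 1 ≤ P * P := mul_le_mul_of_nonneg_left (by linarith) hP0
    rw [pow_two]
    linarith

end Pool.Agent.R959.LD2
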