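import Pool.Agent.R959.LD2.Chain2
import Pool.Agent.R959.LD2.PARAM2

set_option autoImplicit false

namespace Pool.Agent.R959.LD2

/-- Real matrices with entries at most one, columns of `l1` norm at most `t`, rows of `l1` norm at
most `k`. -/
theorem real_main : St_REAL := chain2 prove_PARAM2

end Pool.Agent.R959.LD2
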