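import Pool.Agent.R959.LD2.DEPW

set_option autoImplicit false
set_option linter.unusedSectionVars false

/-!
# Extra rows: probabilities and weights
-/

open MeasureTheory ProbabilityTheory

namespace Pool.Agent.R959.LD2

open Pool.Agent.H320R2.LD Pool.Agent.H320R2.LD.PHASE

noncomputable section

section
variable {V : Type} [Fintype V]

theorem sum_sq_supp (Tr : V → ℝ) (τ : ℝ) (hτ0 : 0 < τ) (hTr : ∀ v, Tr v ≠ 0 → |Tr v| = τ) :
    ∑ v, Tr v ^ 2 = ((supp Tr).card : ℝ) * τ ^ 2 := by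
  classical
  have h1 : ∑ v, Tr v ^ 2 = ∑ v ∈ supp Tr, Tr v ^ 2 := by
    symm
    refine Finset.sum_subset (Finset.subset_univ _) fun v _ hv => ?_
    rw [mem_supp, not_not] at hv
    rw [hv]; norm_num
  rw [h1]
  calc ∑ v ∈ supp Tr, Tr v ^ 2 = ∑ _v ∈ supp Tr, τ ^ 2 := by
        refine Finset.sum_congr rfl fun v hv => ?_
        rw [← sq_abs, hTr v ((mem_supp _ _).mp hv)]
    _ = _ := by rw [Finset.sum_const, nsmul_eq_mul]

theorem lin_odd (z : (V → ℝ) → (V → ℝ)) (hodd : ∀ y, z (-y) = - z y) (M : ℝ) (c : V → ℝ)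
    (g : V → ℝ) : ∑ v, c v * z (M • (-g)) v = - ∑ v, c v * z (M • g) v := by
  rw [← Finset.sum_neg_distrib]
  refine Finset.sum_congr rfl fun v _ => ?_
  rw [smul_neg, hodd]
  simp

theorem rowA (hCONC : St_CONC) (hMOM : St_MOM) (z : (V → ℝ) → (V → ℝ)) (M : ℝ) (hM : 0 < M)
    (hlip : ∀ y y', nrm (z y' - z y) ≤ nrm (y' - y)) (hodd : ∀ y, z (-y) = - z y)
    (X : V → (V → ℝ) → ℝ) (Tr rr : V → ℝ) (hrr : ∀ v, 0 ≤ rr v ∧ rr v ≤ 1)
    (τ : ℝ) (hτ0 : 0 < τ) (hTr : ∀ v, Tr v ≠ 0 → |Tr v| = τ) (B L t lt δ : ℝ) (hB : 0 < B)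
    (h1 : (∑ v, Tr v ^ 2) * Real.sqrt (L * t) ≤ B ^ 2)
    (h2 : (∑ v, Tr v ^ 2) * ((supp Tr).card : ℝ) ≤ t ^ 4 * B ^ 2) (hL : t ≤ L)
    (ht : 1000 ≤ t) (hlt1 : 1 ≤ lt) (hlt2 : 2 * lt ≤ t) (hδ : 0 ≤ δ)
    (hloc : ∀ v, (gam V).real {g | 1 / t ^ 3 < |X v g - z (M • g) v|} ≤ δ) :
    (gam V).real {g | B / lt < |∑ v, (Tr v * rr v) * X v g|} ≤
      2 * Real.exp (-(t / (16 * M ^ 2 * lt ^ 2))) + ((supp Tr).card : ℝ) * δ := by
  classical
  have ht0 : 0 < t := by linarith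
  have hlt0 : 0 < lt := by linarith
  set N : ℝ := ((supp Tr).card : ℝ) with hN
  have hN0 : 0 ≤ N := Nat.cast_nonneg _
  have hsq := sum_sq_supp Tr τ hτ0 hTr
  rw [← hN] at hsq
  have hTr0 : ∀ v, v ∉ supp Tr → Tr v = 0 := fun v hv => by
    rw [mem_supp, not_not] at hv; exact hv
  by_cases hNz : (supp Tr).card = 0
  · have hempty : {g : V → ℝ | B / lt < |∑ v, (Tr v * rr v) * X v g|} = ∅ := by
      ext g
      simp only [Set.mem_ofPred_eq, Set.mem_empty_iff_false, iff_false, not_lt]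
      have h3 : ∀ v, Tr v = 0 := fun v => by
        refine hTr0 v ?_
        rw [Finset.card_eq_zero] at hNz
        rw [hNz]; exact Finset.notMem_empty v
      have h4 : ∑ v, (Tr v * rr v) * X v g = 0 :=
        Finset.sum_eq_zero fun v _ => by rw [h3 v]; ring
      rw [h4, abs_zero]
      positivity
    rw [hempty, measureReal_empty]
    positivity
  have hN1 : 1 ≤ N := by
    rw [hN]; exact_mod_cast Nat.one_le_iff_ne_zero.mpr hNz
  set S2 : ℝ := ∑ v, Tr v ^ 2 with hS2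
  have hS20 : 0 < S2 := by rw [hsq]; positivity
  set σ : ℝ := Real.sqrt S2 with hσ
  have hσ0 : 0 < σ := Real.sqrt_pos.mpr hS20
  have hσ2 : σ ^ 2 = S2 := Real.sq_sqrt hS20.le
  set f : (V → ℝ) → ℝ := fun g => ∑ v, (Tr v * rr v) * z (M • g) v with hf
  have hcsq : ∑ v, (Tr v * rr v) ^ 2 ≤ σ ^ 2 := by
    rw [hσ2, hS2]
    refine Finset.sum_le_sum fun v _ => ?_
    rw [mul_pow]
    have h3 := hrr v
    exact mul_le_of_le_one_right (sq_nonneg _) (pow_le_one₀ h3.1 h3.2)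
  have hflip : Lip (σ * M) f := by
    intro x y
    have h3 : f x - f y = ∑ v, (Tr v * rr v) * (z (M • x) - z (M • y)) v := by
      rw [hf]
      simp only
      rw [← Finset.sum_sub_distrib]
      refine Finset.sum_congr rfl fun v _ => ?_
      simp only [Pi.sub_apply]; ring
    rw [h3]
    refine (abs_sum_mul_le _ _ σ hσ0.le hcsq).trans ?_
    rw [mul_assoc]
    refine mul_le_mul_of_nonneg_left ?_ hσ0.le
    refine (hlip (M • y) (M • x)).trans ?_
    rw [← smul_sub, nrm_smul, abs_of_pos hM]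
  have hfodd : ∀ x, f (-x) = - f x := fun x => lin_odd z hodd M _ x
  have htail := odd_tail hCONC hMOM f (σ * M) (by positivity) hflip hfodd (B / (2 * lt))
    (by positivity)
  have hNτ : N * τ ≤ t ^ 2 * B := by
    have h3 : (N * τ) ^ 2 ≤ (t ^ 2 * B) ^ 2 := by
      calc (N * τ) ^ 2 = S2 * N := by rw [hsq]; ring
        _ ≤ t ^ 4 * B ^ 2 := h2
        _ = (t ^ 2 * B) ^ 2 := by ring
    exact (sq_le_sq₀ (by positivity) (by positivity)).mp h3
  have hsub : {g | B / lt < |∑ v, (Tr v * rr v) * X v g|} ⊆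
      {g | B / (2 * lt) < |f g|} ∪ ⋃ v ∈ supp Tr, {g | 1 / t ^ 3 < |X v g - z (M • g) v|} := by
    intro g hg
    by_contra hng
    rw [Set.mem_union, not_or] at hng
    obtain ⟨h3, h4⟩ := hng
    have h3' : |f g| ≤ B / (2 * lt) := not_lt.mp h3
    have h5 : ∀ v ∈ supp Tr, |X v g - z (M • g) v| ≤ 1 / t ^ 3 := by
      intro v hv
      by_contra h6
      exact h4 (Set.mem_iUnion₂.mpr ⟨v, hv, not_le.mp h6⟩)
    have h6 : |(∑ v, (Tr v * rr v) * X v g) - f g| ≤ N * (τ * (1 / t ^ 3)) := by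
      rw [hf]
      simp only
      rw [← Finset.sum_sub_distrib]
      refine (Finset.abs_sum_le_sum_abs _ _).trans ?_
      calc ∑ v, |Tr v * rr v * X v g - Tr v * rr v * z (M • g) v|
          = ∑ v ∈ supp Tr, |Tr v * rr v * X v g - Tr v * rr v * z (M • g) v| := by
            symm
            refine Finset.sum_subset (Finset.subset_univ _) fun v _ hv => ?_
            rw [hTr0 v hv]; simp
        _ ≤ ∑ _v ∈ supp Tr, τ * (1 / t ^ 3) := by
            refine Finset.sum_le_sum fun v hv => ?_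
            rw [← mul_sub, abs_mul, abs_mul, hTr v ((mem_supp _ _).mp hv),
              abs_of_nonneg (hrr v).1]
            have h7 := h5 v hv
            have h8 := (hrr v).2
            have h9 := (hrr v).1
            calc τ * rr v * |X v g - z (M • g) v| ≤ τ * 1 * (1 / t ^ 3) := by
                  refine mul_le_mul ?_ h7 (abs_nonneg _) (by positivity)
                  exact mul_le_mul_of_nonneg_left h8 hτ0.le
              _ = τ * (1 / t ^ 3) := by ring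
        _ = N * (τ * (1 / t ^ 3)) := by rw [Finset.sum_const, nsmul_eq_mul]
    have h7 : N * (τ * (1 / t ^ 3)) ≤ B / (2 * lt) := by
      calc N * (τ * (1 / t ^ 3)) = (N * τ) / t ^ 3 := by ring
        _ ≤ (t ^ 2 * B) / t ^ 3 := by gcongr
        _ = B / t := by field_simp
        _ ≤ B / (2 * lt) := div_le_div_of_nonneg_left hB.le (by positivity) hlt2
    have h8 := abs_sub_abs_le_abs_sub (∑ v, (Tr v * rr v) * X v g) (f g)
    have h9 : B / lt < |∑ v, (Tr v * rr v) * X v g| := hg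
    have h10 : B / (2 * lt) + B / (2 * lt) = B / lt := by field_simp; ring
    linarith
  have hexp : 2 * Real.exp (-((B / (2 * lt)) ^ 2 / (4 * (σ * M) ^ 2))) ≤
      2 * Real.exp (-(t / (16 * M ^ 2 * lt ^ 2))) := by
    refine mul_le_mul_of_nonneg_left (Real.exp_le_exp.mpr (neg_le_neg ?_)) (by norm_num)
    have h3 : (B / (2 * lt)) ^ 2 / (4 * (σ * M) ^ 2) = B ^ 2 / S2 / (16 * M ^ 2 * lt ^ 2) := by
      rw [← hσ2]
      field_simp
      ring
    rw [h3]
    refine div_le_div_of_nonneg_right ?_ (by positivity)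
    rw [le_div_iff₀ hS20]
    have h4 : t ≤ Real.sqrt (L * t) := by
      rw [Real.le_sqrt' ht0]
      nlinarith
    calc t * S2 ≤ Real.sqrt (L * t) * S2 := mul_le_mul_of_nonneg_right h4 hS20.le
      _ = S2 * Real.sqrt (L * t) := mul_comm _ _
      _ ≤ B ^ 2 := h1
  calc (gam V).real {g | B / lt < |∑ v, (Tr v * rr v) * X v g|}
      ≤ (gam V).real ({g | B / (2 * lt) < |f g|} ∪
        ⋃ v ∈ supp Tr, {g | 1 / t ^ 3 < |X v g - z (M • g) v|}) := measureReal_mono hsub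
    _ ≤ (gam V).real {g | B / (2 * lt) < |f g|} +
        (gam V).real (⋃ v ∈ supp Tr, {g | 1 / t ^ 3 < |X v g - z (M • g) v|}) :=
          measureReal_union_le _ _
    _ ≤ _ := by
        refine add_le_add (htail.trans hexp) ?_
        refine (measureReal_biUnion_finset_le _ _).trans ?_
        calc ∑ v ∈ supp Tr, (gam V).real {g | 1 / t ^ 3 < |X v g - z (M • g) v|}
            ≤ ∑ _v ∈ supp Tr, δ := Finset.sum_le_sum fun v _ => hloc v
          _ = N * δ := by rw [Finset.sum_const, nsmul_eq_mul]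

open Classical in
theorem rowB (hCONC : St_CONC) (hMOM : St_MOM) (M : ℝ) (hM : 0 < M)
    (X : V → (V → ℝ) → ℝ) (hX : ∀ v, Lip M (X v)) (hXodd : ∀ v x, X v (-x) = - X v x)
    (Bv : V → Finset V) (hdep : ∀ v, ∀ x y : V → ℝ, (∀ u ∈ Bv v, x u = y u) → X v x = X v y)
    (Nb : ℝ) (hNb : ∀ u, ((Finset.univ.filter (fun v => u ∈ Bv v)).card : ℝ) ≤ Nb)
    (Tr rr : V → ℝ) (hrr : ∀ v, 0 ≤ rr v ∧ rr v ≤ 1)
    (τ : ℝ) (hτ0 : 0 < τ) (hTr : ∀ v, Tr v ≠ 0 → |Tr v| = τ) (B L t lt : ℝ) (hB : 0 < B)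
    (h1 : (∑ v, Tr v ^ 2) * Real.sqrt (L * t) ≤ B ^ 2)
    (h2 : (∑ v, Tr v ^ 2) * ((supp Tr).card : ℝ) ≤ t ^ 4 * B ^ 2) (hL : t ≤ L)
    (ht : 1000 ≤ t) (hlt1 : 1 ≤ lt) (hNb6 : 12 * M ^ 2 * t ^ 4 * lt ^ 2 ≤ Nb)
    (hw1 : 1 ≤ max (Real.sqrt L) ((supp Tr).card : ℝ) / Nb ^ 2) :
    (gam V).real {g | B / lt < |∑ v, (Tr v * rr v) * X v g|} ≤
      Real.exp (-(2 * (max (Real.sqrt L) ((supp Tr).card : ℝ) / Nb ^ 2))) := by
  have ht0 : 0 < t := by linarith
  have ht1 : 1 ≤ t := by linarith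
  have hlt0 : 0 < lt := by linarith
  have hNb0 : 0 < Nb := lt_of_lt_of_le (by positivity) hNb6
  set N : ℝ := ((supp Tr).card : ℝ) with hN
  have hN0 : 0 ≤ N := Nat.cast_nonneg _
  have hsq := sum_sq_supp Tr τ hτ0 hTr
  rw [← hN] at hsq
  have hTr0 : ∀ v, v ∉ supp Tr → Tr v = 0 := fun v hv => by
    rw [mem_supp, not_not] at hv; exact hv
  by_cases hNz : (supp Tr).card = 0
  · have hempty : {g : V → ℝ | B / lt < |∑ v, (Tr v * rr v) * X v g|} = ∅ := by
      ext g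
      simp only [Set.mem_ofPred_eq, Set.mem_empty_iff_false, iff_false, not_lt]
      have h3 : ∀ v, Tr v = 0 := fun v => by
        refine hTr0 v ?_
        rw [Finset.card_eq_zero] at hNz
        rw [hNz]; exact Finset.notMem_empty v
      have h4 : ∑ v, (Tr v * rr v) * X v g = 0 :=
        Finset.sum_eq_zero fun v _ => by rw [h3 v]; ring
      rw [h4, abs_zero]
      positivity
    rw [hempty, measureReal_empty]
    exact (Real.exp_pos _).le
  have hN1 : 1 ≤ N := by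
    rw [hN]; exact_mod_cast Nat.one_le_iff_ne_zero.mpr hNz
  set S2 : ℝ := ∑ v, Tr v ^ 2 with hS2
  have hS20 : 0 < S2 := by rw [hsq]; positivity
  set σ : ℝ := Real.sqrt S2 with hσ
  have hσ0 : 0 < σ := Real.sqrt_pos.mpr hS20
  have hσ2 : σ ^ 2 = S2 := Real.sq_sqrt hS20.le
  have hcsq : ∑ v, (Tr v * rr v) ^ 2 ≤ σ ^ 2 := by
    rw [hσ2, hS2]
    refine Finset.sum_le_sum fun v _ => ?_
    rw [mul_pow]
    have h3 := hrr v
    exact mul_le_of_le_one_right (sq_nonneg _) (pow_le_one₀ h3.1 h3.2)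
  have hflip := loc_lip X M hM.le hX Bv hdep Nb hNb0.le hNb (fun v => Tr v * rr v) σ hσ0.le hcsq
  have hfodd : ∀ x, ∑ v, (Tr v * rr v) * X v (-x) = - ∑ v, (Tr v * rr v) * X v x := by
    intro x
    rw [← Finset.sum_neg_distrib]
    refine Finset.sum_congr rfl fun v _ => ?_
    rw [hXodd]; ring
  have hsNb : 0 < Real.sqrt Nb := Real.sqrt_pos.mpr hNb0
  have htail := odd_tail hCONC hMOM (fun g => ∑ v, (Tr v * rr v) * X v g)
    (σ * (M * Real.sqrt Nb)) (by positivity) hflip hfodd (B / lt) (by positivity)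
  refine htail.trans ?_
  set w : ℝ := max (Real.sqrt L) N / Nb ^ 2 with hw
  have hG : max (Real.sqrt L) N ≤ t ^ 4 * (B ^ 2 / S2) := by
    refine max_le ?_ ?_
    · have h3 : Real.sqrt L ≤ Real.sqrt (L * t) := by
        refine Real.sqrt_le_sqrt ?_
        nlinarith
      have h4 : Real.sqrt (L * t) ≤ B ^ 2 / S2 := by
        rw [le_div_iff₀ hS20, mul_comm]; exact h1
      have h5 : B ^ 2 / S2 ≤ t ^ 4 * (B ^ 2 / S2) :=
        le_mul_of_one_le_left (by positivity) (one_le_pow₀ ht1)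
      linarith
    · have h3 : t ^ 4 * (B ^ 2 / S2) = (t ^ 4 * B ^ 2) / S2 := by ring
      rw [h3, le_div_iff₀ hS20, mul_comm]
      exact h2
  have h3w : 3 * w ≤ (B / lt) ^ 2 / (4 * (σ * (M * Real.sqrt Nb)) ^ 2) := by
    have e1 : (B / lt) ^ 2 / (4 * (σ * (M * Real.sqrt Nb)) ^ 2)
        = (B ^ 2 / S2) / (4 * M ^ 2 * lt ^ 2 * Nb) := by
      rw [mul_pow, mul_pow, Real.sq_sqrt hNb0.le, hσ2]
      field_simp
    rw [e1, hw, le_div_iff₀ (by positivity)]
    have e2 : 3 * (max (Real.sqrt L) N / Nb ^ 2) * (4 * M ^ 2 * lt ^ 2 * Nb)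
        = max (Real.sqrt L) N * (12 * M ^ 2 * lt ^ 2) / Nb := by
      field_simp
      ring
    rw [e2, div_le_iff₀ hNb0]
    calc max (Real.sqrt L) N * (12 * M ^ 2 * lt ^ 2)
        ≤ (t ^ 4 * (B ^ 2 / S2)) * (12 * M ^ 2 * lt ^ 2) :=
          mul_le_mul_of_nonneg_right hG (by positivity)
      _ = (B ^ 2 / S2) * (12 * M ^ 2 * t ^ 4 * lt ^ 2) := by ring
      _ ≤ (B ^ 2 / S2) * Nb := mul_le_mul_of_nonneg_left hNb6 (by positivity)
  have h2e : 2 ≤ Real.exp w := by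
    have := Real.add_one_le_exp w
    linarith
  calc 2 * Real.exp (-((B / lt) ^ 2 / (4 * (σ * (M * Real.sqrt Nb)) ^ 2)))
      ≤ 2 * Real.exp (-(3 * w)) :=
        mul_le_mul_of_nonneg_left (Real.exp_le_exp.mpr (neg_le_neg h3w)) (by norm_num)
    _ ≤ Real.exp w * Real.exp (-(3 * w)) :=
        mul_le_mul_of_nonneg_right h2e (Real.exp_pos _).le
    _ = Real.exp (-(2 * w)) := by rw [← Real.exp_add]; ring_nf

end

/-- the weight of a row with a large scale -/
theorem weight_large (L Nb wm w : ℝ) (hNb : 1 ≤ Nb) (hwm : 0 ≤ wm) (hL : Nb ^ 8 ≤ L)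
    (hw : Real.sqrt L / Nb ^ 2 ≤ w) (h7 : wm + 2 ≤ Nb ^ 2) :
    L * Real.exp (-w) ≤ Nb ^ 8 * Real.exp (-wm) := by
  have hNb0 : 0 < Nb := by linarith
  have hL0 : 0 ≤ L := le_trans (by positivity) hL
  set y := Real.sqrt L with hy
  have hy0 : 0 ≤ y := Real.sqrt_nonneg _
  have hy2 : y ^ 2 = L := Real.sq_sqrt hL0
  have hy4 : Nb ^ 4 ≤ y := by
    rw [hy]
    refine Real.le_sqrt_of_sq_le ?_
    calc (Nb ^ 4) ^ 2 = Nb ^ 8 := by ring
      _ ≤ L := hL
  set u := y / Nb ^ 4 with hu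
  have hu1 : 1 ≤ u := by rw [hu, le_div_iff₀ (by positivity)]; linarith
  have hyu : y = Nb ^ 4 * u := by rw [hu]; field_simp
  have hwu : wm + 2 * u ≤ w := by
    have h1 : y / Nb ^ 2 = Nb ^ 2 * u := by rw [hyu]; field_simp
    rw [h1] at hw
    have h2 : (wm + 2) * u ≤ Nb ^ 2 * u := mul_le_mul_of_nonneg_right h7 (by linarith)
    have h3 : wm ≤ wm * u := le_mul_of_one_le_right hwm hu1
    nlinarith
  have hexp : Real.exp (-w) ≤ Real.exp (-wm) * Real.exp (-(2 * u)) := by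
    rw [← Real.exp_add]
    exact Real.exp_le_exp.mpr (by linarith)
  have hu2 : u ^ 2 * Real.exp (-(2 * u)) ≤ 1 := by
    have h1 : u ≤ Real.exp u := by
      have := Real.add_one_le_exp u
      linarith
    have h2 : u ^ 2 ≤ Real.exp (2 * u) := by
      calc u ^ 2 ≤ (Real.exp u) ^ 2 := pow_le_pow_left₀ (by linarith) h1 2
        _ = Real.exp (2 * u) := by rw [← Real.exp_nat_mul]; norm_num
    rw [Real.exp_neg, ← div_eq_mul_inv, div_le_one (Real.exp_pos _)]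
    exact h2
  calc L * Real.exp (-w) ≤ L * (Real.exp (-wm) * Real.exp (-(2 * u))) :=
        mul_le_mul_of_nonneg_left hexp hL0
    _ = Nb ^ 8 * Real.exp (-wm) * (u ^ 2 * Real.exp (-(2 * u))) := by
        rw [← hy2, hyu]; ring
    _ ≤ Nb ^ 8 * Real.exp (-wm) * 1 := mul_le_mul_of_nonneg_left hu2 (by positivity)
    _ = _ := mul_one _

end

end Pool.Agent.R959.LD2
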